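import Mathlib
import Pool.Agent.Y140.AW.Stm

/-!
Statements (NOT results) of the pieces of the project TP (helper25, problem MP_7f581e_nt):
alternating fibre powers in characteristic 2.

The points of the cover are the common zeros of `Θ(x, b)` and
`u D^8 + w ((x^B D + 1)^8 + D^8 ∑ ν_i x^(8 i)) = s w (D b)^8`, where `(u, w)` is `(X, 1)` or
`(1, X)` (in odd characteristic `p` the exponent was `p`, see `Pool.Agent.Y140.AW`).
-/

set_option autoImplicit false

namespace Pool.Agent.L7h25.TP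

open Polynomial Pool.Agent.Y140.AW

section defs

variable {K N : Type} [Field K] [Field N] [Algebra K N]

/-- The polynomial `u D^8 + w ((X^B D + 1)^8 + D^8 ∑ ν_a X^(8 a))`. -/
noncomputable def G8 (u w D : K[X]) (B : ℕ) {m : ℕ} (ν : Fin m → N) : N[X] :=
  u.map (algebraMap K N) * (D.map (algebraMap K N)) ^ 8 +
    w.map (algebraMap K N) * ((X ^ B * D.map (algebraMap K N) + 1) ^ 8 +
      (D.map (algebraMap K N)) ^ 8 * ∑ a : Fin m, C (ν a) * X ^ (8 * (a : ℕ)))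

/-- The point `(a, b)` of the curve `Θ = 0` lies over `(ν, s)`. -/
def Pt8 (Θ : K[X][X]) (u w D : K[X]) (B : ℕ) {m : ℕ} (ν : Fin m → N) (s a b : N) : Prop :=
  (tA Θ a).eval b = 0 ∧ aeval a D ≠ 0 ∧
    (G8 u w D B ν).eval a = s * aeval a w * (aeval a D * b) ^ 8

end defs

/-- The two possible pairs `(u, w)`: in characteristic 2 the pairs `(X, 1)` and `(1, X)`. -/
structure UW {K : Type} [Field K] (u w : K[X]) : Prop where
  monic : w.Monic
  degw : w.natDegree ≤ 1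
  degu : u.natDegree ≤ 1
  wr : derivative u * w - u * derivative w = 1

/-- The number of points. -/
def np {K : Type} [Field K] (w D : K[X]) (d B : ℕ) : ℕ :=
  d * (8 * (B + D.natDegree) + w.natDegree)

/-- PTS: the points over `(ν, s)`. Port of `Pool.Agent.Y921.AW.t_pts` (exponent `8` in
characteristic 2 instead of `p`). The first coordinates are the roots of
`P = ∑ k ≤ d, (Θ.coeff k)^8 G^k (s w D^8)^(d-k)`, `G = G8 u w D B ν`; at a root `w(a) ≠ 0` and
`w P' = (u' w - u w') D^8 (∂P/∂G) + d w' P`. `Pool.Agent.Y421.AW.t_res : St_res` is available. -/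
def S_PTS : Prop :=
  ∀ (K N : Type) [Field K] [CharP K 2] [Field N] [IsAlgClosed N] [Algebra K N]
    (Θ : K[X][X]) (u w D₀ D : K[X]) (d B m : ℕ), DD Θ D₀ d → BB Θ B m → UW u w → D ≠ 0 → D₀ ∣ D →
    ∀ (ν : Fin m → N) (s : N), s ≠ 0 →
    ∃ x θ : Fin (np w D d B) → N, Function.Injective x ∧
      (∀ l, Pt8 Θ u w D B ν s (x l) (θ l)) ∧
      (∀ a b, Pt8 Θ u w D B ν s a b → ∃ l, a = x l ∧ b = θ l)

/-- LIN: the parameters are determined by the points. Port of `Pool.Agent.Y140.AW.lin`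
(file `Y140/AW/Bas.lean`). -/
def S_LIN : Prop :=
  ∀ (K N : Type) [Field K] [CharP K 2] [Field N] [Algebra K N] (Θ : K[X][X]) (u w D : K[X])
    (B m : ℕ), UW u w → ∀ (ν ν' : Fin m → N) (s : N) (x θ : Fin m → N), Function.Injective x →
    (∀ j, Pt8 Θ u w D B ν s (x j) (θ j)) → (∀ j, Pt8 Θ u w D B ν' s (x j) (θ j)) → ν = ν'

/-- IND: the first coordinates of `m` different points are algebraically independent. Port of
`Pool.Agent.Y686.AW.t_indep` (file `Y686/AW/Indep.lean`). -/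
def S_IND : Prop :=
  ∀ (K K₀ N : Type) [Field K] [CharP K 2] [Field K₀] [Algebra K K₀]
    [Algebra.IsAlgebraic K K₀] [Field N] [IsAlgClosed N] [Algebra K N] [Algebra K₀ N]
    [IsScalarTower K K₀ N] (Θ : K[X][X]) (u w D₀ D : K[X]) (d B m : ℕ), DD Θ D₀ d → UW u w →
    ∀ (ν : Fin m → N) (s : N),
    IsTranscendenceBasis K₀ (fun o : Option (Fin m) => o.elim s ν) →
    ∀ x θ : Fin m → N, Function.Injective x → (∀ j, Pt8 Θ u w D B ν s (x j) (θ j)) →
      AlgebraicIndependent (IntermediateField.adjoin K₀ {s}) x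

/-! ### Witt vectors -/

/-- The Witt vectors. -/
abbrev WN (N : Type) [Field N] : Type := WittVector 2 N

/-- The residue map. -/
noncomputable abbrev rs (N : Type) [Field N] [CharP N 2] : WN N →+* N :=
  WittVector.constantCoeff

/-- HEN: Hensel's lemma (`HenselianLocalRing`, from `WittVector.isAdicCompleteIdealSpanP`): a
polynomial of degree `n` with unit leading coefficient whose reduction has `n` different roots. -/
def S_HEN : Prop :=
  ∀ (N : Type) [Field N] [CharP N 2] [IsAlgClosed N] (n : ℕ) (P : (WN N)[X]) (x : Fin n → N),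
    P.natDegree = n → IsUnit P.leadingCoeff → Function.Injective x →
    (∀ l, (P.map (rs N)).eval (x l) = 0) →
    ∃ y : Fin n → WN N, (∀ l, rs N (y l) = x l) ∧ (∀ l, P.eval (y l) = 0) ∧
      P = C P.leadingCoeff * ∏ l, (X - C (y l)) ∧
      (∀ l, (derivative P).eval (y l) =
        P.leadingCoeff * ∏ j ∈ Finset.univ.erase l, (y l - y j)) ∧
      ∀ z, P.eval z = 0 → ∃ l, z = y l

/-- SGN: the sign of a permutation from the discriminant modulo 8. (With
`δ = ∏_{i<j} (y i - y j)` the hypothesis says `(c δ)² = w² + 8 z'`; `WN N` is a domain of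
characteristic 0 with residue field `N` of characteristic 2, so `c δ = ± w + 4 z''`, and
`σ δ = sign τ • δ`.) -/
def S_SGN : Prop :=
  ∀ (N : Type) [Field N] [CharP N 2] [IsAlgClosed N] (n : ℕ) (y : Fin n → WN N) (σ : N ≃+* N)
    (τ : Equiv.Perm (Fin n)) (c w z : WN N) (v : ℤˣ),
    Function.Injective (fun l => rs N (y l)) →
    (∀ l, WittVector.map (σ : N →+* N) (y l) = y (τ l)) →
    WittVector.map (σ : N →+* N) c = c → WittVector.map (σ : N →+* N) w = ((v : ℤˣ) : ℤ) • w →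
    IsUnit c → IsUnit w →
    c ^ 2 * ∏ l, ∏ j ∈ Finset.univ.erase l, (y l - y j) =
      (-1) ^ (n * (n - 1) / 2) * w ^ 2 + 8 * z →
    Equiv.Perm.sign τ = v

/-- LAG: Lagrange. -/
def S_LAG : Prop :=
  ∀ (R : Type) [CommRing R] [IsDomain R] (n : ℕ) (y v : Fin n → R) (Q : R[X]),
    (∀ l, v l * ∏ j ∈ Finset.univ.erase l, (y l - y j) = 1) → Q.natDegree + 1 < n →
    ∑ l, Q.eval (y l) * v l = 0

/-- NRM: `∏ (1 + 2 ψ) = 1 + 2 e₁ + 4 e₂ + 8 ...` with `2 e₂ = e₁² - p₂`. -/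
def S_NRM : Prop :=
  ∀ (R : Type) [CommRing R] [IsDomain R] [CharZero R] (n : ℕ) (ψ : Fin n → R),
    (4 : R) ∣ ∑ l, ψ l → (4 : R) ∣ ∑ l, ψ l ^ 2 → (8 : R) ∣ (∏ l, (1 + 2 * ψ l)) - 1

/-- The polynomial with the eighth powers of the coefficients. -/
noncomputable def pw8 {R : Type} [CommRing R] (Θ : R[X]) : R[X] :=
  ∑ k ∈ Finset.range (Θ.natDegree + 1), C (Θ.coeff k ^ 8) * X ^ k

/-- INS: in characteristic 2, with `Θ(x, θ) = 0`, the elements `D₀^a Θ_Z(x, θ)` and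
`D₀^b / (D₀^a Θ_Z(x, θ))` are polynomials `V₀`, `V₁` in `x` and `θ^8`.
(`pw8 Θ` evaluated at `Z^8` is `Θ(Z)^8`. Let `Θ(Z) = Θe(Z²) + Z Θo(Z²)`, so `Θ_Z = Θo(Z²)`, and
`D₀ = A Θ + β Θ_Z`. Then `D₀² θ = Θe(θ²) Θo(θ²) β(θ)²` and `β(θ)²` is a polynomial in `θ²` over
`K[x]`: so `D₀² y(θ)` is a polynomial in `θ²` over `K[x]` for every polynomial `y`; do it three
times.) -/
def S_INS : Prop :=
  ∀ (K : Type) [Field K] [CharP K 2] (Θ : K[X][X]) (D₀ : K[X]) (d : ℕ), DD Θ D₀ d →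
    ∃ (a b : ℕ) (V₀ V₁ : K[X][X]),
      pw8 Θ ∣ V₀ ^ 8 - C D₀ ^ (8 * a) * derivative (pw8 Θ) ∧ pw8 Θ ∣ V₀ * V₁ - C D₀ ^ b

/-- PARA: the monodromy group is even in the case `(u, w) = (X, 1)`. -/
def S_PARA : Prop :=
  ∀ (K N : Type) [Field K] [CharP K 2] [Field N] [IsAlgClosed N] [Algebra K N]
    (Θ : K[X][X]) (D₀ : K[X]) (d : ℕ), DD Θ D₀ d → ∃ κ B₀ : ℕ, 0 < κ ∧
    ∀ (B m : ℕ), B₀ ≤ B → m ≤ B → ∀ (ν : Fin m → N) (s : N), s ≠ 0 →
    ∀ x θ : Fin (np (1 : K[X]) (D₀ ^ κ) d B) → N, Function.Injective x →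
      (∀ l, Pt8 Θ X 1 (D₀ ^ κ) B ν s (x l) (θ l)) →
      ∀ (σ : N ≃ₐ[K] N) (τ : Equiv.Perm (Fin (np (1 : K[X]) (D₀ ^ κ) d B))), σ s = s →
        (∀ i, σ (ν i) = ν i) → (∀ l, σ (x l) = x (τ l)) → (∀ l, σ (θ l) = θ (τ l)) →
        Equiv.Perm.sign τ = 1

end Pool.Agent.L7h25.TP
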