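import Mathlib
import Pool.Agent.L7h25.TP.Stm

/-!
Lifts of polynomials to Witt vectors, homogenization, congruences (project TP).
-/

set_option autoImplicit false
set_option linter.unusedSectionVars false

namespace Pool.Agent.L7h25.TP

open Polynomial Pool.Agent.Y140.AW

section witt

variable {N : Type} [Field N] [CharP N 2]

theorem rs_surj : Function.Surjective (rs N) := WittVector.constantCoeff_surjective 2

theorem exists_two [IsAlgClosed N] {a : WN N} (h : rs N a = 0) : ∃ b, a = 2 * b := by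
  have h1 := (WittVector.mem_span_p_iff_coeff_zero_eq_zero (p := 2) a).2 h
  obtain ⟨b, hb⟩ := Ideal.mem_span_singleton'.1 h1
  exact ⟨b, by rw [← hb, mul_comm]; norm_num⟩

theorem rs_two : rs N 2 = 0 := by
  rw [map_ofNat]
  exact CharTwo.two_eq_zero

theorem isUnit_of_rs {a : WN N} (h : rs N a ≠ 0) : IsUnit a :=
  WittVector.isUnit_of_coeff_zero_ne_zero a h

theorem rs_ne {a : WN N} (h : IsUnit a) : rs N a ≠ 0 := (h.map (rs N)).ne_zero

theorem rs_tm (r : N) : rs N (WittVector.teichmuller 2 r) = r :=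
  WittVector.teichmuller_coeff_zero 2 r

theorem rs_map (f : N →+* N) (a : WN N) : rs N (WittVector.map f a) = f (rs N a) :=
  WittVector.map_coeff f a 0

theorem exists_two_poly [IsAlgClosed N] {F : (WN N)[X]} (h : F.map (rs N) = 0) : ∃ G, F = 2 * G := by
  have h1 : ∀ k, ∃ b, F.coeff k = 2 * b := fun k => exists_two (by
    have h2 := congrArg (fun P : N[X] => P.coeff k) h
    simpa using h2)
  choose b hb using h1
  refine ⟨∑ k ∈ Finset.range (F.natDegree + 1), C (b k) * X ^ k, ?_⟩
  rw [Finset.mul_sum]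
  conv_lhs => rw [F.as_sum_range_C_mul_X_pow]
  refine Finset.sum_congr rfl fun k _ => ?_
  rw [hb k, C_mul, mul_assoc]
  congr 1

theorem exists_two_poly2 [IsAlgClosed N] {F : (WN N)[X][X]} (h : F.map (mapRingHom (rs N)) = 0) :
    ∃ G, F = 2 * G := by
  have h1 : ∀ k, ∃ b, F.coeff k = 2 * b := fun k => exists_two_poly (by
    have h2 := congrArg (fun P : N[X][X] => P.coeff k) h
    simpa using h2)
  choose b hb using h1
  refine ⟨∑ k ∈ Finset.range (F.natDegree + 1), C (b k) * X ^ k, ?_⟩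
  rw [Finset.mul_sum]
  conv_lhs => rw [F.as_sum_range_C_mul_X_pow]
  refine Finset.sum_congr rfl fun k _ => ?_
  rw [hb k, C_mul, mul_assoc]
  congr 1

end witt

/-- Eighth powers. -/
theorem pow_eight {R : Type} [CommRing R] {a b : R} (h : ∃ c, a = b + 2 * c) :
    ∃ c, a ^ 8 = b ^ 8 + 16 * c := by
  obtain ⟨c, rfl⟩ := h
  exact ⟨b ^ 7 * c + 7 * b ^ 6 * c ^ 2 + 28 * b ^ 5 * c ^ 3 + 70 * b ^ 4 * c ^ 4 +
    112 * b ^ 3 * c ^ 5 + 112 * b ^ 2 * c ^ 6 + 64 * b * c ^ 7 + 16 * c ^ 8, by ring⟩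

section lift

variable {K : Type} (N : Type) [Field K] [Field N] [CharP N 2] [Algebra K N]

/-- The lift of a polynomial. -/
noncomputable def tl (f : K[X]) : (WN N)[X] :=
  ∑ k ∈ Finset.range (f.natDegree + 1),
    C (WittVector.teichmuller 2 (algebraMap K N (f.coeff k))) * X ^ k

theorem tl_coeff (f : K[X]) (k : ℕ) :
    (tl N f).coeff k = WittVector.teichmuller 2 (algebraMap K N (f.coeff k)) := by
  unfold tl
  rw [finsetSum_coeff]
  simp only [coeff_C_mul_X_pow]
  rw [Finset.sum_ite_eq]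
  split_ifs with h
  · rfl
  · rw [coeff_eq_zero_of_natDegree_lt (by
      rw [Finset.mem_range] at h
      omega), map_zero]
    exact (WittVector.teichmuller_zero 2 (R := N)).symm

theorem tl_map (f : K[X]) : (tl N f).map (rs N) = f.map (algebraMap K N) := by
  ext k
  rw [coeff_map, coeff_map, tl_coeff, rs_tm]

theorem tl_fix (f : K[X]) (σ : N ≃ₐ[K] N) :
    (tl N f).map (WittVector.map (σ : N →+* N)) = tl N f := by
  ext1 k
  rw [coeff_map, tl_coeff, WittVector.map_teichmuller]
  congr 1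
  exact σ.commutes _

theorem tl_natDegree (f : K[X]) : (tl N f).natDegree = f.natDegree := by
  apply le_antisymm
  · rw [natDegree_le_iff_coeff_eq_zero]
    intro k hk
    rw [tl_coeff, coeff_eq_zero_of_natDegree_lt hk, map_zero]
    exact WittVector.teichmuller_zero 2 (R := N)
  · rw [← natDegree_map (algebraMap K N) (p := f), ← tl_map]
    exact natDegree_map_le

theorem tl_lc {f : K[X]} (hf : f ≠ 0) : IsUnit (tl N f).leadingCoeff := by
  apply isUnit_of_rs
  rw [leadingCoeff, tl_coeff, rs_tm, tl_natDegree]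
  exact (map_ne_zero_iff _ (algebraMap K N).injective).2 (leadingCoeff_ne_zero.2 hf)

theorem tl_one : tl N (1 : K[X]) = 1 := by
  ext1 k
  rw [tl_coeff, coeff_one, coeff_one]
  split_ifs
  · rw [map_one, map_one]
  · rw [map_zero]
    exact WittVector.teichmuller_zero 2 (R := N)

/-- The lift of a polynomial with polynomial coefficients. -/
noncomputable def tl2 (f : K[X][X]) : (WN N)[X][X] :=
  ∑ k ∈ Finset.range (f.natDegree + 1), C (tl N (f.coeff k)) * X ^ k

theorem tl_zero : tl N (0 : K[X]) = 0 := by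
  ext1 k
  rw [tl_coeff, coeff_zero, coeff_zero, map_zero]
  exact WittVector.teichmuller_zero 2 (R := N)

theorem tl2_coeff (f : K[X][X]) (k : ℕ) : (tl2 N f).coeff k = tl N (f.coeff k) := by
  unfold tl2
  rw [finsetSum_coeff]
  simp only [coeff_C_mul_X_pow]
  rw [Finset.sum_ite_eq]
  split_ifs with h
  · rfl
  · rw [coeff_eq_zero_of_natDegree_lt (by
      rw [Finset.mem_range] at h
      omega), tl_zero]

theorem tl2_map (f : K[X][X]) :
    (tl2 N f).map (mapRingHom (rs N)) = f.map (mapRingHom (algebraMap K N)) := by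
  ext1 k
  rw [coeff_map, coeff_map, tl2_coeff, coe_mapRingHom, coe_mapRingHom, tl_map]

theorem tl2_fix (f : K[X][X]) (σ : N ≃ₐ[K] N) :
    (tl2 N f).map (mapRingHom (WittVector.map (σ : N →+* N))) = tl2 N f := by
  ext1 k
  rw [coeff_map, tl2_coeff, coe_mapRingHom, tl_fix]

theorem tl2_monic {f : K[X][X]} (hf : f.Monic) :
    (tl2 N f).Monic ∧ (tl2 N f).natDegree = f.natDegree := by
  have h1 : (tl2 N f).natDegree ≤ f.natDegree := by
    rw [natDegree_le_iff_coeff_eq_zero]
    intro k hk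
    rw [tl2_coeff, coeff_eq_zero_of_natDegree_lt hk, tl_zero]
  have h2 : (tl2 N f).coeff f.natDegree = 1 := by
    rw [tl2_coeff]
    have h3 : f.coeff f.natDegree = 1 := hf
    rw [h3, tl_one]
  have h3 : (tl2 N f).natDegree = f.natDegree := by
    apply le_antisymm h1
    apply le_natDegree_of_ne_zero
    rw [h2]
    exact one_ne_zero
  exact ⟨by rw [Monic, leadingCoeff, h3, h2], h3⟩

end lift

section pw

theorem pw8_coeff {R : Type} [CommRing R] (Θ : R[X]) (k : ℕ) :
    (pw8 Θ).coeff k = Θ.coeff k ^ 8 := by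
  unfold pw8
  rw [finsetSum_coeff]
  simp only [coeff_C_mul_X_pow]
  rw [Finset.sum_ite_eq]
  split_ifs with h
  · rfl
  · rw [coeff_eq_zero_of_natDegree_lt (by
      rw [Finset.mem_range] at h
      omega), zero_pow (by norm_num)]

theorem pw8_map {R S : Type} [CommRing R] [CommRing S] (f : R →+* S) (Θ : R[X]) :
    (pw8 Θ).map f = pw8 (Θ.map f) := by
  ext k
  rw [coeff_map, pw8_coeff, pw8_coeff, coeff_map, map_pow]

theorem pw8_monic {R : Type} [CommRing R] [Nontrivial R] {Θ : R[X]} (h : Θ.Monic) :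
    (pw8 Θ).Monic ∧ (pw8 Θ).natDegree = Θ.natDegree := by
  have h1 : (pw8 Θ).natDegree ≤ Θ.natDegree := by
    rw [natDegree_le_iff_coeff_eq_zero]
    intro k hk
    rw [pw8_coeff, coeff_eq_zero_of_natDegree_lt hk, zero_pow (by norm_num)]
  have h2 : (pw8 Θ).coeff Θ.natDegree = 1 := by
    rw [pw8_coeff]
    have h3 : Θ.coeff Θ.natDegree = 1 := h
    rw [h3, one_pow]
  have h3 : (pw8 Θ).natDegree = Θ.natDegree := by
    apply le_antisymm h1
    apply le_natDegree_of_ne_zero
    rw [h2]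
    exact one_ne_zero
  exact ⟨by rw [Monic, leadingCoeff, h3, h2], h3⟩

/-- The value at an eighth power. -/
theorem pw8_eval {N : Type} [Field N] [CharP N 2] (Θ : N[X]) (b : N) :
    (pw8 Θ).eval (b ^ 8) = (Θ.eval b) ^ 8 := by
  unfold pw8
  rw [eval_finsetSum, eval_eq_sum_range]
  have h1 : ∀ (s : Finset ℕ) (f : ℕ → N), (∑ i ∈ s, f i) ^ 8 = ∑ i ∈ s, f i ^ 8 := fun s f => by
    have := sum_pow_char_pow (R := N) (p := 2) (n := 3) s f
    norm_num at this
    exact this
  rw [h1]
  refine Finset.sum_congr rfl fun k _ => ?_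
  rw [eval_mul, eval_C, eval_pow, eval_X, mul_pow, ← pow_mul, ← pow_mul, mul_comm 8 k]

end pw

section hm

/-- Homogenization. -/
noncomputable def hm {A : Type} [CommRing A] (r : A[X]) (e : ℕ) (U V : A) : A :=
  ∑ k ∈ Finset.range (e + 1), r.coeff k * U ^ k * V ^ (e - k)

theorem hm_eval {A R : Type} [CommRing A] [CommRing R] (φ : A →+* R) (r : A[X]) (e : ℕ)
    (hr : r.natDegree ≤ e) (U V : A) (Y : R) (h : φ U = φ V * Y) :
    φ (hm r e U V) = φ V ^ e * (r.map φ).eval Y := by
  have h1 : (r.map φ).natDegree < e + 1 := by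
    have : (r.map φ).natDegree ≤ r.natDegree := natDegree_map_le
    omega
  unfold hm
  rw [map_sum, eval_eq_sum_range' h1, Finset.mul_sum]
  refine Finset.sum_congr rfl fun k hk => ?_
  have hk' : k ≤ e := by
    have := Finset.mem_range.1 hk
    omega
  obtain ⟨c, rfl⟩ : ∃ c, e = k + c := ⟨e - k, by omega⟩
  rw [map_mul, map_mul, map_pow, map_pow, h, coeff_map, Nat.add_sub_cancel_left]
  ring

theorem hm_map {A R : Type} [CommRing A] [CommRing R] (φ : A →+* R) (r : A[X]) (e : ℕ)
    (U V : A) : φ (hm r e U V) = hm (r.map φ) e (φ U) (φ V) := by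
  unfold hm
  rw [map_sum]
  refine Finset.sum_congr rfl fun k _ => ?_
  rw [map_mul, map_mul, map_pow, map_pow, coeff_map]

end hm

end Pool.Agent.L7h25.TP
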