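import Mathlib
import Pool.Agent.L7h25.TP.Lft

/-!
The derivative of the polynomial modulo 8 (project TP).
-/

set_option autoImplicit false
set_option linter.unusedSectionVars false

namespace Pool.Agent.L7h25.TP

open Polynomial

section der

variable {R : Type} [CommRing R]

theorem der_eight (f : R[X]) : (8 : R[X]) ∣ derivative (f ^ 8) := by
  rw [derivative_pow]
  refine ⟨f ^ 7 * derivative f, ?_⟩
  norm_num
  rw [show (C (8 : R) : R[X]) = 8 from map_ofNat C 8]
  ring

/-- The polynomial `u D^8 + w ((X^B D + 1)^8 + D^8 ∑ c_a X^(8 a))`. -/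
noncomputable def Gt (u w D : R[X]) (B : ℕ) {m : ℕ} (c : Fin m → R) : R[X] :=
  u * D ^ 8 + w * ((X ^ B * D + 1) ^ 8 + D ^ 8 * ∑ a : Fin m, C (c a) * X ^ (8 * (a : ℕ)))

/-- The polynomial `s w D^8`. -/
noncomputable def Et (w D : R[X]) (s : R) : R[X] := C s * (w * D ^ 8)

theorem der_sum8 {m : ℕ} (c : Fin m → R) :
    (8 : R[X]) ∣ derivative (∑ a : Fin m, C (c a) * X ^ (8 * (a : ℕ))) := by
  rw [derivative_sum]
  refine Finset.dvd_sum fun a _ => ?_
  rw [derivative_C_mul, mul_comm 8, pow_mul]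
  exact (der_eight _).mul_left _

theorem Gt_der (u w D : R[X]) (B : ℕ) {m : ℕ} (c : Fin m → R) :
    (8 : R[X]) ∣ w * derivative (Gt u w D B c) -
      ((derivative u * w - u * derivative w) * D ^ 8 + derivative w * Gt u w D B c) := by
  obtain ⟨a1, h1⟩ := der_eight D
  obtain ⟨a2, h2⟩ := der_eight (X ^ B * D + 1)
  obtain ⟨a3, h3⟩ := der_sum8 c
  unfold Gt
  set S := ∑ a : Fin m, C (c a) * X ^ (8 * (a : ℕ)) with hS
  rw [derivative_add, derivative_mul, derivative_mul, derivative_add, derivative_mul, h1, h2, h3]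
  exact ⟨w * (u * a1 + w * (a2 + (a1 * S + D ^ 8 * a3))), by ring⟩

theorem Et_der (w D : R[X]) (s : R) :
    (8 : R[X]) ∣ w * derivative (Et w D s) - derivative w * Et w D s := by
  obtain ⟨a1, h1⟩ := der_eight D
  unfold Et
  rw [derivative_C_mul, derivative_mul, h1]
  exact ⟨w * (C s * (w * a1)), by ring⟩

theorem hm_der (Q : R[X][X]) (d : ℕ) (hd : 0 < d) (G E w D e : R[X])
    (hQ : ∀ k, (8 : R[X]) ∣ derivative (Q.coeff k))
    (hG : (8 : R[X]) ∣ w * derivative G - (e * D ^ 8 + derivative w * G))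
    (hE : (8 : R[X]) ∣ w * derivative E - derivative w * E) :
    (8 : R[X]) ∣ w * derivative (hm Q d G E) -
      (e * D ^ 8 * hm (derivative Q) (d - 1) G E + d * derivative w * hm Q d G E) := by
  obtain ⟨g, hg⟩ := hG
  obtain ⟨h, hh⟩ := hE
  have hg' : w * derivative G = e * D ^ 8 + derivative w * G + 8 * g := by rw [← hg]; ring
  have hh' : w * derivative E = derivative w * E + 8 * h := by rw [← hh]; ring
  have h1 : hm (derivative Q) (d - 1) G E =
      ∑ k ∈ Finset.range (d + 1), Q.coeff k * (k : R[X]) * G ^ (k - 1) * E ^ (d - k) := by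
    obtain ⟨d', rfl⟩ : ∃ d', d = d' + 1 := ⟨d - 1, by omega⟩
    rw [Finset.sum_range_succ']
    unfold hm
    rw [Nat.add_sub_cancel]
    simp only [Nat.cast_zero, mul_zero, zero_mul, add_zero]
    refine Finset.sum_congr rfl fun k hk => ?_
    have hk' : k ≤ d' := by
      have := Finset.mem_range.1 hk
      omega
    rw [coeff_derivative]
    have e1 : d' + 1 - (k + 1) = d' - k := by omega
    rw [e1, Nat.add_sub_cancel]
    push_cast
    ring
  rw [h1]
  unfold hm
  rw [derivative_sum, Finset.mul_sum, Finset.mul_sum, Finset.mul_sum, ← Finset.sum_add_distrib,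
    ← Finset.sum_sub_distrib]
  refine Finset.dvd_sum fun k hk => ?_
  have hk' : k ≤ d := by
    have := Finset.mem_range.1 hk
    omega
  obtain ⟨c, rfl⟩ : ∃ c, d = k + c := ⟨d - k, by omega⟩
  rw [Nat.add_sub_cancel_left]
  obtain ⟨q, hq⟩ := hQ k
  have h2 : derivative (Q.coeff k * G ^ k * E ^ c) = derivative (Q.coeff k) * G ^ k * E ^ c +
      Q.coeff k * ((k : R[X]) * G ^ (k - 1) * derivative G) * E ^ c +
      Q.coeff k * G ^ k * ((c : R[X]) * E ^ (c - 1) * derivative E) := by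
    rw [derivative_mul, derivative_mul, derivative_pow, derivative_pow]
    simp only [C_eq_natCast]
    ring
  rw [h2, hq]
  have h3 : (k : R[X]) * G ^ (k - 1) * G = (k : R[X]) * G ^ k := by
    rcases Nat.eq_zero_or_pos k with rfl | hk0
    · simp
    · obtain ⟨k', rfl⟩ : ∃ k', k = k' + 1 := ⟨k - 1, by omega⟩
      rw [Nat.add_sub_cancel, pow_succ]
      ring
  have h4 : (c : R[X]) * E ^ (c - 1) * E = (c : R[X]) * E ^ c := by
    rcases Nat.eq_zero_or_pos c with rfl | hk0
    · simp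
    · obtain ⟨k', rfl⟩ : ∃ k', c = k' + 1 := ⟨c - 1, by omega⟩
      rw [Nat.add_sub_cancel, pow_succ]
      ring
  refine ⟨w * q * G ^ k * E ^ c + Q.coeff k * ((k : R[X]) * G ^ (k - 1) * g) * E ^ c +
    Q.coeff k * G ^ k * ((c : R[X]) * E ^ (c - 1) * h), ?_⟩
  push_cast
  linear_combination (Q.coeff k * (k : R[X]) * G ^ (k - 1) * E ^ c) * hg' +
    (Q.coeff k * G ^ k * (c : R[X]) * E ^ (c - 1)) * hh' +
    (Q.coeff k * derivative w * E ^ c) * h3 + (Q.coeff k * G ^ k * derivative w) * h4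

end der

end Pool.Agent.L7h25.TP
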