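import Mathlib
import Pool.Agent.L7h25.TP.Der

/-!
Degrees (project TP).
-/

set_option autoImplicit false
set_option linter.unusedSectionVars false

namespace Pool.Agent.L7h25.TP

open Polynomial

section deg

variable {R : Type} [CommRing R] [IsDomain R]

theorem Gt_deg {u w D : R[X]} (hD : D ≠ 0) (hw : w.Monic) (hu : u.natDegree ≤ 1) {B m : ℕ}
    (hB : 1 ≤ B) (hm : m ≤ B) (c : Fin m → R) :
    (Gt u w D B c).natDegree = 8 * (B + D.natDegree) + w.natDegree ∧
      (Gt u w D B c).leadingCoeff = D.leadingCoeff ^ 8 := by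
  set δ := D.natDegree with hδ
  set S := ∑ a : Fin m, C (c a) * X ^ (8 * (a : ℕ)) with hS
  have hXD : (X ^ B * D).natDegree = B + δ := by
    rw [natDegree_mul (pow_ne_zero _ X_ne_zero) hD, natDegree_X_pow]
  have hQ : (X ^ B * D + 1).natDegree = B + δ := by
    rw [show (1 : R[X]) = C 1 from C_1.symm, natDegree_add_C, hXD]
  have hQl : (X ^ B * D + 1).leadingCoeff = D.leadingCoeff := by
    rw [leadingCoeff, hQ, coeff_add, coeff_one, if_neg (by omega), add_zero, ← hXD]
    change (X ^ B * D).leadingCoeff = _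
    rw [leadingCoeff_mul, leadingCoeff_X_pow, one_mul]
  have hQp : (w * (X ^ B * D + 1) ^ 8).natDegree = 8 * (B + δ) + w.natDegree := by
    rw [hw.natDegree_mul' , natDegree_pow, hQ, add_comm]
    intro h0
    have h1 := (pow_eq_zero_iff (by norm_num)).1 h0
    rw [h1, natDegree_zero] at hQ
    omega
  have hQpl : (w * (X ^ B * D + 1) ^ 8).leadingCoeff = D.leadingCoeff ^ 8 := by
    rw [leadingCoeff_mul, hw.leadingCoeff, one_mul, leadingCoeff_pow, hQl]
  have hDp : (D ^ 8).natDegree = 8 * δ := by rw [natDegree_pow]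
  have hlt1 : (u * D ^ 8).natDegree < 8 * (B + δ) + w.natDegree := by
    have h1 : (u * D ^ 8).natDegree ≤ 1 + 8 * δ := by
      refine natDegree_mul_le.trans ?_
      rw [hDp]
      omega
    omega
  have hlt2 : (w * (D ^ 8 * S)).natDegree < 8 * (B + δ) + w.natDegree := by
    have h1 : S.natDegree ≤ 8 * (B - 1) := by
      refine natDegree_sum_le_of_forall_le _ _ fun a _ => ?_
      refine (natDegree_C_mul_X_pow_le _ _).trans (Nat.mul_le_mul_left 8 ?_)
      have := a.2
      omega
    have h2 : (w * (D ^ 8 * S)).natDegree ≤ w.natDegree + (8 * δ + 8 * (B - 1)) := by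
      refine natDegree_mul_le.trans (Nat.add_le_add_left ?_ _)
      refine natDegree_mul_le.trans ?_
      rw [hDp]
      omega
    omega
  have hG : Gt u w D B c = w * (X ^ B * D + 1) ^ 8 + (u * D ^ 8 + w * (D ^ 8 * S)) := by
    unfold Gt
    rw [← hS]
    ring
  have hlt : (u * D ^ 8 + w * (D ^ 8 * S)).natDegree < 8 * (B + δ) + w.natDegree :=
    lt_of_le_of_lt (natDegree_add_le _ _) (max_lt hlt1 hlt2)
  have hn : (Gt u w D B c).natDegree = 8 * (B + δ) + w.natDegree := by
    rw [hG, natDegree_add_eq_left_of_natDegree_lt (by rw [hQp]; exact hlt), hQp]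
  refine ⟨hn, ?_⟩
  rw [leadingCoeff, hn, hG, coeff_add, coeff_eq_zero_of_natDegree_lt hlt, add_zero, ← hQpl,
    leadingCoeff, hQp]

theorem Et_deg (w D : R[X]) (s : R) : (Et w D s).natDegree ≤ 8 * D.natDegree + w.natDegree := by
  unfold Et
  refine (natDegree_C_mul_le _ _).trans (natDegree_mul_le.trans ?_)
  have := natDegree_pow_le (p := D) (n := 8)
  omega

theorem hm_term (r : R[X][X]) (e k : ℕ) (U V : R[X]) :
    (r.coeff k * U ^ k * V ^ (e - k)).natDegree ≤
      (r.coeff k).natDegree + k * U.natDegree + (e - k) * V.natDegree := by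
  refine natDegree_mul_le.trans (Nat.add_le_add ?_ natDegree_pow_le)
  exact natDegree_mul_le.trans (Nat.add_le_add_left natDegree_pow_le _)

theorem hm_le (r : R[X][X]) (e c : ℕ) (U V : R[X]) (hc : ∀ k, (r.coeff k).natDegree ≤ c)
    (hV : V.natDegree ≤ U.natDegree) : (hm r e U V).natDegree ≤ c + e * U.natDegree := by
  unfold hm
  refine natDegree_sum_le_of_forall_le _ _ fun k hk => (hm_term r e k U V).trans ?_
  have hk' : k ≤ e := by
    have := Finset.mem_range.1 hk
    omega
  have h1 : (e - k) * V.natDegree ≤ (e - k) * U.natDegree := Nat.mul_le_mul_left _ hV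
  have h2 : k * U.natDegree + (e - k) * U.natDegree = e * U.natDegree := by
    rw [← add_mul]
    congr 1
    omega
  have := hc k
  omega

theorem hm_deg {Q : R[X][X]} (hQ : Q.Monic) {d c : ℕ} (hd : Q.natDegree = d) (hd0 : 0 < d)
    (U V : R[X]) (hc : ∀ k, (Q.coeff k).natDegree ≤ c) (hUV : V.natDegree + c < U.natDegree) :
    (hm Q d U V).natDegree = d * U.natDegree ∧
      (hm Q d U V).leadingCoeff = U.leadingCoeff ^ d := by
  have h1 : (U ^ d).natDegree = d * U.natDegree := by rw [natDegree_pow]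
  have hsplit : hm Q d U V = U ^ d + ∑ k ∈ Finset.range d, Q.coeff k * U ^ k * V ^ (d - k) := by
    unfold hm
    rw [Finset.sum_range_succ, add_comm, Nat.sub_self, pow_zero, mul_one]
    congr 1
    have : Q.coeff d = 1 := by
      rw [← hd]
      exact hQ
    rw [this, one_mul]
  have hlow : (∑ k ∈ Finset.range d, Q.coeff k * U ^ k * V ^ (d - k)).natDegree <
      d * U.natDegree := by
    have h3 : (∑ k ∈ Finset.range d, Q.coeff k * U ^ k * V ^ (d - k)).natDegree ≤
        d * U.natDegree - 1 := by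
      refine natDegree_sum_le_of_forall_le _ _ fun k hk => (hm_term Q d k U V).trans ?_
      have hk' := Finset.mem_range.1 hk
      obtain ⟨e, rfl⟩ : ∃ e, d = k + (e + 1) := ⟨d - k - 1, by omega⟩
      rw [Nat.add_sub_cancel_left]
      have h4 : (e + 1) * V.natDegree + (e + 1) * c + (e + 1) ≤ (e + 1) * U.natDegree := by
        have := Nat.mul_le_mul_left (e + 1) (Nat.succ_le_of_lt hUV)
        calc (e + 1) * V.natDegree + (e + 1) * c + (e + 1) =
            (e + 1) * (V.natDegree + c).succ := by rw [Nat.succ_eq_add_one]; ring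
          _ ≤ _ := this
      have h5 := hc k
      have h6 : c ≤ (e + 1) * c := Nat.le_mul_of_pos_left _ (by omega)
      have h7 : (k + (e + 1)) * U.natDegree = k * U.natDegree + (e + 1) * U.natDegree := by ring
      omega
    have h4 : 0 < d * U.natDegree := Nat.mul_pos hd0 (by omega)
    omega
  have hnd : (hm Q d U V).natDegree = d * U.natDegree := by
    rw [hsplit, natDegree_add_eq_left_of_natDegree_lt (by rw [h1]; exact hlow), h1]
  refine ⟨hnd, ?_⟩
  rw [leadingCoeff, hnd, hsplit, coeff_add, coeff_eq_zero_of_natDegree_lt hlow, add_zero, ← h1]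
  change (U ^ d).leadingCoeff = _
  rw [leadingCoeff_pow]

theorem exists_bound (r : R[X][X]) : ∃ c, ∀ k, (r.coeff k).natDegree ≤ c := by
  refine ⟨(Finset.range (r.natDegree + 1)).sup fun k => (r.coeff k).natDegree, fun k => ?_⟩
  by_cases hk : k ≤ r.natDegree
  · exact Finset.le_sup (f := fun k => (r.coeff k).natDegree)
      (Finset.mem_range.2 (Nat.lt_succ_of_le hk))
  · rw [coeff_eq_zero_of_natDegree_lt (by omega), natDegree_zero]
    exact Nat.zero_le _

end deg

end Pool.Agent.L7h25.TP
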