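import Mathlib
import Pool.Agent.L7h25.TP.Deg

/-!
The lifted configuration (project TP).
-/

set_option autoImplicit false
set_option linter.unusedSectionVars false

namespace Pool.Agent.L7h25.TP

open Polynomial Pool.Agent.Y140.AW

theorem Gt_map {R S : Type} [CommRing R] [CommRing S] (f : R →+* S) (u w D : R[X]) (B : ℕ)
    {m : ℕ} (c : Fin m → R) :
    (Gt u w D B c).map f = Gt (u.map f) (w.map f) (D.map f) B (fun i => f (c i)) := by
  unfold Gt
  simp only [Polynomial.map_add, Polynomial.map_mul, Polynomial.map_pow, map_X, Polynomial.map_one,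
    Polynomial.map_sum, map_C]

theorem Et_map {R S : Type} [CommRing R] [CommRing S] (f : R →+* S) (w D : R[X]) (s : R) :
    (Et w D s).map f = Et (w.map f) (D.map f) (f s) := by
  unfold Et
  simp only [Polynomial.map_mul, Polynomial.map_pow, map_C]

theorem G8_eq {K N : Type} [Field K] [Field N] [Algebra K N] (u w D : K[X]) (B : ℕ) {m : ℕ}
    (ν : Fin m → N) : G8 u w D B ν =
      Gt (u.map (algebraMap K N)) (w.map (algebraMap K N)) (D.map (algebraMap K N)) B ν := rfl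

section cfg

variable {K : Type} (N : Type) [Field K] [Field N] [CharP N 2] [IsAlgClosed N] [Algebra K N]

/-- The lift of the curve. -/
noncomputable def Qt (Θ : K[X][X]) : (WN N)[X][X] := pw8 (tl2 N Θ)

/-- The lift of `G`. -/
noncomputable def GT (u w D₀ : K[X]) (κ B : ℕ) {m : ℕ} (ν : Fin m → N) : (WN N)[X] :=
  Gt (tl N u) (tl N w) (tl N D₀ ^ κ) B (fun i => WittVector.teichmuller 2 (ν i))

/-- The lift of `s w D^8`. -/
noncomputable def ET (w D₀ : K[X]) (κ : ℕ) (s : N) : (WN N)[X] :=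
  Et (tl N w) (tl N D₀ ^ κ) (WittVector.teichmuller 2 s)

/-- The lift of `P`. -/
noncomputable def PT (Θ : K[X][X]) (u w D₀ : K[X]) (d κ B : ℕ) {m : ℕ} (ν : Fin m → N) (s : N) :
    (WN N)[X] :=
  hm (Qt N Θ) d (GT N u w D₀ κ B ν) (ET N w D₀ κ s)

variable {N}

theorem GT_map (u w D₀ : K[X]) (κ B : ℕ) {m : ℕ} (ν : Fin m → N) :
    (GT N u w D₀ κ B ν).map (rs N) = G8 u w (D₀ ^ κ) B ν := by
  rw [G8_eq, GT, Gt_map, tl_map, tl_map, Polynomial.map_pow, tl_map, Polynomial.map_pow]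
  simp only [rs_tm]

theorem ET_map (w D₀ : K[X]) (κ : ℕ) (s : N) :
    (ET N w D₀ κ s).map (rs N) =
      C s * (w.map (algebraMap K N) * ((D₀ ^ κ).map (algebraMap K N)) ^ 8) := by
  rw [ET, Et_map, tl_map, Polynomial.map_pow, tl_map, rs_tm, Polynomial.map_pow]
  rfl

theorem Qt_map (Θ : K[X][X]) (a : N) :
    (Qt N Θ).map ((evalRingHom a).comp (mapRingHom (rs N))) = pw8 (tA Θ a) := by
  rw [Qt, pw8_map, ← Polynomial.map_map, tl2_map, Polynomial.map_map, tA]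
  congr 2
  apply RingHom.ext
  intro f
  change eval a (f.map (algebraMap K N)) = aeval a f
  rw [eval_map_algebraMap]

theorem Qt_monic {Θ : K[X][X]} (hΘ : Θ.Monic) :
    (Qt N Θ).Monic ∧ (Qt N Θ).natDegree = Θ.natDegree := by
  obtain ⟨h1, h2⟩ := tl2_monic N hΘ
  obtain ⟨h3, h4⟩ := pw8_monic h1
  exact ⟨h3, h4.trans h2⟩

theorem Qt_coeff (Θ : K[X][X]) (k : ℕ) : (Qt N Θ).coeff k = tl N (Θ.coeff k) ^ 8 := by
  rw [Qt, pw8_coeff, tl2_coeff]

theorem GT_fix (u w D₀ : K[X]) (κ B : ℕ) {m : ℕ} (ν : Fin m → N) (σ : N ≃ₐ[K] N)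
    (hσ : ∀ i, σ (ν i) = ν i) :
    (GT N u w D₀ κ B ν).map (WittVector.map (σ : N →+* N)) = GT N u w D₀ κ B ν := by
  rw [GT, Gt_map, tl_fix, tl_fix, Polynomial.map_pow, tl_fix]
  congr 1
  funext i
  rw [WittVector.map_teichmuller]
  congr 1
  exact hσ i

theorem ET_fix (w D₀ : K[X]) (κ : ℕ) (s : N) (σ : N ≃ₐ[K] N) (hσ : σ s = s) :
    (ET N w D₀ κ s).map (WittVector.map (σ : N →+* N)) = ET N w D₀ κ s := by
  rw [ET, Et_map, tl_fix, Polynomial.map_pow, tl_fix, WittVector.map_teichmuller]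
  congr 2

theorem Qt_fix (Θ : K[X][X]) (σ : N ≃ₐ[K] N) :
    (Qt N Θ).map (mapRingHom (WittVector.map (σ : N →+* N))) = Qt N Θ := by
  rw [Qt, pw8_map, tl2_fix]

theorem PT_fix (Θ : K[X][X]) (u w D₀ : K[X]) (d κ B : ℕ) {m : ℕ} (ν : Fin m → N) (s : N)
    (σ : N ≃ₐ[K] N) (hs : σ s = s) (hν : ∀ i, σ (ν i) = ν i) :
    (PT N Θ u w D₀ d κ B ν s).map (WittVector.map (σ : N →+* N)) = PT N Θ u w D₀ d κ B ν s := by
  have h1 := hm_map (mapRingHom (WittVector.map (σ : N →+* N))) (Qt N Θ) d (GT N u w D₀ κ B ν)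
    (ET N w D₀ κ s)
  rw [coe_mapRingHom] at h1
  rw [PT, h1, Qt_fix, GT_fix u w D₀ κ B ν σ hν, ET_fix w D₀ κ s σ hs]

/-- The value of the lift at a point. -/
theorem ev_PT (Θ : K[X][X]) (u w D₀ : K[X]) (d κ B : ℕ) {m : ℕ} (ν : Fin m → N) (s : N)
    (hΘ : Θ.Monic) (hd : Θ.natDegree = d) (hd0 : 0 < d) {a b : N}
    (h : Pt8 Θ u w (D₀ ^ κ) B ν s a b) :
    ((PT N Θ u w D₀ d κ B ν s).map (rs N)).eval a = 0 := by
  obtain ⟨h1, h2, h3⟩ := h
  have h4 := hm_eval ((evalRingHom a).comp (mapRingHom (rs N))) (Qt N Θ) d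
    (by rw [(Qt_monic hΘ).2, hd]) (GT N u w D₀ κ B ν) (ET N w D₀ κ s) (b ^ 8) (by
      change eval a ((GT N u w D₀ κ B ν).map (rs N)) = eval a ((ET N w D₀ κ s).map (rs N)) * b ^ 8
      rw [GT_map, h3, ET_map]
      simp only [eval_mul, eval_C, eval_pow, eval_map_algebraMap]
      ring)
  rw [Qt_map, pw8_eval, h1, zero_pow (by norm_num), mul_zero] at h4
  exact h4

/-- The residue at a point. -/
theorem rs_eval (f : (WN N)[X]) (y : WN N) : rs N (f.eval y) = (f.map (rs N)).eval (rs N y) := by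
  rw [eval_map]
  exact (eval₂_at_apply (rs N) y).symm

theorem PT_deg (Θ : K[X][X]) (u w D₀ : K[X]) (d κ B : ℕ) {m : ℕ} (ν : Fin m → N) (s : N)
    (hΘ : Θ.Monic) (hd : Θ.natDegree = d) (hd0 : 0 < d) (hD : D₀ ≠ 0)
    (hw : w.Monic) (hu : u.natDegree ≤ 1) (hB : BB Θ B m) :
    (PT N Θ u w D₀ d κ B ν s).natDegree = np w (D₀ ^ κ) d B ∧
      IsUnit (PT N Θ u w D₀ d κ B ν s).leadingCoeff := by
  have hD' : tl N D₀ ^ κ ≠ 0 := by
    refine pow_ne_zero _ fun h0 => ?_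
    have h1 := tl_lc N hD
    rw [h0, leadingCoeff_zero] at h1
    exact not_isUnit_zero h1
  have hw' : (tl N w).Monic := by
    rw [Monic, leadingCoeff, tl_coeff, tl_natDegree]
    have h1 : w.coeff w.natDegree = 1 := hw
    rw [h1, map_one, map_one]
  have hnd : (tl N D₀ ^ κ).natDegree = (D₀ ^ κ).natDegree := by
    rw [natDegree_pow, natDegree_pow, tl_natDegree]
  obtain ⟨h1, h2⟩ := Gt_deg (m := m) hD' hw' (u := tl N u) (by rw [tl_natDegree]; exact hu) hB.one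
    hB.m (fun i => WittVector.teichmuller 2 (ν i))
  rw [hnd, tl_natDegree] at h1
  have h3 := Et_deg (tl N w) (tl N D₀ ^ κ) (WittVector.teichmuller 2 s)
  rw [hnd, tl_natDegree] at h3
  obtain ⟨h5, h6⟩ := hm_deg (Qt_monic (N := N) hΘ).1 ((Qt_monic hΘ).2.trans hd) hd0
    (GT N u w D₀ κ B ν) (ET N w D₀ κ s) (c := 8 * (B - 1)) (fun k => by
      rw [Qt_coeff]
      refine natDegree_pow_le.trans (Nat.mul_le_mul_left 8 ?_)
      rw [tl_natDegree]
      have := hB.coeff k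
      omega) (by
      change (Et _ _ _).natDegree + _ < (Gt _ _ _ _ _).natDegree
      rw [h1]
      have := hB.one
      omega)
  refine ⟨?_, ?_⟩
  · rw [PT, h5, GT, h1]
    rfl
  · rw [PT, h6, GT, h2, leadingCoeff_pow]
    exact (((tl_lc N hD).pow _).pow _).pow _

end cfg

end Pool.Agent.L7h25.TP
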