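import Mathlib
import Pool.Agent.L7h25.TP.Cfg

/-!
The discriminant modulo 8: abstract part (project TP).
-/

set_option autoImplicit false
set_option linter.unusedSectionVars false

namespace Pool.Agent.L7h25.TP

open Polynomial

section ring

variable {R : Type} [CommRing R]

/-- Evaluation of a polynomial in two variables. -/
noncomputable def ev2 (y Y : R) : R[X][X] →+* R :=
  (evalRingHom Y).comp (mapRingHom (evalRingHom y))

theorem ev2_C (y Y : R) (f : R[X]) : ev2 y Y (C f) = f.eval y := by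
  simp [ev2]

theorem ev2_def (y Y : R) (F : R[X][X]) : ev2 y Y F = (F.map (evalRingHom y)).eval Y := rfl

theorem prod_mod {ι : Type} (S : Finset ι) (a b : ι → R) (m : R)
    (h : ∀ l ∈ S, ∃ c, a l = b l + m * c) : ∃ z, ∏ l ∈ S, a l = (∏ l ∈ S, b l) + m * z := by
  classical
  induction S using Finset.induction_on with
  | empty => exact ⟨0, by simp⟩
  | insert i S hi ih =>
    obtain ⟨z, hz⟩ := ih fun l hl => h l (Finset.mem_insert_of_mem hl)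
    obtain ⟨c, hc⟩ := h i (Finset.mem_insert_self i S)
    rw [Finset.prod_insert hi, Finset.prod_insert hi, hz, hc]
    exact ⟨b i * z + c * (∏ l ∈ S, b l) + m * c * z, by ring⟩

variable [IsDomain R]

theorem sum_div (hLAG : S_LAG) (n d : ℕ) (Q : R[X][X]) (G E : R[X]) (lc lc' : R)
    (y Y δ δ' p' t : Fin n → R) (hY : ∀ l, G.eval (y l) = E.eval (y l) * Y l)
    (hp : ∀ l, p' l * ∏ j ∈ Finset.univ.erase l, (y l - y j) = 1)
    (hder : ∀ l, lc * ∏ j ∈ Finset.univ.erase l, (y l - y j) =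
      δ l * E.eval (y l) ^ (d - 1) * ev2 (y l) (Y l) (derivative Q) + 8 * t l)
    (hδ : ∀ l, δ l * δ' l = 1) (hlc : lc * lc' = 1) (F r : R[X][X]) (hr : r.natDegree ≤ d - 1)
    (hr' : ∀ l, ev2 (y l) (Y l) r = ev2 (y l) (Y l) F * ev2 (y l) (Y l) (derivative Q))
    (hdeg : (hm r (d - 1) G E).natDegree + 1 < n) :
    (8 : R) ∣ ∑ l, ev2 (y l) (Y l) F * δ' l := by
  have h1 := hLAG R n y p' (hm r (d - 1) G E) hp hdeg
  have h2 : ∀ l, (hm r (d - 1) G E).eval (y l) =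
      E.eval (y l) ^ (d - 1) * (ev2 (y l) (Y l) F * ev2 (y l) (Y l) (derivative Q)) := by
    intro l
    have h3 := hm_eval (evalRingHom (y l)) r (d - 1) hr G E (Y l) (hY l)
    rw [coe_evalRingHom] at h3
    rw [h3, ← hr' l]
    rfl
  refine ⟨∑ l, lc' * ev2 (y l) (Y l) F * δ' l * t l * p' l, ?_⟩
  have h4 : ∀ l, ev2 (y l) (Y l) F * δ' l = lc' * ((hm r (d - 1) G E).eval (y l) * p' l) +
      8 * (lc' * ev2 (y l) (Y l) F * δ' l * t l * p' l) := by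
    intro l
    rw [h2 l]
    have e1 := hp l
    have e2 := hder l
    have e3 := hδ l
    set q := ∏ j ∈ Finset.univ.erase l, (y l - y j)
    set T := ev2 (y l) (Y l) (derivative Q)
    set f := ev2 (y l) (Y l) F
    set e := E.eval (y l) ^ (d - 1)
    -- `e T = δ' (lc q - 8 t)`
    have e4 : e * T = δ' l * (lc * q - 8 * t l) := by
      rw [e2]
      linear_combination (-(e * T)) * e3
    have e5 : lc' * (e * (f * T) * p' l) = lc' * f * p' l * (e * T) := by ring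
    rw [e5, e4]
    linear_combination (-(f * δ' l)) * hlc - (lc' * f * δ' l * lc) * e1
  rw [Finset.sum_congr rfl fun l _ => h4 l, Finset.sum_add_distrib, ← Finset.mul_sum, h1, mul_zero,
    zero_add, Finset.mul_sum]

theorem core8 [CharZero R] (hNRM : S_NRM) (n d a b κ : ℕ) (S : R)
    (δ δ' T v0 v1 ξ t pr : Fin n → R) (hδ : ∀ l, δ l * δ' l = 1)
    (hv0 : ∀ l, v0 l ^ 8 = δ l ^ (8 * a) * T l + 2 * ξ l)
    (hv1 : ∀ l, ∃ c, v0 l * v1 l = δ l ^ b + 2 * c)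
    (hs1 : (4 : R) ∣ ∑ l, -(ξ l * v1 l ^ 8 * δ' l ^ (8 * b)))
    (hs2 : (4 : R) ∣ ∑ l, (-(ξ l * v1 l ^ 8 * δ' l ^ (8 * b))) ^ 2)
    (hpr : ∀ l, pr l = δ l ^ (8 * κ) * (S * δ l ^ (8 * κ)) ^ (d - 1) * T l + 8 * t l) :
    ∃ z, ∏ l, (pr l * δ l ^ (8 * a)) =
      (∏ l, (δ l ^ (8 * κ) * (S * δ l ^ (8 * κ)) ^ (d - 1) * v0 l ^ 8)) + 8 * z := by
  obtain ⟨z1, hz1⟩ := hNRM R n _ hs1 hs2
  have h1 : ∀ l ∈ Finset.univ, ∃ c, pr l * δ l ^ (8 * a) =
      (δ l ^ (8 * κ) * (S * δ l ^ (8 * κ)) ^ (d - 1) * v0 l ^ 8) *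
        (1 + 2 * -(ξ l * v1 l ^ 8 * δ' l ^ (8 * b))) + 8 * c := by
    intro l _
    obtain ⟨ζ, hζ⟩ := pow_eight (hv1 l)
    have e1 : v0 l ^ 8 * v1 l ^ 8 * δ' l ^ (8 * b) = 1 + 16 * (ζ * δ' l ^ (8 * b)) := by
      rw [← mul_pow, hζ, ← pow_mul, mul_comm b 8, add_mul, ← mul_pow, hδ l, one_pow]
      ring
    have e2 : δ l ^ (8 * a) * T l = v0 l ^ 8 * (1 + 2 * -(ξ l * v1 l ^ 8 * δ' l ^ (8 * b))) +
        32 * (ξ l * (ζ * δ' l ^ (8 * b))) := by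
      have e3 := hv0 l
      linear_combination (2 * ξ l) * e1 - e3
    refine ⟨δ l ^ (8 * κ) * (S * δ l ^ (8 * κ)) ^ (d - 1) * (4 * (ξ l * (ζ * δ' l ^ (8 * b)))) +
      t l * δ l ^ (8 * a), ?_⟩
    rw [hpr l]
    linear_combination (δ l ^ (8 * κ) * (S * δ l ^ (8 * κ)) ^ (d - 1)) * e2
  obtain ⟨z2, hz2⟩ := prod_mod Finset.univ _ _ (8 : R) h1
  rw [hz2, Finset.prod_mul_distrib]
  exact ⟨(∏ l, (δ l ^ (8 * κ) * (S * δ l ^ (8 * κ)) ^ (d - 1) * v0 l ^ 8)) * z1 + z2, by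
    linear_combination (∏ l, (δ l ^ (8 * κ) * (S * δ l ^ (8 * κ)) ^ (d - 1) * v0 l ^ 8)) * hz1⟩

end ring

end Pool.Agent.L7h25.TP
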