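import Mathlib
import Pool.Agent.L7h25.TP.Abs

/-!
The monodromy group is even (project TP).
-/

set_option autoImplicit false
set_option linter.unusedSectionVars false

namespace Pool.Agent.L7h25.TP

open Polynomial Pool.Agent.Y140.AW

theorem ev2_map {R R' : Type} [CommRing R] [CommRing R'] (f : R →+* R') (y Y : R) (F : R[X][X]) :
    f (ev2 y Y F) = ev2 (f y) (f Y) (F.map (mapRingHom f)) := by
  rw [ev2_def, ev2_def, ← eval₂_at_apply, ← eval_map, Polynomial.map_map, Polynomial.map_map]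
  congr 2
  apply RingHom.ext
  intro g
  change f (g.eval y) = (g.map f).eval (f y)
  rw [eval_map, eval₂_at_apply]

theorem tl_X {K : Type} (N : Type) [Field K] [Field N] [CharP N 2] [Algebra K N] :
    tl N (X : K[X]) = X := by
  ext1 k
  rw [tl_coeff, coeff_X, coeff_X]
  split_ifs
  · rw [map_one, map_one]
  · rw [map_zero]
    exact WittVector.teichmuller_zero 2 (R := N)

theorem Qt_map' {K : Type} (N : Type) [Field K] [Field N] [CharP N 2] [Algebra K N]
    (Θ : K[X][X]) :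
    (Qt N Θ).map (mapRingHom (rs N)) = (pw8 Θ).map (mapRingHom (algebraMap K N)) := by
  rw [Qt, pw8_map, tl2_map, pw8_map]

theorem lift0 {K N : Type} [Field K] [Field N] [CharP N 2] [IsAlgClosed N] [Algebra K N]
    (Θ V₀ S₀ : K[X][X]) (D₀ : K[X]) (a : ℕ)
    (h : V₀ ^ 8 - C D₀ ^ (8 * a) * derivative (pw8 Θ) = pw8 Θ * S₀) :
    ∃ ξ : (WN N)[X][X], tl2 N V₀ ^ 8 =
      C (tl N D₀) ^ (8 * a) * derivative (Qt N Θ) + Qt N Θ * tl2 N S₀ + 2 * ξ := by
  obtain ⟨ξ, hξ⟩ := exists_two_poly2 (N := N) (F := tl2 N V₀ ^ 8 -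
    C (tl N D₀) ^ (8 * a) * derivative (Qt N Θ) - Qt N Θ * tl2 N S₀) (by
      have h1 := congrArg (fun P : K[X][X] => P.map (mapRingHom (algebraMap K N))) h
      simp only [Polynomial.map_sub, Polynomial.map_mul, Polynomial.map_pow, map_C,
        coe_mapRingHom, ← derivative_map] at h1
      simp only [Polynomial.map_sub, Polynomial.map_mul, Polynomial.map_pow, map_C, tl2_map,
        coe_mapRingHom, tl_map, ← derivative_map, Qt_map']
      rw [h1, sub_self])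
  exact ⟨ξ, by rw [← hξ]; ring⟩

theorem lift1 {K N : Type} [Field K] [Field N] [CharP N 2] [IsAlgClosed N] [Algebra K N]
    (Θ V₀ V₁ S₁ : K[X][X]) (D₀ : K[X]) (b : ℕ)
    (h : V₀ * V₁ - C D₀ ^ b = pw8 Θ * S₁) :
    ∃ ξ : (WN N)[X][X], tl2 N V₀ * tl2 N V₁ =
      C (tl N D₀) ^ b + Qt N Θ * tl2 N S₁ + 2 * ξ := by
  obtain ⟨ξ, hξ⟩ := exists_two_poly2 (N := N) (F := tl2 N V₀ * tl2 N V₁ -
    C (tl N D₀) ^ b - Qt N Θ * tl2 N S₁) (by
      have h1 := congrArg (fun P : K[X][X] => P.map (mapRingHom (algebraMap K N))) h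
      simp only [Polynomial.map_sub, Polynomial.map_mul, Polynomial.map_pow, map_C,
        coe_mapRingHom] at h1
      simp only [Polynomial.map_sub, Polynomial.map_mul, Polynomial.map_pow, map_C, tl2_map,
        coe_mapRingHom, tl_map, Qt_map']
      rw [h1, sub_self])
  exact ⟨ξ, by rw [← hξ]; ring⟩

theorem charZero_WN (N : Type) [Field N] [CharP N 2] : CharZero (WN N) := by
  refine charZero_of_inj_zero fun n hn => ?_
  by_contra h0
  obtain ⟨k, m, hm, rfl⟩ := Nat.exists_eq_two_pow_mul_odd h0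
  rw [Nat.cast_mul, Nat.cast_pow] at hn
  rcases mul_eq_zero.1 hn with h1 | h1
  · have h2 := eq_zero_of_pow_eq_zero h1
    exact WittVector.p_nonzero 2 N (by exact_mod_cast h2)
  · have h2 := congrArg (rs N) h1
    rw [map_natCast, map_zero] at h2
    obtain ⟨j, rfl⟩ := hm
    rw [Nat.cast_add, Nat.cast_mul, Nat.cast_one] at h2
    have h3 : ((2 : ℕ) : N) = 0 := CharP.cast_eq_zero N 2
    rw [h3, zero_mul, zero_add] at h2
    exact one_ne_zero h2

section main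

variable {K N : Type} [Field K] [CharP K 2] [Field N] [CharP N 2] [IsAlgClosed N] [Algebra K N]

/-- The lifted points. -/
theorem exists_lift (hHEN : S_HEN) (Θ : K[X][X]) (D₀ : K[X]) (d κ B m : ℕ) (hDD : DD Θ D₀ d)
    (hBB : BB Θ B m) (ν : Fin m → N) (s : N) (hs : s ≠ 0)
    (x θ : Fin (np (1 : K[X]) (D₀ ^ κ) d B) → N) (hx : Function.Injective x)
    (hpt : ∀ l, Pt8 Θ X 1 (D₀ ^ κ) B ν s (x l) (θ l)) (hκ : 0 < κ) :
    ∃ (lc lc' S S' : WN N) (y Y δ δ' p' t : Fin (np (1 : K[X]) (D₀ ^ κ) d B) → WN N),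
      lc = (PT N Θ X 1 D₀ d κ B ν s).leadingCoeff ∧ lc * lc' = 1 ∧
      S = WittVector.teichmuller 2 s ∧ S * S' = 1 ∧
      (∀ l, rs N (y l) = x l) ∧
      (∀ z, (PT N Θ X 1 D₀ d κ B ν s).eval z = 0 → ∃ l, z = y l) ∧
      (∀ l, (PT N Θ X 1 D₀ d κ B ν s).eval (y l) = 0) ∧
      (∀ l, δ l = (tl N D₀).eval (y l)) ∧ (∀ l, δ l * δ' l = 1) ∧
      (∀ l, (ET N 1 D₀ κ s).eval (y l) = S * δ l ^ (8 * κ)) ∧
      (∀ l, (GT N X 1 D₀ κ B ν).eval (y l) = (ET N 1 D₀ κ s).eval (y l) * Y l) ∧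
      (∀ l, ev2 (y l) (Y l) (Qt N Θ) = 0) ∧
      (∀ l, p' l * ∏ j ∈ Finset.univ.erase l, (y l - y j) = 1) ∧
      (∀ l, lc * ∏ j ∈ Finset.univ.erase l, (y l - y j) =
        δ l ^ (8 * κ) * (ET N 1 D₀ κ s).eval (y l) ^ (d - 1) *
          ev2 (y l) (Y l) (derivative (Qt N Θ)) + 8 * t l) := by
  obtain ⟨hdeg, hlu⟩ := PT_deg (N := N) Θ X 1 D₀ d κ B ν s hDD.monic hDD.deg hDD.pos hDD.ne
    monic_one (by rw [natDegree_X]) hBB
  have hQd : (Qt N Θ).natDegree ≤ d := by rw [(Qt_monic hDD.monic).2, hDD.deg]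
  set P := PT N Θ X 1 D₀ d κ B ν s with hP
  obtain ⟨y, hy1, hy2, -, hy4, hy5⟩ := hHEN N _ P x hdeg hlu hx
    (fun l => ev_PT Θ X 1 D₀ d κ B ν s hDD.monic hDD.deg hDD.pos (hpt l))
  obtain ⟨lc', hlc'⟩ := hlu.exists_right_inv
  have hS : WittVector.teichmuller 2 s * WittVector.teichmuller 2 s⁻¹ = (1 : WN N) := by
    rw [← map_mul, mul_inv_cancel₀ hs, map_one]
  have hδu : ∀ l, IsUnit ((tl N D₀).eval (y l)) := fun l => by
    apply isUnit_of_rs
    rw [rs_eval, tl_map, hy1 l, eval_map_algebraMap]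
    have h1 := (hpt l).2.1
    rw [map_pow] at h1
    exact fun h0 => h1 (by rw [h0, zero_pow hκ.ne'])
  choose δ' hδ' using fun l => (hδu l).exists_right_inv
  have hE : ∀ l, (ET N 1 D₀ κ s).eval (y l) =
      WittVector.teichmuller 2 s * (tl N D₀).eval (y l) ^ (8 * κ) := fun l => by
    rw [ET, Et, tl_one, one_mul, eval_mul, eval_C, eval_pow, eval_pow, ← pow_mul, mul_comm κ 8]
  have hEu : ∀ l, IsUnit ((ET N 1 D₀ κ s).eval (y l)) := fun l => by
    rw [hE l]
    exact (IsUnit.of_mul_eq_one _ hS).mul ((hδu l).pow _)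
  have hY : ∀ l, (GT N X 1 D₀ κ B ν).eval (y l) = (ET N 1 D₀ κ s).eval (y l) *
      ((GT N X 1 D₀ κ B ν).eval (y l) * (WittVector.teichmuller 2 s⁻¹ * δ' l ^ (8 * κ))) :=
    fun l => by
      have e1 : (tl N D₀).eval (y l) ^ (8 * κ) * δ' l ^ (8 * κ) = 1 := by
        rw [← mul_pow, hδ' l, one_pow]
      rw [hE l]
      linear_combination (-((GT N X 1 D₀ κ B ν).eval (y l) * (tl N D₀).eval (y l) ^ (8 * κ) *
        δ' l ^ (8 * κ))) * hS - ((GT N X 1 D₀ κ B ν).eval (y l)) * e1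
  have hQ0 : ∀ l, ev2 (y l) ((GT N X 1 D₀ κ B ν).eval (y l) *
      (WittVector.teichmuller 2 s⁻¹ * δ' l ^ (8 * κ))) (Qt N Θ) = 0 := fun l => by
    have h1 := hm_eval (evalRingHom (y l)) (Qt N Θ) d hQd (GT N X 1 D₀ κ B ν) (ET N 1 D₀ κ s) _
      (hY l)
    have h2 := hy2 l
    rw [hP, PT] at h2
    rw [coe_evalRingHom, h2] at h1
    have h3 := (mul_eq_zero.1 h1.symm).resolve_left ((hEu l).pow d).ne_zero
    exact h3
  have hpu : ∀ l, IsUnit (∏ j ∈ Finset.univ.erase l, (y l - y j)) := fun l => by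
    apply isUnit_of_rs
    rw [map_prod, Finset.prod_ne_zero_iff]
    intro j hj
    rw [map_sub, hy1, hy1, sub_ne_zero]
    exact fun h => (Finset.ne_of_mem_erase hj) (hx h).symm
  choose p' hp' using fun l => (hpu l).exists_left_inv
  have hder : ∀ l, ∃ t, P.leadingCoeff * ∏ j ∈ Finset.univ.erase l, (y l - y j) =
      (tl N D₀).eval (y l) ^ (8 * κ) * (ET N 1 D₀ κ s).eval (y l) ^ (d - 1) *
        ev2 (y l) ((GT N X 1 D₀ κ B ν).eval (y l) *
          (WittVector.teichmuller 2 s⁻¹ * δ' l ^ (8 * κ))) (derivative (Qt N Θ)) + 8 * t := by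
    intro l
    have h0 : tl N (1 : K[X]) = 1 := tl_one N
    have h0' : tl N (X : K[X]) = X := tl_X N
    have hG := Gt_der (tl N (X : K[X])) (tl N (1 : K[X])) (tl N D₀ ^ κ) B
      (fun i => WittVector.teichmuller 2 (ν i))
    have hE' := Et_der (tl N (1 : K[X])) (tl N D₀ ^ κ) (WittVector.teichmuller 2 s)
    have h1 := hm_der (Qt N Θ) d hDD.pos (GT N X 1 D₀ κ B ν) (ET N 1 D₀ κ s) (tl N (1 : K[X]))
      (tl N D₀ ^ κ) 1 (fun k => by
        rw [Qt_coeff]
        exact der_eight _) (by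
        have e1 : derivative (tl N (X : K[X])) * tl N (1 : K[X]) -
            tl N (X : K[X]) * derivative (tl N (1 : K[X])) = 1 := by
          rw [h0, h0', derivative_X, derivative_one]
          ring
        rw [e1] at hG
        exact hG) hE'
    obtain ⟨t, ht⟩ := h1
    rw [h0, derivative_one] at ht
    have h2 := congrArg (fun F : (WN N)[X] => F.eval (y l)) ht
    have h3 := hm_eval (evalRingHom (y l)) (derivative (Qt N Θ)) (d - 1)
      ((natDegree_derivative_le _).trans (Nat.sub_le_sub_right hQd 1)) (GT N X 1 D₀ κ B ν)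
      (ET N 1 D₀ κ s) _ (hY l)
    rw [coe_evalRingHom] at h3
    have h4 : (derivative P).eval (y l) = P.leadingCoeff *
      ∏ j ∈ Finset.univ.erase l, (y l - y j) := hy4 l
    have h5 : eval (y l) (8 : (WN N)[X]) = 8 := by
      rw [show (8 : (WN N)[X]) = C 8 from (map_ofNat C 8).symm, eval_C]
    simp only [eval_sub, eval_mul, eval_add, eval_one, one_mul, mul_zero, zero_mul, add_zero,
      eval_pow, eval_zero] at h2
    rw [h3, h5] at h2
    refine ⟨t.eval (y l), ?_⟩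
    rw [← h4, hP, PT]
    rw [sub_eq_iff_eq_add] at h2
    rw [h2, ev2_def, ← pow_mul, mul_comm κ 8]
    ring
  choose t ht using hder
  exact ⟨P.leadingCoeff, lc', WittVector.teichmuller 2 s, WittVector.teichmuller 2 s⁻¹, y, _,
    fun l => (tl N D₀).eval (y l), δ', p', t, rfl, hlc', rfl, hS, hy1, hy5, hy2, fun _ => rfl, hδ',
    hE, hY, hQ0, hp', ht⟩

end main

end Pool.Agent.L7h25.TP
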