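import Mathlib
import Pool.Agent.L7h25.TP.Stm
import Pool.Agent.N70.EP.Stm

/-!
Statements (NOT results) of the second part of the project TP (helper25, problem MP_7f581e_nt):
alternating fibre powers in characteristic 2, all characters. The pair `(u, w)` is `(1, X - c)`, the
number of points is `d (8 (B + deg D) + 1)`.
-/

set_option autoImplicit false

namespace Pool.Agent.L7h25.TP

open Polynomial Pool.Agent.Y140.AW
open Pool.Agent.N70.EP (SgnIndex)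

/-- SPZ: the action of an automorphism `σ` of `N` over `K` on the roots of `Θ(c, Z)`. (Proof: let `A`
be the integral closure of `K[t]` in `Z` and `𝔮` a maximal ideal of `A` over `t - c`. There is an
embedding of `A / 𝔮` in `N` over `L`: `σ` induces an automorphism of `A / 𝔮` over `K` because `A / 𝔮`
is normal over `K`, and it comes from an element `g` of the decomposition group of `𝔮`
(`Ideal.Quotient.stabilizerHom_surjective`), `π g = h`. If `g i` are representatives of the cosets of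
`P`, then `Θ = ∏ (Z - g_i θ)` and the roots of `Θ(c, Z)` are the residues of the `g_i θ`, they are
different because `D₀(c) ≠ 0`.) -/
def S_SPZ : Prop :=
  ∀ (K L Z N : Type) [Field K] [Field L] [Algebra K L] [FiniteDimensional K L] [IsGalois K L]
    [Field Z] [Algebra (RatFunc K) Z] [Algebra L Z] [Algebra K Z] [IsScalarTower K (RatFunc K) Z]
    [IsScalarTower K L Z] [FiniteDimensional (RatFunc K) Z] [IsGalois (RatFunc K) Z]
    [Field N] [IsAlgClosed N] [Algebra K N] [Algebra L N] [IsScalarTower K L N]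
    (π : (Z ≃ₐ[RatFunc K] Z) →* (L ≃ₐ[K] L)),
    (∀ (σ : Z ≃ₐ[RatFunc K] Z) (x : L), σ (algebraMap L Z x) = algebraMap L Z (π σ x)) →
    ∀ (P : Subgroup (Z ≃ₐ[RatFunc K] Z)) (d : ℕ) (χ : (L ≃ₐ[K] L) →* ℤˣ),
    SgnIndex (Z ≃ₐ[RatFunc K] Z) P d (χ.comp π) →
    ∀ (θ : Z) (Θ : K[X][X]) (D₀ : K[X]), (∀ σ : Z ≃ₐ[RatFunc K] Z, σ θ = θ ↔ σ ∈ P) →
      Θ.map (algebraMap K[X] (RatFunc K)) = minpoly (RatFunc K) θ → DD Θ D₀ d →
      ∀ c : K, D₀.eval c ≠ 0 → ∀ z : Fin d → N, Function.Injective z →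
        (∀ i, (tA Θ (algebraMap K N c)).eval (z i) = 0) →
        ∀ (σ : N ≃ₐ[K] N) (h : L ≃ₐ[K] L),
          (∀ b : L, σ (algebraMap L N b) = algebraMap L N (h b)) →
          ∀ τ : Equiv.Perm (Fin d), (∀ i, σ (z i) = z (τ i)) → Equiv.Perm.sign τ = χ h

/-- LAGB: Lagrange with one more point `ρ` (from `S_LAG` with `n + 1` points). -/
def S_LAGB : Prop :=
  ∀ (R : Type) [CommRing R] [IsDomain R] (n : ℕ) (y v w' : Fin n → R) (ρ : R) (F : R[X]),
    (∀ l, v l * ∏ j ∈ Finset.univ.erase l, (y l - y j) = 1) → (∀ l, w' l * (y l - ρ) = 1) →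
    F.natDegree < n → (∑ l, F.eval (y l) * v l * w' l) * ∏ l, (ρ - y l) = -F.eval ρ

/-- LAGC: Lagrange, the leading coefficient. -/
def S_LAGC : Prop :=
  ∀ (R : Type) [CommRing R] [IsDomain R] (d : ℕ) (z v : Fin d → R) (r : R[X]),
    (∀ i, v i * ∏ j ∈ Finset.univ.erase i, (z i - z j) = 1) → 0 < d → r.natDegree ≤ d - 1 →
    ∑ i, r.eval (z i) * v i = r.coeff (d - 1)

/-- NRMB: two products `∏ (1 + 2 ψ)`, see `S_NRM`. -/
def S_NRMB : Prop :=
  ∀ (R : Type) [CommRing R] [IsDomain R] [CharZero R] (n n' : ℕ) (ψ : Fin n → R)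
    (ψ' : Fin n' → R), (8 : R) ∣ ∑ l, ψ l - ∑ l, ψ' l → (8 : R) ∣ ∑ l, ψ l ^ 2 - ∑ l, ψ' l ^ 2 →
    (8 : R) ∣ ∏ l, (1 + 2 * ψ l) - ∏ l, (1 + 2 * ψ' l)

/-- PARB: the sign of the monodromy in the case `(u, w) = (1, X - c)`. -/
def S_PARB : Prop :=
  ∀ (K N : Type) [Field K] [CharP K 2] [Field N] [IsAlgClosed N] [Algebra K N]
    (Θ : K[X][X]) (D₀ : K[X]) (d : ℕ) (c : K), DD Θ D₀ d → d % 4 = 2 → D₀.eval c ≠ 0 →
    ∃ κ B₀ : ℕ, 0 < κ ∧
    ∀ (B m : ℕ), B₀ ≤ B → m ≤ B → ∀ (ν : Fin m → N) (s : N), s ≠ 0 →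
    ∀ x θ : Fin (np (X - C c) (D₀ ^ κ) d B) → N, Function.Injective x →
      (∀ l, Pt8 Θ 1 (X - C c) (D₀ ^ κ) B ν s (x l) (θ l)) →
      ∀ z : Fin d → N, Function.Injective z →
        (∀ i, (tA Θ (algebraMap K N c)).eval (z i) = 0) →
      ∀ (σ : N ≃ₐ[K] N) (τ : Equiv.Perm (Fin (np (X - C c) (D₀ ^ κ) d B)))
        (τ₀ : Equiv.Perm (Fin d)), σ s = s →
        (∀ i, σ (ν i) = ν i) → (∀ l, σ (x l) = x (τ l)) → (∀ l, σ (θ l) = θ (τ l)) →
        (∀ i, σ (z i) = z (τ₀ i)) →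
        Equiv.Perm.sign τ = Equiv.Perm.sign τ₀

end Pool.Agent.L7h25.TP
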