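import Mathlib
import Pool.Agent.L7h25.TP.Para
import Pool.Agent.L7h25.TP.StmB

/-!
The discriminant modulo 8, second case: abstract part (project TP).
-/

set_option autoImplicit false
set_option linter.unusedSectionVars false

namespace Pool.Agent.L7h25.TP

open Polynomial

section ring

variable {R : Type} [CommRing R] [IsDomain R]

/-- The homogenization at a zero of the second argument. -/
theorem hm_zero (r : R[X][X]) (e : ℕ) (G E : R[X]) (ρ : R) (hE : E.eval ρ = 0) :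
    (hm r e G E).eval ρ = (r.coeff e).eval ρ * G.eval ρ ^ e := by
  unfold hm
  rw [eval_finsetSum, Finset.sum_range_succ, Finset.sum_eq_zero, zero_add, Nat.sub_self, pow_zero,
    mul_one, eval_mul, eval_pow]
  intro k hk
  have hk' := Finset.mem_range.1 hk
  rw [eval_mul, eval_pow, hE, zero_pow (by omega), mul_zero]

theorem sum_divB (hLAGB : S_LAGB) (hLAGC : S_LAGC) (n d : ℕ) (hd : 0 < d) (Q : R[X][X])
    (G E : R[X]) (lc lc' : R)
    (y Y δ δ' v w' t : Fin n → R) (ρ g g' : R) (z v0 : Fin d → R)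
    (hY : ∀ l, G.eval (y l) = E.eval (y l) * Y l)
    (hv : ∀ l, v l * ∏ j ∈ Finset.univ.erase l, (y l - y j) = 1)
    (hw' : ∀ l, w' l * (y l - ρ) = 1)
    (hder : ∀ l, lc * (∏ j ∈ Finset.univ.erase l, (y l - y j)) * (y l - ρ) =
      -(δ l * E.eval (y l) ^ (d - 1) * ev2 (y l) (Y l) (derivative Q)) + 8 * t l)
    (hδ : ∀ l, δ l * δ' l = 1) (hlc : lc * lc' = 1) (hE : E.eval ρ = 0)
    (hP : lc * ∏ l, (ρ - y l) = g ^ d) (hg : G.eval ρ = g) (hgg : g * g' = 1)
    (hv0 : ∀ i, v0 i * ∏ j ∈ Finset.univ.erase i, (z i - z j) = 1)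
    (hT0 : ∀ i, ev2 ρ (z i) (derivative Q) = ∏ j ∈ Finset.univ.erase i, (z i - z j))
    (F r : R[X][X]) (hr : r.natDegree ≤ d - 1)
    (hr' : ∀ l, ev2 (y l) (Y l) r = ev2 (y l) (Y l) F * ev2 (y l) (Y l) (derivative Q))
    (hr0 : ∀ i, ev2 ρ (z i) r = ev2 ρ (z i) F * ev2 ρ (z i) (derivative Q))
    (hdeg : (hm r (d - 1) G E).natDegree < n) :
    (8 : R) ∣ ∑ l, ev2 (y l) (Y l) F * δ' l - ∑ i, ev2 ρ (z i) F * g' := by
  obtain ⟨d', rfl⟩ : ∃ d', d = d' + 1 := ⟨d - 1, by omega⟩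
  have h1 := hLAGB R n y v w' ρ (hm r (d' + 1 - 1) G E) hv hw' hdeg
  have h2 : ∀ l, (hm r (d' + 1 - 1) G E).eval (y l) = E.eval (y l) ^ (d' + 1 - 1) *
      (ev2 (y l) (Y l) F * ev2 (y l) (Y l) (derivative Q)) := by
    intro l
    have h3 := hm_eval (evalRingHom (y l)) r (d' + 1 - 1) hr G E (Y l) (hY l)
    rw [coe_evalRingHom] at h3
    rw [h3, ← hr' l]
    rfl
  have h4 : ∀ l, (hm r (d' + 1 - 1) G E).eval (y l) * v l * w' l =
      -(lc * (ev2 (y l) (Y l) F * δ' l)) + 8 * (ev2 (y l) (Y l) F * δ' l * t l * v l * w' l) := by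
    intro l
    rw [h2 l]
    have e1 := hv l
    have e2 := hder l
    have e3 := hδ l
    have e6 := hw' l
    set q := ∏ j ∈ Finset.univ.erase l, (y l - y j)
    set T := ev2 (y l) (Y l) (derivative Q)
    set f := ev2 (y l) (Y l) F
    set e := E.eval (y l) ^ (d' + 1 - 1)
    -- `e T = - δ' (lc q w - 8 t)`
    have e4 : e * T = -(δ' l * (lc * q * (y l - ρ) - 8 * t l)) := by
      rw [e2]
      linear_combination (-(e * T)) * e3
    have e5 : e * (f * T) * v l * w' l = f * v l * w' l * (e * T) := by ring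
    rw [e5, e4]
    linear_combination (-(f * δ' l * lc * (w' l * (y l - ρ)))) * e1 - (f * δ' l * lc) * e6
  have h5 : ∑ l, (hm r (d' + 1 - 1) G E).eval (y l) * v l * w' l =
      -(lc * ∑ l, ev2 (y l) (Y l) F * δ' l) +
        8 * ∑ l, ev2 (y l) (Y l) F * δ' l * t l * v l * w' l := by
    rw [Finset.sum_congr rfl fun l _ => h4 l, Finset.sum_add_distrib, Finset.sum_neg_distrib,
      ← Finset.mul_sum, ← Finset.mul_sum]
  have h6 := hm_zero r (d' + 1 - 1) G E ρ hE
  rw [h5, h6, hg] at h1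
  have h7 : ∑ i, ev2 ρ (z i) F = (r.coeff (d' + 1 - 1)).eval ρ := by
    have h8 := hLAGC R (d' + 1) z v0 (r.map (evalRingHom ρ)) hv0 (by omega)
      (natDegree_map_le.trans hr)
    rw [coeff_map, coe_evalRingHom] at h8
    rw [← h8]
    refine Finset.sum_congr rfl fun i _ => ?_
    have h9 : (r.map (evalRingHom ρ)).eval (z i) = ev2 ρ (z i) r := rfl
    rw [h9, hr0 i, hT0 i, mul_assoc, mul_comm _ (v0 i), hv0 i, mul_one]
  rw [← Finset.sum_mul, h7]
  simp only [Nat.add_sub_cancel] at h1 ⊢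
  refine ⟨lc' * ∑ l, ev2 (y l) (Y l) F * δ' l * t l * v l * w' l, ?_⟩
  -- multiply by `g ^ (d' + 1)`
  set A := ∑ l, ev2 (y l) (Y l) F * δ' l
  set J := ∑ l, ev2 (y l) (Y l) F * δ' l * t l * v l * w' l
  set q := ∏ l, (ρ - y l)
  set c := (r.coeff d').eval ρ
  have hgu : g ^ (d' + 1) ≠ 0 := pow_ne_zero _ fun h0 => by
    rw [h0, zero_mul] at hgg
    exact zero_ne_one hgg
  apply mul_left_cancel₀ hgu
  -- `h1 : (- (lc A) + 8 J) q = - (c g^d')`
  have h10 : lc * q * A = 8 * J * q + c * g ^ d' := by linear_combination -h1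
  have h11 : q = lc' * g ^ (d' + 1) := by
    rw [← hP]
    linear_combination (-q) * hlc
  rw [hP, h11] at h10
  have h12 : g ^ d' = g ^ (d' + 1) * g' := by
    rw [pow_succ, mul_assoc, hgg, mul_one]
  rw [h12] at h10
  linear_combination h10

end ring

end Pool.Agent.L7h25.TP
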