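import Mathlib
import Pool.Agent.N70.PP.Main
import Pool.Agent.L7h25.TP.Core
import Pool.Agent.L7h76.TP.Pts

/-!
The main theorem in characteristic 2 from its pieces (project TP). Adapted from
`Pool.Agent.N70.PP.Main` (helper70).
-/

set_option autoImplicit false
set_option linter.unusedSectionVars false
set_option linter.unusedSimpArgs false

namespace Pool.Agent.L7h25.TP

open Polynomial Pool.Agent.H391R2 Pool.Agent.H391R2.T4 Pool.Agent.Y793 Pool.Agent.Y140.AW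
open Pool.Agent.N70.EP (SgnIndex)
open Pool.Agent.N70.PP (Pieces exists_L)
open Pool.Agent.L7h76.TP (S_PTSc)

theorem UW_X1 (K : Type) [Field K] : UW (X : K[X]) 1 :=
  ⟨monic_one, by rw [natDegree_one]; exact Nat.zero_le _, by rw [natDegree_X],
    by rw [derivative_X, derivative_one]; ring⟩

section main

variable (hh : Pieces) (hPTS : S_PTSc) (hLIN : S_LIN) (hIND : S_IND) (hPARA : S_PARA)
    {K L Z : Type} [Field K] [CharP K 2] [Infinite K] [Field L] [Algebra K L]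
    [FiniteDimensional K L] [IsGalois K L] [Field Z] [Algebra (RatFunc K) Z] [Algebra L Z]
    [Algebra K Z] [IsScalarTower K (RatFunc K) Z] [IsScalarTower K L Z]
    [FiniteDimensional (RatFunc K) Z] [IsGalois (RatFunc K) Z]
    (π : (Z ≃ₐ[RatFunc K] Z) →* (L ≃ₐ[K] L))
    (hπ : ∀ (σ : Z ≃ₐ[RatFunc K] Z) (x : L), σ (algebraMap L Z x) = algebraMap L Z (π σ x))
    (hreg : ∀ y : Z, IsAlgebraic L y → y ∈ Set.range (algebraMap L Z))
    (P : Subgroup (Z ≃ₐ[RatFunc K] Z)) {B : Type} [Group B] [Finite B] (β : P →* B)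
    (hβ : Function.Surjective β) (a : B →* (L ≃ₐ[K] L)) (hsurj : Function.Surjective a)
    (ha : ∀ p : P, a (β p) = π p) (hperf : commutator a.ker = ⊤)

include hh hPTS hLIN hIND hPARA hπ hreg hβ hsurj ha hperf

theorem one8 (n₀ : ℕ) : ∃ n ≥ n₀, RegSol K L (AltTw a 1 n) (twProj a 1 n) := by
  classical
  obtain ⟨θ, Θ, D₀, hθ, hΘ, hDD⟩ := hh.data K Z P
  obtain ⟨d, hd⟩ : ∃ d, d = P.index := ⟨_, rfl⟩
  rw [← hd] at hDD
  have hd0 := hDD.pos
  obtain ⟨M, hM⟩ : ∃ M, M = 8 * d := ⟨_, rfl⟩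
  have hMp : 0 < M := by omega
  obtain ⟨L', hL⟩ := exists_L Θ
  obtain ⟨r, hr⟩ : ∃ r, r = M + 1 := ⟨_, rfl⟩
  let K₀ := AlgebraicClosure K
  let jL : L →ₐ[K] K₀ := IsAlgClosed.lift
  let iL : Algebra L K₀ := jL.toRingHom.toAlgebra
  have tKL : IsScalarTower K L K₀ := .of_algebraMap_eq fun x => (jL.commutes x).symm
  obtain ⟨N, i1, i2, i3, η, hη⟩ := exists_trb K₀ (Option (Fin (r + 1)))
  let i4 : Algebra K N := ((algebraMap K₀ N).comp (algebraMap K K₀)).toAlgebra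
  let i4L : Algebra L N := ((algebraMap K₀ N).comp (algebraMap L K₀)).toAlgebra
  have i5 : IsScalarTower K K₀ N := .of_algebraMap_eq fun _ => rfl
  have i5L : IsScalarTower L K₀ N := .of_algebraMap_eq fun _ => rfl
  have i6 : IsScalarTower K L N := .of_algebraMap_eq fun x => by
    rw [IsScalarTower.algebraMap_apply K K₀ N, IsScalarTower.algebraMap_apply K L K₀,
      ← IsScalarTower.algebraMap_apply L K₀ N]
  obtain ⟨κ, B₀, hκ, hpar⟩ := hPARA K N Θ D₀ d hDD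
  obtain ⟨T, hT⟩ : ∃ T, T = κ * D₀.natDegree + L' + r + 3 + B₀ := ⟨_, rfl⟩
  obtain ⟨q, hq1, hq, k', hk'⟩ := exists_q M (n₀ + M * T + r + 2 * (Nat.card a.ker) ^ 2 + 2) hMp
  have hk : T < k' + 1 := by
    by_contra h
    have h1 : M * (k' + 1) ≤ M * T := Nat.mul_le_mul_left M (by omega)
    rw [mul_add, ← hk', mul_one] at h1
    omega
  obtain ⟨Bd, hB⟩ : ∃ Bd, Bd = k' + 1 - κ * D₀.natDegree := ⟨_, rfl⟩
  have hBδ : Bd + (D₀ ^ κ).natDegree = k' + 1 := by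
    rw [natDegree_pow, hB]
    omega
  have hnp : np (1 : K[X]) (D₀ ^ κ) d Bd = d * (8 * (Bd + (D₀ ^ κ).natDegree)) := by
    rw [np, natDegree_one, add_zero]
  have hnd : np (1 : K[X]) (D₀ ^ κ) d Bd = q + r := by
    rw [hnp, hBδ, hr]
    have h1 : d * (8 * (k' + 1)) = M * k' + M := by rw [hM]; ring
    rw [h1, ← hk']
    ring
  have hBB : BB Θ Bd (r + 1) := ⟨by omega, by omega, fun k => by have := hL k; omega⟩
  obtain ⟨s, hs⟩ : ∃ s : N, s = η none := ⟨_, rfl⟩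
  obtain ⟨ν, hν⟩ : ∃ ν : Fin (r + 1) → N, ν = fun i => η (some i) := ⟨_, rfl⟩
  have hη' : (fun o : Option (Fin (r + 1)) => o.elim s ν) = η := by
    funext o
    cases o with
    | none => exact hs
    | some i => rw [hν]; rfl
  rw [← hη'] at hη
  have hs0 : s ≠ 0 := hη.1.ne_zero none
  obtain ⟨x, θx, hx, hpt, hall⟩ := hPTS K N Θ X 1 D₀ (D₀ ^ κ) d Bd (r + 1) hDD hBB (UW_X1 K)
    (pow_ne_zero _ hDD.ne) isCoprime_one_left (dvd_pow_self D₀ hκ.ne') ν s hs0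
  refine ⟨np (1 : K[X]) (D₀ ^ κ) d Bd, by omega,
    core8P (K₀ := K₀) (N := N) hh.mt hh.tup hIND hLIN hh.lift hh.ari X 1 (D₀ ^ κ) (UW_X1 K) π hπ
      hreg P θ Θ hθ hΘ D₀ d hDD β hβ a
      hsurj ha hperf Bd r q _ hq hnd (by omega) (by omega)
      (lt_of_lt_of_le (by omega) (Nat.self_le_factorial _)) s ν hη x θx hx hpt hall 1 ?_⟩
  intro σ h τ hσs hσν _ _ hτ hτθ
  exact hpar Bd (r + 1) (by omega) (by omega) ν s hs0 x θx hx hpt σ τ hσs hσν hτ hτθ

end main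

/-- The main theorem for one field. -/
theorem main8 (hh : Pieces) (hPTS : S_PTSc) (hLIN : S_LIN) (hIND : S_IND) (hPARA : S_PARA)
    (K L : Type) [Field K] [CharP K 2] [Infinite K] [Field L]
    [Algebra K L] [FiniteDimensional K L] [IsGalois K L] (B : Type) [Group B] [Finite B]
    (a : B →* (L ≃ₐ[K] L)) (ha : Function.Surjective a) (hperf : commutator a.ker = ⊤) (n₀ : ℕ) :
    ∃ n ≥ n₀, RegSol K L (AltTw a 1 n) (twProj a 1 n) := by
  obtain ⟨m, hm⟩ : ∃ m, m = Nat.card (L ≃ₐ[K] L) := ⟨_, rfl⟩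
  obtain ⟨k, hk⟩ : ∃ k, k = ((3 * Nat.card (symProj a m).ker + 2).factorial) ^ 3 := ⟨_, rfl⟩
  have hm0 : 0 < m := by
    rw [hm]
    exact Nat.card_pos
  have hk0 : 0 < k := by
    rw [hk]
    positivity
  obtain ⟨Z, i1, i2, i3, i4, i5, i6, i7, i8, γ, hγ, hreg⟩ :=
    Pool.Agent.N600.NS.reg_twofold K L B a ha m (by rw [hm]) k hk.ge
  obtain ⟨P, β, hβ, hβ2⟩ := hh.grpA (L ≃ₐ[K] L) B a ha m k hm0 hk0
  let P' := P.comap (γ : (Z ≃ₐ[RatFunc K] Z) →* SymEP (symProj a m) k)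
  have hmap : P'.map (γ : (Z ≃ₐ[RatFunc K] Z) →* SymEP (symProj a m) k) = P :=
    Subgroup.map_comap_eq_self_of_surjective γ.surjective P
  let e : P' ≃* P := (γ.subgroupMap P').trans (MulEquiv.subgroupCongr hmap)
  exact one8 hh hPTS hLIN hIND hPARA ((symProj (symProj a m) k).comp
      (γ : (Z ≃ₐ[RatFunc K] Z) →* SymEP (symProj a m) k)) hγ hreg P' (β.comp (e : P' →* P))
      (hβ.comp e.surjective) a ha (fun u => hβ2 (e u)) hperf n₀

end Pool.Agent.L7h25.TP
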