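import Mathlib
import Pool.Agent.L7h25.TP.Para

/-!
The monodromy group is even, end of the proof (project TP).
-/

set_option autoImplicit false
set_option linter.unusedSectionVars false

namespace Pool.Agent.L7h25.TP

open Polynomial Pool.Agent.Y140.AW

section

variable {K N : Type} [Field K] [CharP K 2] [Field N] [CharP N 2] [IsAlgClosed N] [Algebra K N]

/-- The remainder. -/
theorem exists_rem {Θ : K[X][X]} {d : ℕ} (hΘ : Θ.Monic) (hd : Θ.natDegree = d) (hd0 : 0 < d)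
    (F : (WN N)[X][X]) : ∃ (r : (WN N)[X][X]) (c : ℕ), r.natDegree ≤ d - 1 ∧
      (∀ k, (r.coeff k).natDegree ≤ c) ∧
      ∀ y Y : WN N, ev2 y Y (Qt N Θ) = 0 →
        ev2 y Y r = ev2 y Y F * ev2 y Y (derivative (Qt N Θ)) := by
  have hQ := (Qt_monic (N := N) hΘ).1
  have hQd : (Qt N Θ).natDegree = d := by rw [(Qt_monic hΘ).2, hd]
  obtain ⟨c, hc⟩ := exists_bound ((F * derivative (Qt N Θ)) %ₘ Qt N Θ)
  refine ⟨(F * derivative (Qt N Θ)) %ₘ Qt N Θ, c, ?_, hc, fun y Y h0 => ?_⟩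
  · have h1 := natDegree_modByMonic_lt (F * derivative (Qt N Θ)) hQ (fun h => by
      rw [h, natDegree_one] at hQd
      omega)
    omega
  · have h1 := congrArg (ev2 y Y) (modByMonic_add_div (F * derivative (Qt N Θ)) (Qt N Θ))
    rw [map_add, map_mul (ev2 y Y) (Qt N Θ), h0, zero_mul, add_zero, map_mul] at h1
    exact h1

/-- The degrees. -/
theorem deg_GE (Θ : K[X][X]) (D₀ : K[X]) (κ B m : ℕ) (hD : D₀ ≠ 0)
    (hB : BB Θ B m) (ν : Fin m → N) (s : N) :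
    (GT N X 1 D₀ κ B ν).natDegree = 8 * (B + (D₀ ^ κ).natDegree) ∧
      (ET N 1 D₀ κ s).natDegree ≤ (GT N X 1 D₀ κ B ν).natDegree := by
  have hD' : tl N D₀ ^ κ ≠ 0 := by
    refine pow_ne_zero _ fun h0 => ?_
    have h1 := tl_lc N hD
    rw [h0, leadingCoeff_zero] at h1
    exact not_isUnit_zero h1
  have hnd : (tl N D₀ ^ κ).natDegree = (D₀ ^ κ).natDegree := by
    rw [natDegree_pow, natDegree_pow, tl_natDegree]
  obtain ⟨h1, -⟩ := Gt_deg (m := m) (w := tl N (1 : K[X])) hD' (by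
    rw [tl_one]
    exact monic_one) (u := tl N (X : K[X])) (by rw [tl_natDegree, natDegree_X]) hB.one
    hB.m (fun i => WittVector.teichmuller 2 (ν i))
  rw [hnd, tl_natDegree, natDegree_one, add_zero] at h1
  have h3 := Et_deg (tl N (1 : K[X])) (tl N D₀ ^ κ) (WittVector.teichmuller 2 s)
  rw [hnd, tl_natDegree, natDegree_one, add_zero] at h3
  refine ⟨by rw [GT, h1], ?_⟩
  rw [GT, ET, h1]
  omega

theorem deg_lt (Θ : K[X][X]) (D₀ : K[X]) (d κ B m c : ℕ) (hD : D₀ ≠ 0) (hd : 0 < d)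
    (hB : BB Θ B m) (ν : Fin m → N) (s : N) (r : (WN N)[X][X])
    (hc : ∀ k, (r.coeff k).natDegree ≤ c) (hcB : c + 2 ≤ B) :
    (hm r (d - 1) (GT N X 1 D₀ κ B ν) (ET N 1 D₀ κ s)).natDegree + 1 <
      np (1 : K[X]) (D₀ ^ κ) d B := by
  obtain ⟨h1, h2⟩ := deg_GE Θ D₀ κ B m hD hB ν s
  have h3 := hm_le r (d - 1) c (GT N X 1 D₀ κ B ν) (ET N 1 D₀ κ s) hc h2
  rw [h1] at h3
  obtain ⟨e, rfl⟩ : ∃ e, d = e + 1 := ⟨d - 1, by omega⟩
  rw [np, natDegree_one, add_zero, add_mul, one_mul]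
  rw [Nat.add_sub_cancel] at h3 ⊢
  omega

theorem t_PARA (hHEN : S_HEN) (hSGN : S_SGN) (hLAG : S_LAG) (hNRM : S_NRM) (hINS : S_INS) :
    S_PARA := by
  intro K N _ _ _ _ _ Θ D₀ d hDD
  have : CharP N 2 := charP_of_injective_algebraMap (algebraMap K N).injective 2
  have := charZero_WN N
  obtain ⟨a, b, V₀, V₁, ⟨S₀, hS₀⟩, ⟨S₁, hS₁⟩⟩ := hINS K Θ D₀ d hDD
  obtain ⟨ξ₁, hξ₁⟩ := lift0 (N := N) Θ V₀ S₀ D₀ a hS₀
  obtain ⟨ξ₂, hξ₂⟩ := lift1 (N := N) Θ V₀ V₁ S₁ D₀ b hS₁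
  obtain ⟨r1, c1, hr1, hc1, hr1'⟩ := exists_rem (N := N) hDD.monic hDD.deg hDD.pos
    (-(ξ₁ * tl2 N V₁ ^ 8 * C (tl N D₀) ^ (8 * (b + 1))))
  obtain ⟨r2, c2, hr2, hc2, hr2'⟩ := exists_rem (N := N) hDD.monic hDD.deg hDD.pos
    ((ξ₁ * tl2 N V₁ ^ 8) ^ 2 * C (tl N D₀) ^ 8)
  obtain ⟨c3, hc3⟩ := exists_bound Θ
  refine ⟨2 * b + 1, c1 + c2 + c3 + 2, by omega, ?_⟩
  intro B m hB hm ν s hs x θ hx hpt σ τ hσs hσν hσx hσθ
  have hBB : BB Θ B m := ⟨by omega, hm, fun k => by have := hc3 k; omega⟩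
  obtain ⟨lc, lc', S, S', y, Y, δ, δ', p', t, hlc, hlc', hS, hSS, hyx, hyu, hy0, hδ, hδ', hE, hY,
    hQ0, hp', hder⟩ := exists_lift hHEN Θ D₀ d (2 * b + 1) B m hDD hBB ν s hs x θ hx hpt (by omega)
  -- the values
  have hv0 : ∀ l, ev2 (y l) (Y l) (tl2 N V₀) ^ 8 =
      δ l ^ (8 * a) * ev2 (y l) (Y l) (derivative (Qt N Θ)) + 2 * ev2 (y l) (Y l) ξ₁ := by
    intro l
    have h1 := congrArg (ev2 (y l) (Y l)) hξ₁
    simp only [map_pow, map_add, map_mul, ev2_C, hQ0 l, zero_mul, add_zero, map_ofNat] at h1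
    rw [h1, hδ l]
  have hv1 : ∀ l, ∃ c, ev2 (y l) (Y l) (tl2 N V₀) * ev2 (y l) (Y l) (tl2 N V₁) =
      δ l ^ b + 2 * c := by
    intro l
    have h1 := congrArg (ev2 (y l) (Y l)) hξ₂
    simp only [map_pow, map_add, map_mul, ev2_C, hQ0 l, zero_mul, add_zero, map_ofNat] at h1
    exact ⟨_, by rw [h1, hδ l]⟩
  have hδκ : ∀ l, δ l ^ (8 * (2 * b + 1)) * δ' l ^ (8 * (2 * b + 1)) = 1 := fun l => by
    rw [← mul_pow, hδ' l, one_pow]
  -- the sums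
  have hs1 := sum_div hLAG (np (1 : K[X]) (D₀ ^ (2 * b + 1)) d B) d (Qt N Θ)
    (GT N X 1 D₀ (2 * b + 1) B ν) (ET N 1 D₀ (2 * b + 1) s) lc lc' y Y
    (fun l => δ l ^ (8 * (2 * b + 1))) (fun l => δ' l ^ (8 * (2 * b + 1))) p' t hY hp' hder hδκ
    hlc' _ r1 hr1 (fun l => hr1' _ _ (hQ0 l))
    (deg_lt Θ D₀ d (2 * b + 1) B m c1 hDD.ne hDD.pos hBB ν s r1 hc1 (by omega))
  have hs2 := sum_div hLAG (np (1 : K[X]) (D₀ ^ (2 * b + 1)) d B) d (Qt N Θ)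
    (GT N X 1 D₀ (2 * b + 1) B ν) (ET N 1 D₀ (2 * b + 1) s) lc lc' y Y
    (fun l => δ l ^ (8 * (2 * b + 1))) (fun l => δ' l ^ (8 * (2 * b + 1))) p' t hY hp' hder hδκ
    hlc' _ r2 hr2 (fun l => hr2' _ _ (hQ0 l))
    (deg_lt Θ D₀ d (2 * b + 1) B m c2 hDD.ne hDD.pos hBB ν s r2 hc2 (by omega))
  have hs1' : (4 : WN N) ∣ ∑ l, -(ev2 (y l) (Y l) ξ₁ * ev2 (y l) (Y l) (tl2 N V₁) ^ 8 *
      δ' l ^ (8 * b)) := by
    refine dvd_trans ⟨2, by norm_num⟩ (dvd_trans hs1 (dvd_of_eq ?_))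
    refine Finset.sum_congr rfl fun l _ => ?_
    have e1 : δ l ^ (8 * (b + 1)) * δ' l ^ (8 * (2 * b + 1)) = δ' l ^ (8 * b) := by
      have e2 : δ l ^ (8 * (b + 1)) * δ' l ^ (8 * (b + 1)) = 1 := by
        rw [← mul_pow, hδ' l, one_pow]
      rw [show 8 * (2 * b + 1) = 8 * (b + 1) + 8 * b by ring, pow_add, ← mul_assoc, e2, one_mul]
    simp only [map_pow, map_mul, map_neg, ev2_C]
    rw [← hδ l, ← e1]
    ring
  have hs2' : (4 : WN N) ∣ ∑ l, (-(ev2 (y l) (Y l) ξ₁ * ev2 (y l) (Y l) (tl2 N V₁) ^ 8 *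
      δ' l ^ (8 * b))) ^ 2 := by
    refine dvd_trans ⟨2, by norm_num⟩ (dvd_trans hs2 (dvd_of_eq ?_))
    refine Finset.sum_congr rfl fun l _ => ?_
    have e1 : δ l ^ 8 * δ' l ^ (8 * (2 * b + 1)) = (δ' l ^ (8 * b)) ^ 2 := by
      have e2 : δ l ^ 8 * δ' l ^ 8 = 1 := by
        rw [← mul_pow, hδ' l, one_pow]
      rw [show 8 * (2 * b + 1) = 8 + 8 * b * 2 by ring, pow_add, ← mul_assoc, e2, one_mul, pow_mul]
    simp only [map_pow, map_mul, ev2_C]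
    rw [← hδ l, neg_sq, mul_pow _ (δ' l ^ (8 * b)) 2, ← e1]
    ring
  obtain ⟨z, hz⟩ := core8 hNRM (np (1 : K[X]) (D₀ ^ (2 * b + 1)) d B) d a b (2 * b + 1) S δ δ'
    (fun l => ev2 (y l) (Y l) (derivative (Qt N Θ))) (fun l => ev2 (y l) (Y l) (tl2 N V₀))
    (fun l => ev2 (y l) (Y l) (tl2 N V₁)) (fun l => ev2 (y l) (Y l) ξ₁) t
    (fun l => lc * ∏ j ∈ Finset.univ.erase l, (y l - y j)) hδ' hv0 hv1 hs1' hs2' (fun l => by
      rw [hder l, hE l])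
  -- the Galois action
  have hPσ := PT_fix Θ X 1 D₀ d (2 * b + 1) B ν s σ hσs hσν
  have hevσ : ∀ (F : (WN N)[X]) (z : WN N), WittVector.map (σ : N →+* N) (F.eval z) =
      (F.map (WittVector.map (σ : N →+* N))).eval (WittVector.map (σ : N →+* N) z) := by
    intro F z
    rw [eval_map, eval₂_at_apply]
  have hyσ : ∀ l, WittVector.map (σ : N →+* N) (y l) = y (τ l) := by
    intro l
    obtain ⟨l', hl'⟩ := hyu (WittVector.map (σ : N →+* N) (y l)) (by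
      have h1 := hevσ (PT N Θ X 1 D₀ d (2 * b + 1) B ν s) (y l)
      rw [hPσ, hy0 l, map_zero] at h1
      exact h1.symm)
    have h2 := congrArg (rs N) hl'
    rw [rs_map, hyx, hyx] at h2
    have h3 : x (τ l) = x l' := by
      rw [← hσx l]
      exact h2
    rw [hl', hx h3]
  have hδσ : ∀ l, WittVector.map (σ : N →+* N) (δ l) = δ (τ l) := by
    intro l
    rw [hδ, hevσ, tl_fix, hyσ, ← hδ]
  have hlcσ : WittVector.map (σ : N →+* N) lc = lc := by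
    rw [hlc, leadingCoeff, ← coeff_map, hPσ]
  have hSσ : WittVector.map (σ : N →+* N) S = S := by
    rw [hS, WittVector.map_teichmuller]
    congr 1
  have hSu : IsUnit S := IsUnit.of_mul_eq_one _ hSS
  have hδu : ∀ l, IsUnit (δ l) := fun l => IsUnit.of_mul_eq_one _ (hδ' l)
  have hEu : ∀ l, IsUnit ((ET N 1 D₀ (2 * b + 1) s).eval (y l)) := fun l => by
    rw [hE l]
    exact hSu.mul ((hδu l).pow _)
  have hYσ : ∀ l, WittVector.map (σ : N →+* N) (Y l) = Y (τ l) := by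
    intro l
    have h1 := congrArg (WittVector.map (σ : N →+* N)) (hY l)
    rw [map_mul, hevσ, hevσ, GT_fix X 1 D₀ (2 * b + 1) B ν σ hσν, ET_fix 1 D₀ (2 * b + 1) s σ hσs,
      hyσ, hY (τ l)] at h1
    exact ((hEu (τ l)).mul_left_cancel h1).symm
  have hv0σ : ∀ l, WittVector.map (σ : N →+* N) (ev2 (y l) (Y l) (tl2 N V₀)) =
      ev2 (y (τ l)) (Y (τ l)) (tl2 N V₀) := by
    intro l
    rw [ev2_map, hyσ, hYσ, tl2_fix]
  have hv0u : ∀ l, IsUnit (ev2 (y l) (Y l) (tl2 N V₀)) := by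
    intro l
    obtain ⟨c, hc⟩ := hv1 l
    apply isUnit_of_rs
    intro h0
    have h1 := congrArg (rs N) hc
    rw [map_mul, h0, zero_mul, map_add, map_mul, rs_two, zero_mul, add_zero, map_pow] at h1
    exact rs_ne ((hδu l).pow b) (by rw [map_pow]; exact h1.symm)
  -- the number of points
  obtain ⟨k, hk⟩ : ∃ k, np (1 : K[X]) (D₀ ^ (2 * b + 1)) d B = 8 * k :=
    ⟨d * (B + (D₀ ^ (2 * b + 1)).natDegree), by rw [np, natDegree_one]; ring⟩
  have hsgn : (-1 : WN N) ^ (np (1 : K[X]) (D₀ ^ (2 * b + 1)) d B *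
      (np (1 : K[X]) (D₀ ^ (2 * b + 1)) d B - 1) / 2) = 1 := by
    rw [hk, show 8 * k * (8 * k - 1) / 2 = 2 * (2 * k * (8 * k - 1)) by
      rw [show 8 * k * (8 * k - 1) = 2 * (2 * (2 * k * (8 * k - 1))) by ring,
        Nat.mul_div_cancel_left _ (by norm_num)], pow_mul, neg_one_sq, one_pow]
  refine hSGN N _ y σ τ (lc ^ (4 * k) * ∏ l, δ l ^ (4 * a))
    ((∏ l, (δ l ^ (4 * (2 * b + 1)) * (δ l ^ (4 * (2 * b + 1))) ^ (d - 1) *
      ev2 (y l) (Y l) (tl2 N V₀) ^ 4)) * S ^ (4 * k * (d - 1))) z 1 ?_ hyσ ?_ ?_ ?_ ?_ ?_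
  · intro i j hij
    change rs N (y i) = rs N (y j) at hij
    rw [hyx, hyx] at hij
    exact hx hij
  · change WittVector.map (σ : N →+* N) _ = _
    rw [map_mul, map_pow, hlcσ, map_prod]
    congr 1
    rw [← Equiv.prod_comp τ (fun l => δ l ^ (4 * a))]
    refine Finset.prod_congr rfl fun l _ => ?_
    rw [map_pow, hδσ]
  · change WittVector.map (σ : N →+* N) _ = _
    rw [Units.val_one, one_smul, map_mul, map_pow, hSσ, map_prod]
    congr 1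
    rw [← Equiv.prod_comp τ (fun l => δ l ^ (4 * (2 * b + 1)) *
      (δ l ^ (4 * (2 * b + 1))) ^ (d - 1) * ev2 (y l) (Y l) (tl2 N V₀) ^ 4)]
    refine Finset.prod_congr rfl fun l _ => ?_
    simp only [map_mul, map_pow, hδσ, hv0σ]
  · refine (IsUnit.pow _ (IsUnit.of_mul_eq_one _ hlc')).mul ?_
    rw [Finset.prod_pow]
    exact IsUnit.pow _ (isUnit_of_rs (by
      rw [map_prod]
      exact Finset.prod_ne_zero_iff.2 fun l _ => rs_ne (hδu l)))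
  · refine IsUnit.mul ?_ (hSu.pow _)
    refine isUnit_of_rs ?_
    rw [map_prod]
    exact Finset.prod_ne_zero_iff.2 fun l _ => rs_ne
      ((((hδu l).pow _).mul (((hδu l).pow _).pow _)).mul ((hv0u l).pow _))
  · rw [hsgn, one_mul]
    have e1 : ∏ l, (lc * ∏ j ∈ Finset.univ.erase l, (y l - y j)) * δ l ^ (8 * a) =
        (lc ^ (4 * k) * ∏ l, δ l ^ (4 * a)) ^ 2 *
          ∏ l, ∏ j ∈ Finset.univ.erase l, (y l - y j) := by
      rw [Finset.prod_mul_distrib, Finset.prod_mul_distrib, Finset.prod_const, Finset.card_univ,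
        Fintype.card_fin, Finset.prod_pow, Finset.prod_pow]
      have e2 : lc ^ np (1 : K[X]) (D₀ ^ (2 * b + 1)) d B = (lc ^ (4 * k)) ^ 2 := by
        rw [← pow_mul, hk]
        congr 1
        ring
      rw [e2]
      ring
    have e3 : ∏ l, (δ l ^ (8 * (2 * b + 1)) * (S * δ l ^ (8 * (2 * b + 1))) ^ (d - 1) *
        ev2 (y l) (Y l) (tl2 N V₀) ^ 8) =
        ((∏ l, (δ l ^ (4 * (2 * b + 1)) * (δ l ^ (4 * (2 * b + 1))) ^ (d - 1) *
          ev2 (y l) (Y l) (tl2 N V₀) ^ 4)) * S ^ (4 * k * (d - 1))) ^ 2 := by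
      have e4 : S ^ (4 * k * (d - 1) * 2) = ∏ _l : Fin (np (1 : K[X]) (D₀ ^ (2 * b + 1)) d B),
          S ^ (d - 1) := by
        rw [Finset.prod_const, Finset.card_univ, Fintype.card_fin, ← pow_mul]
        rw [hk]
        congr 1
        ring
      rw [mul_pow, ← pow_mul, e4, ← Finset.prod_pow, ← Finset.prod_mul_distrib]
      refine Finset.prod_congr rfl fun l _ => ?_
      ring
    rw [← e1, ← e3]
    exact hz

end

end Pool.Agent.L7h25.TP
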