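import Mathlib
import Pool.Agent.N70.PP.VocB
import Pool.Agent.L7h25.TP.Main
import Pool.Agent.L7h25.TP.ParB
import Pool.Agent.L7h76.TP.Ins
import Pool.Agent.L7h89.TP.Lin
import Pool.Agent.L7h89.TP.Ind
import Pool.Agent.L7h97.TP.Lag
import Pool.Agent.L7h97.TP.Hen
import Pool.Agent.L7h97.TP.Sgn

/-!
The main theorem in characteristic 2 (project TP).
-/

set_option autoImplicit false
set_option linter.unusedSectionVars false

namespace Pool.Agent.L7h25.TP

open Pool.Agent.H391R2 (Wr)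
open Pool.Agent.H391R2.T4 (RegSol finite_wr)
open Pool.Agent.Y793 (AltTw twProj)
open Pool.Agent.TH444.TW (RSK)
open Pool.Agent.N70.EP (ker_symm_comp)
open Pool.Agent.N70.EP.Voc Pool.Agent.N70.PP.Voc
open Pool.Agent.N70.PP (transferP rsk_twP hyp twE occursIff_of sameP_of_rsk twPr_surj'
  solvableAll_of)

theorem main8u (H B : Type) [Group H] [Finite H] [Group B] [Finite B] (a : B →* H)
    (ha : Function.Surjective a) (hperf : commutator a.ker = ⊤) (n₀ : ℕ) :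
    ∃ n ≥ n₀, RSK (ZMod 2) (twProj a 1 n) := by
  have : Fact (Nat.Prime 2) := ⟨Nat.prime_two⟩
  obtain ⟨K₀, L₀, i1, i2, i3, i4, i5, i6, i7, e₀, h⟩ := transferP hyp 2 H
  have hk := ker_symm_comp e₀ a
  obtain ⟨n, hn, h1⟩ := main8 hyp.toPieces Pool.Agent.L7h76.TP.t_pts Pool.Agent.L7h89.TP.t_LIN
    Pool.Agent.L7h89.TP.t_IND (t_PARA Pool.Agent.L7h97.TP.t_HEN Pool.Agent.L7h97.TP.t_SGN
      Pool.Agent.L7h97.TP.t_LAG Pool.Agent.L7h97.TP.t_NRM Pool.Agent.L7h76.TP.t_ins) K₀ L₀ B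
    ((e₀.symm : H →* (L₀ ≃ₐ[K₀] L₀)).comp a)
    (e₀.symm.surjective.comp ha) (by rw [hk]; exact hperf) n₀
  refine ⟨n, hn, rsk_twP 2 a 1 _ e₀ h ?_⟩
  rw [MonoidHom.one_comp]
  exact h1

theorem fib_two {B W : Type} [Group B] [Finite B] [Group W] [Finite W] (α : B →* W)
    (hα : Function.Surjective α) (hperf : commutator α.ker = ⊤) (n₀ : ℕ) :
    ∃ n ≥ n₀, OccursIff 2 (TwPow α 1 n) W ∧ SolvableAll 2 (twPr α 1 n) := by
  have : Fact (Nat.Prime 2) := ⟨Nat.prime_two⟩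
  obtain ⟨n, hn, h⟩ := main8u W B α hα hperf (n₀ + 2)
  have hf : Finite (Wr B n) := finite_wr B n
  have hf2 : Finite (TwPow α 1 n) := Finite.of_injective Subtype.val Subtype.val_injective
  have h1 : RSK (ZMod 2) (twPr α 1 n) := RSK.congr h (twE α 1 n).symm (fun _ => rfl)
  exact ⟨n, by omega, occursIff_of (sameP_of_rsk (twPr α 1 n) (twPr_surj' α 1 n hα (by omega)) h1),
    solvableAll_of h1⟩

end Pool.Agent.L7h25.TP
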