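import Mathlib
import Pool.Agent.L7h25.TP.ParB
import Pool.Agent.L7h25.TP.AbsB
import Pool.Agent.L7h89.TP.Lin
import Pool.Agent.L7h97.TP.Sgn

/-!
The sign of the monodromy, second case (project TP).
-/

set_option autoImplicit false
set_option linter.unusedSectionVars false

namespace Pool.Agent.L7h25.TP

open Polynomial Pool.Agent.Y140.AW

theorem UW_1X (K : Type) [Field K] [CharP K 2] (c : K) : UW (1 : K[X]) (X - C c) :=
  ⟨monic_X_sub_C c, by rw [natDegree_X_sub_C], by rw [natDegree_one]; exact Nat.zero_le _, by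
    rw [derivative_one, derivative_X_sub_C, zero_mul, mul_one, zero_sub]
    have h : (C (2 : K) : K[X]) = 0 := by rw [CharTwo.two_eq_zero, C_0]
    have h2 : (2 : K[X]) = 0 := by rw [← h]; exact (map_ofNat C 2).symm
    linear_combination (-1 : K[X]) * h2⟩

theorem tl_XC {K : Type} (N : Type) [Field K] [Field N] [CharP N 2] [Algebra K N] (c : K) :
    tl N (X - C c) = X - C (-WittVector.teichmuller 2 (algebraMap K N (-c))) := by
  ext1 k
  rcases k with _ | k
  · rw [tl_coeff, coeff_sub, coeff_sub, coeff_X_zero, coeff_X_zero, coeff_C_zero, coeff_C_zero,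
      zero_sub, zero_sub, neg_neg]
  · rw [tl_coeff, coeff_sub, coeff_sub, coeff_C_succ, coeff_C_succ, sub_zero, sub_zero, coeff_X,
      coeff_X]
    split_ifs
    · rw [map_one, map_one]
    · rw [map_zero]
      exact WittVector.teichmuller_zero 2 (R := N)

section main

variable {K N : Type} [Field K] [CharP K 2] [Field N] [CharP N 2] [IsAlgClosed N] [Algebra K N]

/-- The lifted points. -/
theorem exists_liftB (hHEN : S_HEN) (Θ : K[X][X]) (D₀ : K[X]) (d κ B m : ℕ) (c : K)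
    (hDD : DD Θ D₀ d)
    (hBB : BB Θ B m) (ν : Fin m → N) (s : N) (hs : s ≠ 0)
    (x θ : Fin (np (X - C c) (D₀ ^ κ) d B) → N) (hx : Function.Injective x)
    (hpt : ∀ l, Pt8 Θ 1 (X - C c) (D₀ ^ κ) B ν s (x l) (θ l)) (hκ : 0 < κ) :
    ∃ (lc lc' S S' : WN N) (y Y δ δ' v w' t : Fin (np (X - C c) (D₀ ^ κ) d B) → WN N),
      lc = (PT N Θ 1 (X - C c) D₀ d κ B ν s).leadingCoeff ∧ lc * lc' = 1 ∧
      S = WittVector.teichmuller 2 s ∧ S * S' = 1 ∧
      (∀ l, rs N (y l) = x l) ∧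
      (∀ z, (PT N Θ 1 (X - C c) D₀ d κ B ν s).eval z = 0 → ∃ l, z = y l) ∧
      (∀ l, (PT N Θ 1 (X - C c) D₀ d κ B ν s).eval (y l) = 0) ∧
      PT N Θ 1 (X - C c) D₀ d κ B ν s = C lc * ∏ l, (X - C (y l)) ∧
      (∀ l, δ l = (tl N D₀).eval (y l)) ∧ (∀ l, δ l * δ' l = 1) ∧
      (∀ l, (ET N (X - C c) D₀ κ s).eval (y l) =
        S * ((tl N (X - C c)).eval (y l) * δ l ^ (8 * κ))) ∧
      (∀ l, (GT N 1 (X - C c) D₀ κ B ν).eval (y l) = (ET N (X - C c) D₀ κ s).eval (y l) * Y l) ∧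
      (∀ l, ev2 (y l) (Y l) (Qt N Θ) = 0) ∧
      (∀ l, v l * ∏ j ∈ Finset.univ.erase l, (y l - y j) = 1) ∧
      (∀ l, w' l * (tl N (X - C c)).eval (y l) = 1) ∧
      (∀ l, lc * (∏ j ∈ Finset.univ.erase l, (y l - y j)) * (tl N (X - C c)).eval (y l) =
        -(δ l ^ (8 * κ) * (ET N (X - C c) D₀ κ s).eval (y l) ^ (d - 1) *
          ev2 (y l) (Y l) (derivative (Qt N Θ))) + 8 * t l) := by
  have hUW := UW_1X K c
  obtain ⟨hdeg, hlu⟩ := PT_deg (N := N) Θ 1 (X - C c) D₀ d κ B ν s hDD.monic hDD.deg hDD.pos hDD.ne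
    hUW.monic hUW.degu hBB
  have hQd : (Qt N Θ).natDegree ≤ d := by rw [(Qt_monic hDD.monic).2, hDD.deg]
  set P := PT N Θ 1 (X - C c) D₀ d κ B ν s with hP
  obtain ⟨y, hy1, hy2, hy3, hy4, hy5⟩ := hHEN N _ P x hdeg hlu hx
    (fun l => ev_PT Θ 1 (X - C c) D₀ d κ B ν s hDD.monic hDD.deg hDD.pos (hpt l))
  obtain ⟨lc', hlc'⟩ := hlu.exists_right_inv
  have hS : WittVector.teichmuller 2 s * WittVector.teichmuller 2 s⁻¹ = (1 : WN N) := by
    rw [← map_mul, mul_inv_cancel₀ hs, map_one]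
  have hδu : ∀ l, IsUnit ((tl N D₀).eval (y l)) := fun l => by
    apply isUnit_of_rs
    rw [rs_eval, tl_map, hy1 l, eval_map_algebraMap]
    have h1 := (hpt l).2.1
    rw [map_pow] at h1
    exact fun h0 => h1 (by rw [h0, zero_pow hκ.ne'])
  choose δ' hδ' using fun l => (hδu l).exists_right_inv
  have hwu : ∀ l, IsUnit ((tl N (X - C c)).eval (y l)) := fun l => by
    apply isUnit_of_rs
    rw [rs_eval, tl_map, hy1 l, eval_map_algebraMap]
    exact Pool.Agent.L7h89.TP.w_ne hUW (hpt l)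
  choose w' hw' using fun l => (hwu l).exists_left_inv
  have hE : ∀ l, (ET N (X - C c) D₀ κ s).eval (y l) =
      WittVector.teichmuller 2 s *
        ((tl N (X - C c)).eval (y l) * (tl N D₀).eval (y l) ^ (8 * κ)) := fun l => by
    rw [ET, Et, eval_mul, eval_C, eval_mul, eval_pow, eval_pow, ← pow_mul, mul_comm κ 8]
  have hEu : ∀ l, IsUnit ((ET N (X - C c) D₀ κ s).eval (y l)) := fun l => by
    rw [hE l]
    exact (IsUnit.of_mul_eq_one _ hS).mul ((hwu l).mul ((hδu l).pow _))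
  have hY0 : ∀ l, ∃ Y, (GT N 1 (X - C c) D₀ κ B ν).eval (y l) =
      (ET N (X - C c) D₀ κ s).eval (y l) * Y := fun l => (hEu l).dvd
  choose Y hY using hY0
  have hQ0 : ∀ l, ev2 (y l) (Y l) (Qt N Θ) = 0 := fun l => by
    have h1 := hm_eval (evalRingHom (y l)) (Qt N Θ) d hQd (GT N 1 (X - C c) D₀ κ B ν)
      (ET N (X - C c) D₀ κ s) _ (hY l)
    have h2 := hy2 l
    rw [hP, PT] at h2
    rw [coe_evalRingHom, h2] at h1
    have h3 := (mul_eq_zero.1 h1.symm).resolve_left ((hEu l).pow d).ne_zero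
    exact h3
  have hpu : ∀ l, IsUnit (∏ j ∈ Finset.univ.erase l, (y l - y j)) := fun l => by
    apply isUnit_of_rs
    rw [map_prod, Finset.prod_ne_zero_iff]
    intro j hj
    rw [map_sub, hy1, hy1, sub_ne_zero]
    exact fun h => (Finset.ne_of_mem_erase hj) (hx h).symm
  choose v hv using fun l => (hpu l).exists_left_inv
  have hder : ∀ l, ∃ t, P.leadingCoeff * (∏ j ∈ Finset.univ.erase l, (y l - y j)) *
      (tl N (X - C c)).eval (y l) =
      -((tl N D₀).eval (y l) ^ (8 * κ) * (ET N (X - C c) D₀ κ s).eval (y l) ^ (d - 1) *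
        ev2 (y l) (Y l) (derivative (Qt N Θ))) + 8 * t := by
    intro l
    have h0 : tl N (1 : K[X]) = 1 := tl_one N
    have h0' := tl_XC N c
    have hG := Gt_der (tl N (1 : K[X])) (tl N (X - C c)) (tl N D₀ ^ κ) B
      (fun i => WittVector.teichmuller 2 (ν i))
    have hE' := Et_der (tl N (X - C c)) (tl N D₀ ^ κ) (WittVector.teichmuller 2 s)
    obtain ⟨t, ht⟩ := hm_der (Qt N Θ) d hDD.pos (GT N 1 (X - C c) D₀ κ B ν)
      (ET N (X - C c) D₀ κ s) (tl N (X - C c)) (tl N D₀ ^ κ) (-1) (fun k => by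
        rw [Qt_coeff]
        exact der_eight _) (by
        have e1 : derivative (tl N (1 : K[X])) * tl N (X - C c) -
            tl N (1 : K[X]) * derivative (tl N (X - C c)) = -1 := by
          rw [h0, h0', derivative_X_sub_C, derivative_one]
          ring
        rw [e1] at hG
        exact hG) hE'
    have h2 := congrArg (fun F : (WN N)[X] => F.eval (y l)) ht
    have h3 := hm_eval (evalRingHom (y l)) (derivative (Qt N Θ)) (d - 1)
      ((natDegree_derivative_le _).trans (Nat.sub_le_sub_right hQd 1)) (GT N 1 (X - C c) D₀ κ B ν)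
      (ET N (X - C c) D₀ κ s) _ (hY l)
    rw [coe_evalRingHom] at h3
    have h4 : (derivative P).eval (y l) = P.leadingCoeff *
      ∏ j ∈ Finset.univ.erase l, (y l - y j) := hy4 l
    have h5 : eval (y l) (8 : (WN N)[X]) = 8 := by
      rw [show (8 : (WN N)[X]) = C 8 from (map_ofNat C 8).symm, eval_C]
    have h6 : (hm (Qt N Θ) d (GT N 1 (X - C c) D₀ κ B ν) (ET N (X - C c) D₀ κ s)).eval (y l) = 0 :=
      hy2 l
    simp only [eval_sub, eval_mul, eval_add, eval_neg, eval_one, one_mul, h6, mul_zero, add_zero,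
      eval_pow] at h2
    rw [h3, h5] at h2
    refine ⟨t.eval (y l), ?_⟩
    rw [mul_comm _ ((tl N (X - C c)).eval (y l)), ← h4, hP, PT]
    rw [sub_eq_iff_eq_add] at h2
    rw [h2, ev2_def, ← pow_mul, mul_comm κ 8]
    ring
  choose t ht using hder
  exact ⟨P.leadingCoeff, lc', WittVector.teichmuller 2 s, WittVector.teichmuller 2 s⁻¹, y, Y,
    fun l => (tl N D₀).eval (y l), δ', v, w', t, rfl, hlc', rfl, hS, hy1, hy5, hy2, hy3,
    fun _ => rfl, hδ', hE, hY, hQ0, hv, hw', ht⟩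

end main

end Pool.Agent.L7h25.TP
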