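import Mathlib
import Pool.Agent.N70.PP.Main
import Pool.Agent.L7h25.TP.Core
import Pool.Agent.L7h25.TP.StmB
import Pool.Agent.L7h25.TP.ParaC
import Pool.Agent.L7h76.TP.Pts

/-!
The second main theorem in characteristic 2 from its pieces (project TP). Adapted from
`Pool.Agent.N70.PP.Main` (helper70).
-/

set_option autoImplicit false
set_option linter.unusedSectionVars false
set_option linter.unusedSimpArgs false

namespace Pool.Agent.L7h25.TP

open Polynomial Pool.Agent.H391R2 Pool.Agent.H391R2.T4 Pool.Agent.Y793 Pool.Agent.Y140.AW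
open Pool.Agent.N70.EP (SgnIndex)
open Pool.Agent.N70.PP (Pieces exists_L sgnIndex_comap index_of_sgnIndex)
open Pool.Agent.L7h76.TP (S_PTSc)

/-- The degrees in the second main theorem. -/
def Deg8 (d n : ℕ) : Prop := ∃ q : ℕ, q.Prime ∧ n = q + (d + 1) ∧ n % (8 * d) = d

/-- The permutation of the roots of the special fibre. -/
theorem exists_tau {K N : Type} [Field K] [Field N] [Algebra K N] {d : ℕ} (f : K → N)
    (Φ : N[X]) (z : Fin d → N) (hz : Function.Injective z)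
    (hz0 : ∀ u, Φ.eval u = 0 ↔ ∃ i, u = z i) (σ : N ≃ₐ[K] N) (hσ : Φ.map (σ : N →+* N) = Φ) :
    ∃ τ : Equiv.Perm (Fin d), ∀ i, σ (z i) = z (τ i) := by
  have h1 : ∀ i, ∃ i', σ (z i) = z i' := fun i => by
    refine (hz0 _).1 ?_
    have h2 : (Φ.map (σ : N →+* N)).eval ((σ : N →+* N) (z i)) = (σ : N →+* N) (Φ.eval (z i)) := by
      rw [eval_map, eval₂_at_apply]
    rw [hσ, (hz0 _).2 ⟨i, rfl⟩, map_zero] at h2
    exact h2
  choose t ht using h1
  have hti : Function.Injective t := fun i j h => by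
    apply hz
    apply σ.injective
    rw [ht, ht, h]
  exact ⟨Equiv.ofBijective t (Finite.injective_iff_bijective.1 hti), ht⟩

section main

variable (hh : Pieces) (hRES : St_res) (hPTS : S_PTSc) (hLIN : S_LIN) (hIND : S_IND)
    (hPARB : S_PARB) (hSPZ : S_SPZ)
    {K L Z : Type} [Field K] [CharP K 2] [Infinite K] [Field L] [Algebra K L]
    [FiniteDimensional K L] [IsGalois K L] [Field Z] [Algebra (RatFunc K) Z] [Algebra L Z]
    [Algebra K Z] [IsScalarTower K (RatFunc K) Z] [IsScalarTower K L Z]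
    [FiniteDimensional (RatFunc K) Z] [IsGalois (RatFunc K) Z]
    (π : (Z ≃ₐ[RatFunc K] Z) →* (L ≃ₐ[K] L))
    (hπ : ∀ (σ : Z ≃ₐ[RatFunc K] Z) (x : L), σ (algebraMap L Z x) = algebraMap L Z (π σ x))
    (hreg : ∀ y : Z, IsAlgebraic L y → y ∈ Set.range (algebraMap L Z))
    (P : Subgroup (Z ≃ₐ[RatFunc K] Z)) {B : Type} [Group B] [Finite B] (β : P →* B)
    (hβ : Function.Surjective β) (a : B →* (L ≃ₐ[K] L)) (hsurj : Function.Surjective a)
    (ha : ∀ p : P, a (β p) = π p) (hperf : commutator a.ker = ⊤)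

include hh hRES hPTS hLIN hIND hPARB hSPZ hπ hreg hβ hsurj ha hperf

theorem oneB8 (d : ℕ) (hd2 : d % 4 = 2) (hd6 : 6 ≤ d) (χ : (L ≃ₐ[K] L) →* ℤˣ)
    (hidx : SgnIndex (Z ≃ₐ[RatFunc K] Z) P d (χ.comp π)) :
    ∃ n₀ : ℕ, ∀ n ≥ n₀, Deg8 d n → RegSol K L (AltTw a χ n) (twProj a χ n) := by
  classical
  obtain ⟨θ, Θ, D₀, hθ, hΘ, hDD⟩ := hh.data K Z P
  rw [index_of_sgnIndex hidx] at hDD
  have hd0 := hDD.pos
  obtain ⟨c, hc⟩ : ∃ c : K, D₀.eval c ≠ 0 := by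
    by_contra hcon
    push Not at hcon
    exact hDD.ne (Polynomial.funext fun r => by rw [hcon r, eval_zero])
  obtain ⟨L', hL⟩ := exists_L Θ
  obtain ⟨r, hr⟩ : ∃ r, r = d + 1 := ⟨_, rfl⟩
  let K₀ := AlgebraicClosure K
  let jL : L →ₐ[K] K₀ := IsAlgClosed.lift
  let iL : Algebra L K₀ := jL.toRingHom.toAlgebra
  have tKL : IsScalarTower K L K₀ := .of_algebraMap_eq fun x => (jL.commutes x).symm
  obtain ⟨N, i1, i2, i3, η, hη⟩ := exists_trb K₀ (Option (Fin (r + 1)))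
  let i4 : Algebra K N := ((algebraMap K₀ N).comp (algebraMap K K₀)).toAlgebra
  let i4L : Algebra L N := ((algebraMap K₀ N).comp (algebraMap L K₀)).toAlgebra
  have i5 : IsScalarTower K K₀ N := .of_algebraMap_eq fun _ => rfl
  have i5L : IsScalarTower L K₀ N := .of_algebraMap_eq fun _ => rfl
  have i6 : IsScalarTower K L N := .of_algebraMap_eq fun x => by
    rw [IsScalarTower.algebraMap_apply K K₀ N, IsScalarTower.algebraMap_apply K L K₀,
      ← IsScalarTower.algebraMap_apply L K₀ N]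
  obtain ⟨κ, B₀, hκ, hpar⟩ := hPARB K N Θ D₀ d c hDD hd2 hc
  obtain ⟨T, hT⟩ : ∃ T, T = κ * D₀.natDegree + L' + r + 3 + B₀ := ⟨_, rfl⟩
  refine ⟨8 * d * (T + 1) + 2 * r + 2 * (Nat.card a.ker) ^ 2 + 3, fun n hn0 hn => ?_⟩
  obtain ⟨q, hq, hnq, hnc⟩ := hn
  rw [← hr] at hnq
  obtain ⟨j, hj⟩ : ∃ j, n = d * (8 * j + 1) := by
    refine ⟨n / (8 * d), ?_⟩
    have h1 := Nat.div_add_mod n (8 * d)
    rw [hnc] at h1
    calc n = 8 * d * (n / (8 * d)) + d := h1.symm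
      _ = d * (8 * (n / (8 * d)) + 1) := by ring
  have hjT : T < j := by
    by_contra h
    have h1 : d * (8 * j + 1) ≤ d * (8 * T + 8) := Nat.mul_le_mul_left d (by omega)
    have h2 : d * (8 * T + 8) = 8 * d * (T + 1) := by ring
    omega
  obtain ⟨Bd, hB⟩ : ∃ Bd, Bd = j - κ * D₀.natDegree := ⟨_, rfl⟩
  have hBδ : Bd + (D₀ ^ κ).natDegree = j := by
    rw [natDegree_pow, hB]
    omega
  have hnd : np (X - C c) (D₀ ^ κ) d Bd = n := by
    rw [np, natDegree_X_sub_C, hBδ, hj]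
  have hBB : BB Θ Bd (r + 1) := ⟨by omega, by omega, fun k => by have := hL k; omega⟩
  obtain ⟨s, hs⟩ : ∃ s : N, s = η none := ⟨_, rfl⟩
  obtain ⟨ν, hν⟩ : ∃ ν : Fin (r + 1) → N, ν = fun i => η (some i) := ⟨_, rfl⟩
  have hη' : (fun o : Option (Fin (r + 1)) => o.elim s ν) = η := by
    funext o
    cases o with
    | none => exact hs
    | some i => rw [hν]; rfl
  rw [← hη'] at hη
  have hs0 : s ≠ 0 := hη.1.ne_zero none
  have hcop : IsCoprime (X - C c) (D₀ ^ κ) := by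
    refine IsCoprime.pow_right ?_
    refine ((irreducible_X_sub_C c).coprime_iff_not_dvd).2 fun h => hc ?_
    exact (dvd_iff_isRoot.1 h)
  obtain ⟨x, θx, hx, hpt, hall⟩ := hPTS K N Θ 1 (X - C c) D₀ (D₀ ^ κ) d Bd (r + 1) hDD hBB
    (UW_1X K c) (pow_ne_zero _ hDD.ne) hcop (dvd_pow_self D₀ hκ.ne') ν s hs0
  obtain ⟨z, hz, hz0, -⟩ := hRES K N Θ D₀ d hDD (algebraMap K N c) (by
    rw [aeval_algebraMap_apply, ne_eq, map_eq_zero, coe_aeval_eq_eval]
    exact hc)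
  rw [← hnd]
  have hcardq : 2 * (Nat.card a.ker) ^ 2 < (np (X - C c) (D₀ ^ κ) d Bd - 2).factorial := by
    rw [hnd]
    exact lt_of_lt_of_le (by omega) (Nat.self_le_factorial _)
  refine core8P (K₀ := K₀) (N := N) hh.mt hh.tup hIND hLIN hh.lift hh.ari 1 (X - C c) (D₀ ^ κ)
      (UW_1X K c) π hπ hreg P θ Θ hθ hΘ D₀ d hDD β hβ a
      hsurj ha hperf Bd r q _ hq (hnd.trans hnq) (by omega) (by omega)
      hcardq s ν hη x θx hx hpt hall χ ?_
  intro σ h τ hσs hσν hσL _ hτ hτθ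
  obtain ⟨τ₀, hτ₀⟩ := exists_tau (algebraMap K N) (tA Θ (algebraMap K N c)) z hz hz0 σ (by
    have h1 := tA_map Θ (σ : N →ₐ[K] N) (algebraMap K N c)
    rw [AlgHom.commutes] at h1
    exact h1.symm)
  rw [hpar Bd (r + 1) (by omega) (by omega) ν s hs0 x θx hx hpt z hz
    (fun i => (hz0 _).2 ⟨i, rfl⟩) σ τ τ₀ hσs hσν hτ hτθ hτ₀]
  exact hSPZ K L Z N π hπ P d χ hidx θ Θ D₀ hθ hΘ hDD c hc z hz (fun i => (hz0 _).2 ⟨i, rfl⟩) σ h
    hσL τ₀ hτ₀

end main

/-- The second main theorem for one pair of fields. -/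
theorem mainB8 (hh : Pieces) (hRES : St_res) (hPTS : S_PTSc) (hLIN : S_LIN) (hIND : S_IND)
    (hPARB : S_PARB) (hSPZ : S_SPZ) (K L : Type) [Field K] [CharP K 2] [Infinite K] [Field L]
    [Algebra K L] [FiniteDimensional K L] [IsGalois K L] (B : Type) [Group B] [Finite B]
    (a : B →* (L ≃ₐ[K] L)) (ha : Function.Surjective a) (hperf : commutator a.ker = ⊤)
    (hw : WeakSol K L B a) (r : ℕ) (hr : Odd r)
    (hr2 : ((72 * Nat.card a.ker + 2).factorial) ^ 3 ≤ r) :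
    ∃ n₀ : ℕ, ∀ n ≥ n₀, Deg8 (6 * r) n → ∀ χ : (L ≃ₐ[K] L) →* ℤˣ,
      RegSol K L (AltTw a χ n) (twProj a χ n) := by
  have h1 : ∀ χ : (L ≃ₐ[K] L) →* ℤˣ, ∃ n₀ : ℕ, ∀ n ≥ n₀, Deg8 (6 * r) n →
      RegSol K L (AltTw a χ n) (twProj a χ n) := by
    intro χ
    have hker : Nat.card (a.comp (MonoidHom.fst B (Equiv.Perm (Fin 4)))).ker =
        24 * Nat.card a.ker := by
      have e : (a.comp (MonoidHom.fst B (Equiv.Perm (Fin 4)))).ker ≃
          Equiv.Perm (Fin 4) × a.ker :=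
        { toFun := fun x => (x.1.2, ⟨x.1.1, x.2⟩)
          invFun := fun y => ⟨(y.2.1, y.1), y.2.2⟩
          left_inv := fun x => rfl
          right_inv := fun y => rfl }
      rw [Nat.card_congr e, Nat.card_prod, Nat.card_eq_fintype_card (α := Equiv.Perm (Fin 4)),
        Fintype.card_perm, Fintype.card_fin]
      rfl
    have hws : WeakSol K L (B × Equiv.Perm (Fin 4))
        (a.comp (MonoidHom.fst B (Equiv.Perm (Fin 4)))) := by
      obtain ⟨L', i1, i2, i3, i4, i5, i6, s, hs⟩ := hw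
      exact ⟨L', i1, i2, i3, i4, i5, i6, (MonoidHom.inl B (Equiv.Perm (Fin 4))).comp s, hs⟩
    obtain ⟨Z, i1, i2, i3, i4, i5, i6, i7, i8, γ, hγ, hreg⟩ :=
      Pool.Agent.TH59.WX.reg_sym_unif K L (B × Equiv.Perm (Fin 4))
        (a.comp (MonoidHom.fst B (Equiv.Perm (Fin 4)))) hws r (by
          rw [hker]
          have h2 : 3 * (24 * Nat.card a.ker) + 2 = 72 * Nat.card a.ker + 2 := by ring
          rwa [h2])
    obtain ⟨P, β, hβ, hβ2, hidx⟩ := Pool.Agent.N342.EP.t_grp1 (L ≃ₐ[K] L) B a ha χ r hr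
    let P' := P.comap (γ : (Z ≃ₐ[RatFunc K] Z) →* _)
    have hmap : P'.map (γ : (Z ≃ₐ[RatFunc K] Z) →* _) = P :=
      Subgroup.map_comap_eq_self_of_surjective γ.surjective P
    let e : P' ≃* P := (γ.subgroupMap P').trans (MulEquiv.subgroupCongr hmap)
    have hidx' := sgnIndex_comap γ P (6 * r) _ hidx
    exact oneB8 hh hRES hPTS hLIN hIND hPARB hSPZ
      ((symProj (a.comp (MonoidHom.fst B (Equiv.Perm (Fin 4)))) r).comp
      (γ : (Z ≃ₐ[RatFunc K] Z) →* _)) hγ hreg P' (β.comp (e : P' →* P)) (hβ.comp e.surjective) a ha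
      (fun u => hβ2 (e u)) hperf (6 * r) (by obtain ⟨r', hr'⟩ := hr; omega)
      (by obtain ⟨r', hr'⟩ := hr; omega) χ hidx'
  choose f hf using h1
  have hfin : Finite ((L ≃ₐ[K] L) →* ℤˣ) :=
    Finite.of_injective (fun f : (L ≃ₐ[K] L) →* ℤˣ => (f : (L ≃ₐ[K] L) → ℤˣ))
      DFunLike.coe_injective
  have hft := Fintype.ofFinite ((L ≃ₐ[K] L) →* ℤˣ)
  refine ⟨Finset.univ.sup f, fun n hn hd χ => hf χ n ?_ hd⟩
  exact (Finset.le_sup (f := f) (Finset.mem_univ χ)).trans hn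

end Pool.Agent.L7h25.TP
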