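import Mathlib
import Pool.Agent.L7h25.TP.ParaC

/-!
The sign of the monodromy, second case, end of the proof (project TP).
-/

set_option autoImplicit false
set_option linter.unusedSectionVars false

namespace Pool.Agent.L7h25.TP

open Polynomial Pool.Agent.Y140.AW

section ring

variable {R : Type} [CommRing R]

theorem elem8 (a b : ℕ) (δ δ' T v0 v1 ξ : R) (hδ : δ * δ' = 1)
    (hv0 : v0 ^ 8 = δ ^ (8 * a) * T + 2 * ξ) (hv1 : ∃ c, v0 * v1 = δ ^ b + 2 * c) :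
    ∃ c, δ ^ (8 * a) * T = v0 ^ 8 * (1 + 2 * -(ξ * v1 ^ 8 * δ' ^ (8 * b))) + 8 * c := by
  obtain ⟨ζ, hζ⟩ := pow_eight hv1
  have e1 : v0 ^ 8 * v1 ^ 8 * δ' ^ (8 * b) = 1 + 16 * (ζ * δ' ^ (8 * b)) := by
    rw [← mul_pow, hζ, ← pow_mul, mul_comm b 8, add_mul, ← mul_pow, hδ, one_pow]
    ring
  exact ⟨4 * (ξ * (ζ * δ' ^ (8 * b))), by linear_combination (2 * ξ) * e1 - hv0⟩

theorem core8B (n d a b κ : ℕ) (S : R) (δ δ' T v0 v1 ξ t pr ω : Fin n → R) (δ0 δ0' : R)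
    (T0 u0 u1 ξ0 : Fin d → R) (hδ : ∀ l, δ l * δ' l = 1)
    (hv0 : ∀ l, v0 l ^ 8 = δ l ^ (8 * a) * T l + 2 * ξ l)
    (hv1 : ∀ l, ∃ c, v0 l * v1 l = δ l ^ b + 2 * c) (hδ0 : δ0 * δ0' = 1)
    (hu0 : ∀ i, u0 i ^ 8 = δ0 ^ (8 * a) * T0 i + 2 * ξ0 i)
    (hu1 : ∀ i, ∃ c, u0 i * u1 i = δ0 ^ b + 2 * c)
    (hN : (8 : R) ∣ ∏ l, (1 + 2 * -(ξ l * v1 l ^ 8 * δ' l ^ (8 * b))) -
      ∏ i, (1 + 2 * -(ξ0 i * u1 i ^ 8 * δ0' ^ (8 * b))))
    (hpr : ∀ l, pr l =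
      -(δ l ^ (8 * κ) * (S * (ω l * δ l ^ (8 * κ))) ^ (d - 1) * T l) + 8 * t l) :
    ∃ z, (∏ l, (pr l * δ l ^ (8 * a))) * ∏ i, u0 i ^ 8 =
      (∏ l, -(δ l ^ (8 * κ) * (S * (ω l * δ l ^ (8 * κ))) ^ (d - 1) * v0 l ^ 8)) *
        (∏ i, (T0 i * δ0 ^ (8 * a))) + 8 * z := by
  obtain ⟨z3, hz3⟩ := hN
  obtain ⟨z1, hz1⟩ := prod_mod Finset.univ (fun l => pr l * δ l ^ (8 * a))
    (fun l => -(δ l ^ (8 * κ) * (S * (ω l * δ l ^ (8 * κ))) ^ (d - 1) * v0 l ^ 8) *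
      (1 + 2 * -(ξ l * v1 l ^ 8 * δ' l ^ (8 * b)))) (8 : R) (fun l _ => by
      obtain ⟨c, hc⟩ := elem8 a b (δ l) (δ' l) (T l) (v0 l) (v1 l) (ξ l) (hδ l) (hv0 l) (hv1 l)
      refine ⟨-(δ l ^ (8 * κ) * (S * (ω l * δ l ^ (8 * κ))) ^ (d - 1) * c) +
        t l * δ l ^ (8 * a), ?_⟩
      rw [hpr l]
      linear_combination (-(δ l ^ (8 * κ) * (S * (ω l * δ l ^ (8 * κ))) ^ (d - 1))) * hc)
  obtain ⟨z2, hz2⟩ := prod_mod Finset.univ (fun i => T0 i * δ0 ^ (8 * a))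
    (fun i => u0 i ^ 8 * (1 + 2 * -(ξ0 i * u1 i ^ 8 * δ0' ^ (8 * b)))) (8 : R) (fun i _ => by
      obtain ⟨c, hc⟩ := elem8 a b δ0 δ0' (T0 i) (u0 i) (u1 i) (ξ0 i) hδ0 (hu0 i) (hu1 i)
      refine ⟨c, ?_⟩
      linear_combination hc)
  rw [Finset.prod_mul_distrib (g := fun l => 1 + 2 * -(ξ l * v1 l ^ 8 * δ' l ^ (8 * b)))] at hz1
  rw [Finset.prod_mul_distrib (g := fun i => 1 + 2 * -(ξ0 i * u1 i ^ 8 * δ0' ^ (8 * b)))] at hz2
  set A := ∏ l, -(δ l ^ (8 * κ) * (S * (ω l * δ l ^ (8 * κ))) ^ (d - 1) * v0 l ^ 8)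
  set U := ∏ i, u0 i ^ 8
  rw [hz1, hz2]
  exact ⟨A * z3 * U + z1 * U - A * z2, by linear_combination (A * U) * hz3⟩

end ring

section main

variable {K N : Type} [Field K] [CharP K 2] [Field N] [CharP N 2] [IsAlgClosed N] [Algebra K N]

/-- The degrees. -/
theorem deg_ltB (Θ : K[X][X]) (D₀ : K[X]) (d κ B m c : ℕ) (e : K) (hD : D₀ ≠ 0) (hd : 0 < d)
    (hB : BB Θ B m) (ν : Fin m → N) (s : N) (r : (WN N)[X][X])
    (hc : ∀ k, (r.coeff k).natDegree ≤ c) (hcB : c ≤ B) :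
    (hm r (d - 1) (GT N 1 (X - C e) D₀ κ B ν) (ET N (X - C e) D₀ κ s)).natDegree <
      np (X - C e) (D₀ ^ κ) d B := by
  have hUW := UW_1X K e
  have hD' : tl N D₀ ^ κ ≠ 0 := by
    refine pow_ne_zero _ fun h0 => ?_
    have h1 := tl_lc N hD
    rw [h0, leadingCoeff_zero] at h1
    exact not_isUnit_zero h1
  have hnd : (tl N D₀ ^ κ).natDegree = (D₀ ^ κ).natDegree := by
    rw [natDegree_pow, natDegree_pow, tl_natDegree]
  have hw' : (tl N (X - C e)).Monic := by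
    rw [tl_XC]
    exact monic_X_sub_C _
  obtain ⟨h1, -⟩ := Gt_deg (m := m) (w := tl N (X - C e)) hD' hw' (u := tl N (1 : K[X]))
    (by rw [tl_natDegree]; exact hUW.degu) hB.one
    hB.m (fun i => WittVector.teichmuller 2 (ν i))
  rw [hnd, tl_natDegree] at h1
  have h3 := Et_deg (tl N (X - C e)) (tl N D₀ ^ κ) (WittVector.teichmuller 2 s)
  rw [hnd, tl_natDegree] at h3
  have h4 : (ET N (X - C e) D₀ κ s).natDegree ≤ (GT N 1 (X - C e) D₀ κ B ν).natDegree := by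
    rw [GT, ET, h1]
    omega
  have h5 := hm_le r (d - 1) c (GT N 1 (X - C e) D₀ κ B ν) (ET N (X - C e) D₀ κ s) hc h4
  have h6 : (GT N 1 (X - C e) D₀ κ B ν).natDegree =
      8 * (B + (D₀ ^ κ).natDegree) + (X - C e).natDegree := by rw [GT, h1]
  rw [h6] at h5
  have hB1 := hB.one
  obtain ⟨d', rfl⟩ : ∃ d', d = d' + 1 := ⟨d - 1, by omega⟩
  rw [np, add_mul, one_mul]
  rw [Nat.add_sub_cancel] at h5 ⊢
  omega

/-- The roots of the special fibre. -/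
theorem exists_fib (hHEN : S_HEN) (Θ : K[X][X]) (D₀ : K[X]) (d : ℕ) (hDD : DD Θ D₀ d) (a : N)
    (ρ : WN N) (hρ : rs N ρ = a) (z : Fin d → N) (hz : Function.Injective z)
    (hz0 : ∀ i, (tA Θ a).eval (z i) = 0) :
    ∃ zt v : Fin d → WN N, (∀ i, rs N (zt i) = z i ^ 8) ∧ (∀ i, ev2 ρ (zt i) (Qt N Θ) = 0) ∧
      (∀ i, ev2 ρ (zt i) (derivative (Qt N Θ)) = ∏ j ∈ Finset.univ.erase i, (zt i - zt j)) ∧
      (∀ i, v i * ∏ j ∈ Finset.univ.erase i, (zt i - zt j) = 1) ∧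
      ∀ u, ev2 ρ u (Qt N Θ) = 0 → ∃ i, u = zt i := by
  have hQm : ((Qt N Θ).map (evalRingHom ρ)).Monic := (Qt_monic hDD.monic).1.map _
  have hQd : ((Qt N Θ).map (evalRingHom ρ)).natDegree = d := by
    rw [(Qt_monic hDD.monic).1.natDegree_map, (Qt_monic hDD.monic).2, hDD.deg]
  have hz8 : Function.Injective (fun i => z i ^ 8) := fun i j h =>
    hz (Pool.Agent.L7h89.TP.pow8_inj h)
  obtain ⟨zt, h1, h2, -, h4, h5⟩ := hHEN N d ((Qt N Θ).map (evalRingHom ρ)) (fun i => z i ^ 8) hQd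
    (by rw [hQm.leadingCoeff]; exact isUnit_one) hz8 (fun i => by
      have e1 : ((Qt N Θ).map (evalRingHom ρ)).map (rs N) = pw8 (tA Θ a) := by
        rw [← Qt_map Θ a, Polynomial.map_map]
        congr 1
        apply RingHom.ext
        intro f
        change rs N (f.eval ρ) = (f.map (rs N)).eval a
        rw [rs_eval, hρ]
      rw [e1, pw8_eval, hz0 i, zero_pow (by norm_num)])
  have hpu : ∀ i, IsUnit (∏ j ∈ Finset.univ.erase i, (zt i - zt j)) := fun i => by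
    apply isUnit_of_rs
    rw [map_prod, Finset.prod_ne_zero_iff]
    intro j hj
    rw [map_sub, h1, h1, sub_ne_zero]
    exact fun h => (Finset.ne_of_mem_erase hj) (hz8 h).symm
  choose v hv using fun i => (hpu i).exists_left_inv
  refine ⟨zt, v, h1, h2, fun i => ?_, hv, h5⟩
  have h6 := h4 i
  rw [hQm.leadingCoeff, one_mul] at h6
  rw [← h6, ev2_def, derivative_map]

end main

end Pool.Agent.L7h25.TP
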