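import Mathlib
import Pool.Agent.L7h25.TP.ParD

/-!
The sign of the monodromy, second case: the theorem (project TP).
-/

set_option autoImplicit false
set_option linter.unusedSectionVars false

namespace Pool.Agent.L7h25.TP

open Polynomial Pool.Agent.Y140.AW

theorem fin_alg {R : Type} [CommRing R] (LC PI Om Da U Pv Sp Om1 Om2 V dd z : R)
    (hz : LC ^ 2 * PI * Om * Da ^ 2 * U ^ 2 = Pv ^ 2 * Sp ^ 2 * Om1 * (-V ^ 2 * dd ^ 2) + 8 * z)
    (h : Om1 * Om = Om2 ^ 2) :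
    (LC * Da * U * Om) ^ 2 * PI = -1 * (Pv * Sp * Om2 * dd * V) ^ 2 + 8 * (z * Om) := by
  linear_combination Om * hz - (Pv ^ 2 * Sp ^ 2 * V ^ 2 * dd ^ 2) * h

theorem t_PARB (hHEN : S_HEN) (hSGN : S_SGN) (hLAGB : S_LAGB) (hLAGC : S_LAGC) (hNRMB : S_NRMB)
    (hINS : S_INS) : S_PARB := by
  intro K N _ _ _ _ _ Θ D₀ d c hDD hd4 hc
  have : CharP N 2 := charP_of_injective_algebraMap (algebraMap K N).injective 2
  have := charZero_WN N
  obtain ⟨a, b, V₀, V₁, ⟨S₀, hS₀⟩, ⟨S₁, hS₁⟩⟩ := hINS K Θ D₀ d hDD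
  obtain ⟨ξ₁, hξ₁⟩ := lift0 (N := N) Θ V₀ S₀ D₀ a hS₀
  obtain ⟨ξ₂, hξ₂⟩ := lift1 (N := N) Θ V₀ V₁ S₁ D₀ b hS₁
  obtain ⟨r1, c1, hr1, hc1, hr1'⟩ := exists_rem (N := N) hDD.monic hDD.deg hDD.pos
    (-(ξ₁ * tl2 N V₁ ^ 8 * C (tl N D₀) ^ (8 * (b + 1))))
  obtain ⟨r2, c2, hr2, hc2, hr2'⟩ := exists_rem (N := N) hDD.monic hDD.deg hDD.pos
    ((ξ₁ * tl2 N V₁ ^ 8) ^ 2 * C (tl N D₀) ^ 8)
  obtain ⟨c3, hc3⟩ := exists_bound Θ
  refine ⟨2 * b + 1, c1 + c2 + c3 + 2, by omega, ?_⟩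
  intro B m hB hm ν s hs x θ hx hpt zz hzz hzz0 σ τ τ₀ hσs hσν hσx hσθ hσz
  have hUW := UW_1X K c
  have hBB : BB Θ B m := ⟨by omega, hm, fun k => by have := hc3 k; omega⟩
  obtain ⟨lc, lc', S, S', y, Y, δ, δ', v, w', t, hlc, hlc', hS, hSS, hyx, hyu, hy0, hP, hδ, hδ', hE,
    hY, hQ0, hv, hw', hder⟩ := exists_liftB hHEN Θ D₀ d (2 * b + 1) B m c hDD hBB ν s hs x θ hx hpt
      (by omega)
  -- the special point
  obtain ⟨ρ, hρ⟩ : ∃ ρ : WN N, ρ = -WittVector.teichmuller 2 (algebraMap K N (-c)) := ⟨_, rfl⟩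
  have hW : tl N (X - C c) = X - C ρ := by rw [tl_XC, hρ]
  have hρc : rs N ρ = algebraMap K N c := by
    rw [hρ, map_neg, rs_tm, map_neg, neg_neg]
  obtain ⟨δ0, hδ0⟩ : ∃ δ0, δ0 = (tl N D₀).eval ρ := ⟨_, rfl⟩
  have hδ0u : IsUnit δ0 := by
    apply isUnit_of_rs
    rw [hδ0, rs_eval, tl_map, hρc, eval_map_algebraMap, aeval_algebraMap_apply, ne_eq,
      map_eq_zero, coe_aeval_eq_eval]
    exact hc
  obtain ⟨δ0', hδ0'⟩ := hδ0u.exists_right_inv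
  obtain ⟨zt, v0, hzt, hzt0, hT0, hv0', hztu⟩ := exists_fib hHEN Θ D₀ d hDD (algebraMap K N c) ρ hρc
    zz hzz hzz0
  -- the values
  have hv0 : ∀ l, ev2 (y l) (Y l) (tl2 N V₀) ^ 8 =
      δ l ^ (8 * a) * ev2 (y l) (Y l) (derivative (Qt N Θ)) + 2 * ev2 (y l) (Y l) ξ₁ := by
    intro l
    have h1 := congrArg (ev2 (y l) (Y l)) hξ₁
    simp only [map_pow, map_add, map_mul, ev2_C, hQ0 l, zero_mul, add_zero, map_ofNat] at h1
    rw [h1, hδ l]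
  have hv1 : ∀ l, ∃ c, ev2 (y l) (Y l) (tl2 N V₀) * ev2 (y l) (Y l) (tl2 N V₁) =
      δ l ^ b + 2 * c := by
    intro l
    have h1 := congrArg (ev2 (y l) (Y l)) hξ₂
    simp only [map_pow, map_add, map_mul, ev2_C, hQ0 l, zero_mul, add_zero, map_ofNat] at h1
    exact ⟨_, by rw [h1, hδ l]⟩
  have hu0 : ∀ i, ev2 ρ (zt i) (tl2 N V₀) ^ 8 =
      δ0 ^ (8 * a) * ev2 ρ (zt i) (derivative (Qt N Θ)) + 2 * ev2 ρ (zt i) ξ₁ := by
    intro i
    have h1 := congrArg (ev2 ρ (zt i)) hξ₁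
    simp only [map_pow, map_add, map_mul, ev2_C, hzt0 i, zero_mul, add_zero, map_ofNat] at h1
    rw [h1, hδ0]
  have hu1 : ∀ i, ∃ c, ev2 ρ (zt i) (tl2 N V₀) * ev2 ρ (zt i) (tl2 N V₁) = δ0 ^ b + 2 * c := by
    intro i
    have h1 := congrArg (ev2 ρ (zt i)) hξ₂
    simp only [map_pow, map_add, map_mul, ev2_C, hzt0 i, zero_mul, add_zero, map_ofNat] at h1
    exact ⟨_, by rw [h1, hδ0]⟩
  have hδκ : ∀ l, δ l ^ (8 * (2 * b + 1)) * δ' l ^ (8 * (2 * b + 1)) = 1 := fun l => by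
    rw [← mul_pow, hδ' l, one_pow]
  have hδκ0 : δ0 ^ (8 * (2 * b + 1)) * δ0' ^ (8 * (2 * b + 1)) = 1 := by
    rw [← mul_pow, hδ0', one_pow]
  -- the values at the special point
  have hE0 : (ET N (X - C c) D₀ (2 * b + 1) s).eval ρ = 0 := by
    rw [ET, Et, hW]
    simp
  have hG0 : (GT N 1 (X - C c) D₀ (2 * b + 1) B ν).eval ρ = δ0 ^ (8 * (2 * b + 1)) := by
    rw [GT, Gt, hW, tl_one, hδ0]
    simp only [eval_add, eval_mul, eval_pow, eval_sub, eval_X, eval_C, sub_self, zero_mul,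
      add_zero, eval_one, one_mul]
    rw [← pow_mul, mul_comm _ 8]
  have hPρ : lc * ∏ l, (ρ - y l) = (δ0 ^ (8 * (2 * b + 1))) ^ d := by
    have h1 := congrArg (fun F : (WN N)[X] => F.eval ρ) hP
    simp only [eval_mul, eval_C, eval_prod, eval_sub, eval_X] at h1
    rw [← h1, PT, hm_zero _ _ _ _ _ hE0, hG0]
    have h2 : (Qt N Θ).coeff d = 1 := by
      rw [← hDD.deg, ← (Qt_monic (N := N) hDD.monic).2]
      exact (Qt_monic hDD.monic).1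
    rw [h2, eval_one, one_mul]
  have hWe : ∀ l, (tl N (X - C c)).eval (y l) = y l - ρ := fun l => by
    rw [hW, eval_sub, eval_X, eval_C]
  have hw'' : ∀ l, w' l * (y l - ρ) = 1 := fun l => by rw [← hWe]; exact hw' l
  have hder' : ∀ l, lc * (∏ j ∈ Finset.univ.erase l, (y l - y j)) * (y l - ρ) =
      -(δ l ^ (8 * (2 * b + 1)) * (ET N (X - C c) D₀ (2 * b + 1) s).eval (y l) ^ (d - 1) *
          ev2 (y l) (Y l) (derivative (Qt N Θ))) + 8 * t l := fun l => by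
    rw [← hWe]
    exact hder l
  -- the sums
  have hs1 := sum_divB hLAGB hLAGC (np (X - C c) (D₀ ^ (2 * b + 1)) d B) d hDD.pos (Qt N Θ)
    (GT N 1 (X - C c) D₀ (2 * b + 1) B ν) (ET N (X - C c) D₀ (2 * b + 1) s) lc lc' y Y
    (fun l => δ l ^ (8 * (2 * b + 1))) (fun l => δ' l ^ (8 * (2 * b + 1))) v w' t ρ
    (δ0 ^ (8 * (2 * b + 1))) (δ0' ^ (8 * (2 * b + 1))) zt v0 hY hv hw'' hder' hδκ
    hlc' hE0 hPρ hG0 hδκ0 hv0' hT0 _ r1 hr1 (fun l => hr1' _ _ (hQ0 l))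
    (fun i => hr1' _ _ (hzt0 i))
    (deg_ltB Θ D₀ d (2 * b + 1) B m c1 c hDD.ne hDD.pos hBB ν s r1 hc1 (by omega))
  have hs2 := sum_divB hLAGB hLAGC (np (X - C c) (D₀ ^ (2 * b + 1)) d B) d hDD.pos (Qt N Θ)
    (GT N 1 (X - C c) D₀ (2 * b + 1) B ν) (ET N (X - C c) D₀ (2 * b + 1) s) lc lc' y Y
    (fun l => δ l ^ (8 * (2 * b + 1))) (fun l => δ' l ^ (8 * (2 * b + 1))) v w' t ρ
    (δ0 ^ (8 * (2 * b + 1))) (δ0' ^ (8 * (2 * b + 1))) zt v0 hY hv hw'' hder' hδκ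
    hlc' hE0 hPρ hG0 hδκ0 hv0' hT0 _ r2 hr2 (fun l => hr2' _ _ (hQ0 l))
    (fun i => hr2' _ _ (hzt0 i))
    (deg_ltB Θ D₀ d (2 * b + 1) B m c2 c hDD.ne hDD.pos hBB ν s r2 hc2 (by omega))
  have key1 : ∀ (u U e e' : WN N), e * e' = 1 → e = (tl N D₀).eval u →
      ev2 u U (-(ξ₁ * tl2 N V₁ ^ 8 * C (tl N D₀) ^ (8 * (b + 1)))) * e' ^ (8 * (2 * b + 1)) =
        -(ev2 u U ξ₁ * ev2 u U (tl2 N V₁) ^ 8 * e' ^ (8 * b)) := by
    intro u U e e' h1 h2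
    have e1 : e ^ (8 * (b + 1)) * e' ^ (8 * (2 * b + 1)) = e' ^ (8 * b) := by
      have e2 : e ^ (8 * (b + 1)) * e' ^ (8 * (b + 1)) = 1 := by
        rw [← mul_pow, h1, one_pow]
      rw [show 8 * (2 * b + 1) = 8 * (b + 1) + 8 * b by ring, pow_add, ← mul_assoc, e2, one_mul]
    simp only [map_pow, map_mul, map_neg, ev2_C]
    rw [← h2, ← e1]
    ring
  have key2 : ∀ (u U e e' : WN N), e * e' = 1 → e = (tl N D₀).eval u →
      ev2 u U ((ξ₁ * tl2 N V₁ ^ 8) ^ 2 * C (tl N D₀) ^ 8) * e' ^ (8 * (2 * b + 1)) =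
        (-(ev2 u U ξ₁ * ev2 u U (tl2 N V₁) ^ 8 * e' ^ (8 * b))) ^ 2 := by
    intro u U e e' h1 h2
    have e1 : e ^ 8 * e' ^ (8 * (2 * b + 1)) = (e' ^ (8 * b)) ^ 2 := by
      have e2 : e ^ 8 * e' ^ 8 = 1 := by
        rw [← mul_pow, h1, one_pow]
      rw [show 8 * (2 * b + 1) = 8 + 8 * b * 2 by ring, pow_add, ← mul_assoc, e2, one_mul, pow_mul]
    simp only [map_pow, map_mul, ev2_C]
    rw [← h2, neg_sq, mul_pow _ (e' ^ (8 * b)) 2, ← e1]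
    ring
  rw [Finset.sum_congr rfl fun l _ => key1 (y l) (Y l) (δ l) (δ' l) (hδ' l) (hδ l),
    Finset.sum_congr rfl fun i _ => key1 ρ (zt i) δ0 δ0' hδ0' hδ0] at hs1
  rw [Finset.sum_congr rfl fun l _ => key2 (y l) (Y l) (δ l) (δ' l) (hδ' l) (hδ l),
    Finset.sum_congr rfl fun i _ => key2 ρ (zt i) δ0 δ0' hδ0' hδ0] at hs2
  have hN := hNRMB (WN N) _ _ _ _ hs1 hs2
  obtain ⟨z, hz⟩ := core8B (np (X - C c) (D₀ ^ (2 * b + 1)) d B) d a b (2 * b + 1) S δ δ'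
    (fun l => ev2 (y l) (Y l) (derivative (Qt N Θ))) (fun l => ev2 (y l) (Y l) (tl2 N V₀))
    (fun l => ev2 (y l) (Y l) (tl2 N V₁)) (fun l => ev2 (y l) (Y l) ξ₁) t
    (fun l => lc * (∏ j ∈ Finset.univ.erase l, (y l - y j)) * (y l - ρ)) (fun l => y l - ρ)
    δ0 δ0' (fun i => ev2 ρ (zt i) (derivative (Qt N Θ))) (fun i => ev2 ρ (zt i) (tl2 N V₀))
    (fun i => ev2 ρ (zt i) (tl2 N V₁)) (fun i => ev2 ρ (zt i) ξ₁) hδ' hv0 hv1 hδ0' hu0 hu1 hN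
    (fun l => by rw [hder' l, hE l, hWe l])
  -- the Galois action
  have hPσ := PT_fix Θ 1 (X - C c) D₀ d (2 * b + 1) B ν s σ hσs hσν
  have hevσ : ∀ (F : (WN N)[X]) (z : WN N), WittVector.map (σ : N →+* N) (F.eval z) =
      (F.map (WittVector.map (σ : N →+* N))).eval (WittVector.map (σ : N →+* N) z) := by
    intro F z
    rw [eval_map, eval₂_at_apply]
  have hyσ : ∀ l, WittVector.map (σ : N →+* N) (y l) = y (τ l) := by
    intro l
    obtain ⟨l', hl'⟩ := hyu (WittVector.map (σ : N →+* N) (y l)) (by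
      have h1 := hevσ (PT N Θ 1 (X - C c) D₀ d (2 * b + 1) B ν s) (y l)
      rw [hPσ, hy0 l, map_zero] at h1
      exact h1.symm)
    have h2 := congrArg (rs N) hl'
    rw [rs_map, hyx, hyx] at h2
    have h3 : x (τ l) = x l' := by
      rw [← hσx l]
      exact h2
    rw [hl', hx h3]
  have hρσ : WittVector.map (σ : N →+* N) ρ = ρ := by
    rw [hρ, map_neg, WittVector.map_teichmuller]
    congr 2
    exact σ.commutes _
  have hδσ : ∀ l, WittVector.map (σ : N →+* N) (δ l) = δ (τ l) := by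
    intro l
    rw [hδ, hevσ, tl_fix, hyσ, ← hδ]
  have hδ0σ : WittVector.map (σ : N →+* N) δ0 = δ0 := by
    rw [hδ0, hevσ, tl_fix, hρσ]
  have hlcσ : WittVector.map (σ : N →+* N) lc = lc := by
    rw [hlc, leadingCoeff, ← coeff_map, hPσ]
  have hSσ : WittVector.map (σ : N →+* N) S = S := by
    rw [hS, WittVector.map_teichmuller]
    congr 1
  have hztσ : ∀ i, WittVector.map (σ : N →+* N) (zt i) = zt (τ₀ i) := by
    intro i
    obtain ⟨i', hi'⟩ := hztu (WittVector.map (σ : N →+* N) (zt i)) (by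
      have h1 := ev2_map (WittVector.map (σ : N →+* N)) ρ (zt i) (Qt N Θ)
      rw [hzt0 i, map_zero, hρσ, Qt_fix] at h1
      exact h1.symm)
    have h2 := congrArg (rs N) hi'
    rw [rs_map, hzt, hzt] at h2
    have h3 : zz (τ₀ i) ^ 8 = zz i' ^ 8 := by
      rw [← hσz i, ← map_pow]
      exact h2
    rw [hi', hzz (Pool.Agent.L7h89.TP.pow8_inj h3)]
  have hSu : IsUnit S := IsUnit.of_mul_eq_one _ hSS
  have hδu : ∀ l, IsUnit (δ l) := fun l => IsUnit.of_mul_eq_one _ (hδ' l)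
  have hwu : ∀ l, IsUnit (y l - ρ) := fun l => by
    rw [isUnit_iff_exists_inv']
    exact ⟨w' l, hw'' l⟩
  have hEu : ∀ l, IsUnit ((ET N (X - C c) D₀ (2 * b + 1) s).eval (y l)) := fun l => by
    rw [hE l, hWe l]
    exact hSu.mul ((hwu l).mul ((hδu l).pow _))
  have hYσ : ∀ l, WittVector.map (σ : N →+* N) (Y l) = Y (τ l) := by
    intro l
    have h1 := congrArg (WittVector.map (σ : N →+* N)) (hY l)
    rw [map_mul, hevσ, hevσ, GT_fix 1 (X - C c) D₀ (2 * b + 1) B ν σ hσν,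
      ET_fix (X - C c) D₀ (2 * b + 1) s σ hσs, hyσ, hY (τ l)] at h1
    exact ((hEu (τ l)).mul_left_cancel h1).symm
  have hv0σ : ∀ l, WittVector.map (σ : N →+* N) (ev2 (y l) (Y l) (tl2 N V₀)) =
      ev2 (y (τ l)) (Y (τ l)) (tl2 N V₀) := by
    intro l
    rw [ev2_map, hyσ, hYσ, tl2_fix]
  have hu0σ : ∀ i, WittVector.map (σ : N →+* N) (ev2 ρ (zt i) (tl2 N V₀)) =
      ev2 ρ (zt (τ₀ i)) (tl2 N V₀) := by
    intro i
    rw [ev2_map, hρσ, hztσ, tl2_fix]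
  have hunit : ∀ (e q q' : WN N), IsUnit e → (∃ c, q * q' = e ^ b + 2 * c) → IsUnit q := by
    rintro e q q' he ⟨c, hc⟩
    apply isUnit_of_rs
    intro h0
    have h1 := congrArg (rs N) hc
    rw [map_mul, h0, zero_mul, map_add, map_mul, rs_two, zero_mul, add_zero, map_pow] at h1
    exact rs_ne (he.pow b) (by rw [map_pow]; exact h1.symm)
  have hv0u : ∀ l, IsUnit (ev2 (y l) (Y l) (tl2 N V₀)) := fun l => hunit _ _ _ (hδu l) (hv1 l)
  have hu0u : ∀ i, IsUnit (ev2 ρ (zt i) (tl2 N V₀)) := fun i => hunit _ _ _ hδ0u (hu1 i)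
  -- the discriminant of the special fibre
  obtain ⟨V, hV⟩ : ∃ V, V = (Matrix.vandermonde zt).det := ⟨_, rfl⟩
  have hVd : ∏ i, ev2 ρ (zt i) (derivative (Qt N Θ)) = (-1) ^ (d * (d - 1) / 2) * V ^ 2 := by
    rw [hV, ← Pool.Agent.L7h97.TP.disc_vdm]
    exact Finset.prod_congr rfl fun i _ => hT0 i
  have hVσ : WittVector.map (σ : N →+* N) V = ((Equiv.Perm.sign τ₀ : ℤˣ) : ℤ) • V := by
    rw [hV, RingHom.map_det]
    have h1 : (WittVector.map (σ : N →+* N)).mapMatrix (Matrix.vandermonde zt) =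
        (Matrix.vandermonde zt).submatrix τ₀ id := by
      ext1 i j
      simp only [RingHom.mapMatrix_apply, Matrix.map_apply, Matrix.vandermonde_apply, map_pow,
        Matrix.submatrix_apply, id]
      rw [hztσ i]
    rw [h1, Matrix.det_permute, zsmul_eq_mul]
  have hVu : IsUnit V := by
    have h1 : IsUnit (∏ i, ev2 ρ (zt i) (derivative (Qt N Θ))) := by
      apply isUnit_of_rs
      rw [map_prod, Finset.prod_ne_zero_iff]
      intro i _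
      rw [hT0 i]
      have h2 : IsUnit (∏ j ∈ Finset.univ.erase i, (zt i - zt j)) := by
        rw [isUnit_iff_exists_inv']
        exact ⟨v0 i, hv0' i⟩
      exact rs_ne h2
    rw [hVd] at h1
    exact (isUnit_pow_iff (by norm_num)).1 (isUnit_of_mul_isUnit_right h1)
  -- the number of points
  obtain ⟨k, hk⟩ : ∃ k, np (X - C c) (D₀ ^ (2 * b + 1)) d B = 8 * d * k + d :=
    ⟨B + (D₀ ^ (2 * b + 1)).natDegree, by rw [np, natDegree_X_sub_C]; ring⟩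
  obtain ⟨f, hf⟩ : ∃ f, d = 4 * f + 2 := ⟨d / 4, by omega⟩
  obtain ⟨hh, hhh⟩ : ∃ hh, np (X - C c) (D₀ ^ (2 * b + 1)) d B = 2 * hh := by
    refine ⟨4 * d * k + 2 * f + 1, ?_⟩
    rw [hk]
    have : 8 * d * k = 2 * (4 * d * k) := by ring
    omega
  have hsgnd : (-1 : WN N) ^ (d * (d - 1) / 2) = -1 := by
    have h1 : d * (d - 1) / 2 = 2 * (4 * f ^ 2 + 3 * f) + 1 := by
      rw [hf]
      have h2 : (4 * f + 2) * (4 * f + 2 - 1) = 2 * (2 * (4 * f ^ 2 + 3 * f) + 1) := by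
        have h3 : 4 * f + 2 - 1 = 4 * f + 1 := by omega
        rw [h3]
        ring
      rw [h2, Nat.mul_div_cancel_left _ (by norm_num)]
    rw [h1, pow_succ, pow_mul, neg_one_sq, one_pow, one_mul]
  have hsgn : (-1 : WN N) ^ (np (X - C c) (D₀ ^ (2 * b + 1)) d B *
      (np (X - C c) (D₀ ^ (2 * b + 1)) d B - 1) / 2) = -1 := by
    obtain ⟨g, hg⟩ : ∃ g, np (X - C c) (D₀ ^ (2 * b + 1)) d B = 4 * g + 2 := by
      refine ⟨2 * d * k + f, ?_⟩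
      rw [hk]
      have : 8 * d * k = 4 * (2 * d * k) := by ring
      omega
    have h1 : np (X - C c) (D₀ ^ (2 * b + 1)) d B *
        (np (X - C c) (D₀ ^ (2 * b + 1)) d B - 1) / 2 = 2 * (4 * g ^ 2 + 3 * g) + 1 := by
      rw [hg]
      have h2 : (4 * g + 2) * (4 * g + 2 - 1) = 2 * (2 * (4 * g ^ 2 + 3 * g) + 1) := by
        have h3 : 4 * g + 2 - 1 = 4 * g + 1 := by omega
        rw [h3]
        ring
      rw [h2, Nat.mul_div_cancel_left _ (by norm_num)]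
    rw [h1, pow_succ, pow_mul, neg_one_sq, one_pow, one_mul]
  have hΩσ : WittVector.map (σ : N →+* N) (∏ l, (y l - ρ)) = ∏ l, (y l - ρ) := by
    rw [map_prod, ← Equiv.prod_comp τ (fun l => y l - ρ)]
    refine Finset.prod_congr rfl fun l _ => ?_
    rw [map_sub, hyσ, hρσ]
  have hΩu : IsUnit (∏ l, (y l - ρ)) := by
    apply isUnit_of_rs
    rw [map_prod]
    exact Finset.prod_ne_zero_iff.2 fun l _ => rs_ne (hwu l)
  obtain ⟨Om, hOm⟩ : ∃ Om, Om = ∏ l, (y l - ρ) := ⟨_, rfl⟩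
  rw [← hOm] at hΩσ hΩu
  obtain ⟨Da, hDa⟩ : ∃ Da, Da = ∏ l, δ l ^ (4 * a) := ⟨_, rfl⟩
  obtain ⟨U, hU⟩ : ∃ U, U = ∏ i, ev2 ρ (zt i) (tl2 N V₀) ^ 4 := ⟨_, rfl⟩
  obtain ⟨Pv, hPv⟩ : ∃ Pv, Pv = ∏ l, (δ l ^ (4 * (2 * b + 1)) *
    (δ l ^ (4 * (2 * b + 1))) ^ (d - 1) * ev2 (y l) (Y l) (tl2 N V₀) ^ 4) := ⟨_, rfl⟩
  have hDaσ : WittVector.map (σ : N →+* N) Da = Da := by
    rw [hDa, map_prod, ← Equiv.prod_comp τ (fun l => δ l ^ (4 * a))]
    refine Finset.prod_congr rfl fun l _ => ?_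
    rw [map_pow, hδσ]
  have hUσ : WittVector.map (σ : N →+* N) U = U := by
    rw [hU, map_prod, ← Equiv.prod_comp τ₀ (fun i => ev2 ρ (zt i) (tl2 N V₀) ^ 4)]
    refine Finset.prod_congr rfl fun i _ => ?_
    rw [map_pow, hu0σ]
  have hPvσ : WittVector.map (σ : N →+* N) Pv = Pv := by
    rw [hPv, map_prod, ← Equiv.prod_comp τ (fun l => δ l ^ (4 * (2 * b + 1)) *
      (δ l ^ (4 * (2 * b + 1))) ^ (d - 1) * ev2 (y l) (Y l) (tl2 N V₀) ^ 4)]
    refine Finset.prod_congr rfl fun l _ => ?_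
    simp only [map_mul, map_pow, hδσ, hv0σ]
  have hDau : IsUnit Da := by
    rw [hDa]
    refine isUnit_of_rs ?_
    rw [map_prod]
    exact Finset.prod_ne_zero_iff.2 fun l _ => rs_ne ((hδu l).pow _)
  have hUu : IsUnit U := by
    rw [hU]
    refine isUnit_of_rs ?_
    rw [map_prod]
    exact Finset.prod_ne_zero_iff.2 fun i _ => rs_ne ((hu0u i).pow _)
  have hPvu : IsUnit Pv := by
    rw [hPv]
    refine isUnit_of_rs ?_
    rw [map_prod]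
    exact Finset.prod_ne_zero_iff.2 fun l _ => rs_ne
      ((((hδu l).pow _).mul (((hδu l).pow _).pow _)).mul ((hv0u l).pow _))
  have hlcn : lc ^ np (X - C c) (D₀ ^ (2 * b + 1)) d B = lc ^ (2 * hh) := by rw [hhh]
  have e1 : ∏ l, (lc * (∏ j ∈ Finset.univ.erase l, (y l - y j)) * (y l - ρ) * δ l ^ (8 * a)) =
      lc ^ (2 * hh) * (∏ l, ∏ j ∈ Finset.univ.erase l, (y l - y j)) * Om * Da ^ 2 := by
    rw [hOm, hDa, Finset.prod_mul_distrib, Finset.prod_mul_distrib, Finset.prod_mul_distrib,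
      Finset.prod_const, Finset.card_univ, Fintype.card_fin, hlcn, ← Finset.prod_pow]
    have e0 : ∀ l, δ l ^ (8 * a) = (δ l ^ (4 * a)) ^ 2 := fun l => by
      rw [← pow_mul]
      congr 1
      ring
    rw [Finset.prod_congr rfl fun l _ => e0 l]
  have e2 : ∏ i, ev2 ρ (zt i) (tl2 N V₀) ^ 8 = U ^ 2 := by
    rw [hU, ← Finset.prod_pow]
    refine Finset.prod_congr rfl fun l _ => ?_
    rw [← pow_mul]
  have e3 : ∏ l, -(δ l ^ (8 * (2 * b + 1)) *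
      (S * ((y l - ρ) * δ l ^ (8 * (2 * b + 1)))) ^ (d - 1) *
      ev2 (y l) (Y l) (tl2 N V₀) ^ 8) =
      Pv ^ 2 * S ^ (2 * (hh * (d - 1))) * Om ^ (d - 1) := by
    have e4 : S ^ (2 * (hh * (d - 1))) =
        ∏ _l : Fin (np (X - C c) (D₀ ^ (2 * b + 1)) d B), S ^ (d - 1) := by
      rw [Finset.prod_const, Finset.card_univ, Fintype.card_fin, ← pow_mul]
      rw [hhh]
      congr 1
      ring
    have e5 : (1 : WN N) = ∏ _l : Fin (np (X - C c) (D₀ ^ (2 * b + 1)) d B), (-1 : WN N) := by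
      rw [Finset.prod_const, Finset.card_univ, Fintype.card_fin, hhh, pow_mul, neg_one_sq,
        one_pow]
    have e0 : ∀ l, -(δ l ^ (8 * (2 * b + 1)) *
        (S * ((y l - ρ) * δ l ^ (8 * (2 * b + 1)))) ^ (d - 1) *
        ev2 (y l) (Y l) (tl2 N V₀) ^ 8) = (-1) * ((δ l ^ (4 * (2 * b + 1)) *
          (δ l ^ (4 * (2 * b + 1))) ^ (d - 1) * ev2 (y l) (Y l) (tl2 N V₀) ^ 4) ^ 2 *
          S ^ (d - 1) * (y l - ρ) ^ (d - 1)) := fun l => by
      have e9 : δ l ^ (8 * (2 * b + 1)) = (δ l ^ (4 * (2 * b + 1))) ^ 2 := by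
        rw [← pow_mul]
        congr 1
        ring
      rw [e9]
      generalize δ l ^ (4 * (2 * b + 1)) = q1
      generalize ev2 (y l) (Y l) (tl2 N V₀) = q2
      rw [mul_pow, mul_pow]
      ring
    rw [Finset.prod_congr rfl fun l _ => e0 l, Finset.prod_mul_distrib, ← e5, one_mul,
      Finset.prod_mul_distrib, Finset.prod_mul_distrib, ← e4, Finset.prod_pow, Finset.prod_pow,
      ← hPv, ← hOm]
  have e6 : ∏ i, (ev2 ρ (zt i) (derivative (Qt N Θ)) * δ0 ^ (8 * a)) =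
      -V ^ 2 * (δ0 ^ (4 * a * d)) ^ 2 := by
    rw [Finset.prod_mul_distrib, hVd, hsgnd, Finset.prod_const, Finset.card_univ,
      Fintype.card_fin, neg_one_mul, ← pow_mul, ← pow_mul]
    congr 2
    ring
  have e7 : Om ^ (d - 1) * Om = (Om ^ (2 * f + 1)) ^ 2 := by
    rw [← pow_succ, ← pow_mul]
    congr 1
    omega
  have hz' : lc ^ (2 * hh) * (∏ l, ∏ j ∈ Finset.univ.erase l, (y l - y j)) * Om * Da ^ 2 * U ^ 2 =
      Pv ^ 2 * S ^ (2 * (hh * (d - 1))) * Om ^ (d - 1) * (-V ^ 2 * (δ0 ^ (4 * a * d)) ^ 2) +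
        8 * z := by
    rw [← e1, ← e2, ← e3, ← e6]
    exact hz
  rw [pow_mul' lc 2 hh, pow_mul' S 2 (hh * (d - 1))] at hz'
  have hfin := fin_alg _ _ _ _ _ _ _ _ _ _ _ _ hz' e7
  rw [← hsgn] at hfin
  refine hSGN N _ y σ τ (lc ^ hh * Da * U * Om)
    (Pv * S ^ (hh * (d - 1)) * Om ^ (2 * f + 1) * δ0 ^ (4 * a * d) * V) (z * Om)
    (Equiv.Perm.sign τ₀) ?_ hyσ ?_ ?_ ?_ ?_ hfin
  · intro i j hij
    change rs N (y i) = rs N (y j) at hij
    rw [hyx, hyx] at hij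
    exact hx hij
  · change WittVector.map (σ : N →+* N) _ = _
    rw [map_mul, map_mul, map_mul, map_pow, hlcσ, hΩσ, hDaσ, hUσ]
  · change WittVector.map (σ : N →+* N) _ = _
    rw [map_mul, hVσ, mul_smul_comm, map_mul, map_mul, map_mul, map_pow, map_pow, map_pow, hΩσ,
      hSσ, hδ0σ, hPvσ]
  · exact (((IsUnit.pow _ (IsUnit.of_mul_eq_one _ hlc')).mul hDau).mul hUu).mul hΩu
  · exact (((hPvu.mul (hSu.pow _)).mul (hΩu.pow _)).mul (hδ0u.pow _)).mul hVu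

end Pool.Agent.L7h25.TP
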