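import Mathlib
import Pool.Agent.N70.PP.VocB
import Pool.Agent.L7h25.TP.Fin
import Pool.Agent.L7h25.TP.MainB
import Pool.Agent.L7h25.TP.ParE
import Pool.Agent.L7h97.TP.LagB
import Pool.Agent.L7h76.TP.Spz

/-!
The second main theorem in characteristic 2 (project TP). Adapted from `Pool.Agent.N70.PP.Un`,
`Pool.Agent.N70.PP.Fp`, `Pool.Agent.N70.PP.VocB` (helper70).
-/

set_option autoImplicit false
set_option linter.unusedSectionVars false

namespace Pool.Agent.L7h25.TP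

open Pool.Agent.H391R2 (Wr)
open Pool.Agent.H391R2.T4 (RegSol WeakSol finite_wr)
open Pool.Agent.Y793 (AltTw twProj regSol_iso)
open Pool.Agent.TH444.TW (RSK)
open Pool.Agent.TH377.IG (FP prFP)
open Pool.Agent.N600.ZQ (ReducesP SameP)
open Pool.Agent.N70.EP (ker_symm_comp)
open Pool.Agent.N70.EP.Voc Pool.Agent.N70.PP.Voc
open Pool.Agent.N70.PP (transferP rsk_twP hyp twE occursIff_of occursIf_of sameP_of_rsk twPr_surj'
  solvableAll_of solvable_of_regSol weak_of_split weak_of_over aD FibP FibP.red FibP.weak kerD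
  reducesP_quot sameP_of)

/-- The split case, uniformly in the fields. -/
theorem main8Bu (H B : Type) [Group H] [Finite H] [Group B] [Finite B] (a : B →* H) (s : H →* B)
    (hs : ∀ h, a (s h) = h) (hperf : commutator a.ker = ⊤) (r : ℕ) (hr : Odd r)
    (hr2 : ((72 * Nat.card a.ker + 2).factorial) ^ 3 ≤ r) :
    ∃ n₀ : ℕ, ∀ n ≥ n₀, Deg8 (6 * r) n → ∀ χ : H →* ℤˣ, RSK (ZMod 2) (twProj a χ n) := by
  have : Fact (Nat.Prime 2) := ⟨Nat.prime_two⟩
  obtain ⟨K₀, L₀, i1, i2, i3, i4, i5, i6, i7, e₀, h⟩ := transferP hyp 2 H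
  have hk := ker_symm_comp e₀ a
  have ha : Function.Surjective a := fun h => ⟨s h, hs h⟩
  obtain ⟨n₀, hn₀⟩ := mainB8 hyp.toPieces Pool.Agent.Y421.AW.t_res Pool.Agent.L7h76.TP.t_pts
    Pool.Agent.L7h89.TP.t_LIN Pool.Agent.L7h89.TP.t_IND
    (t_PARB Pool.Agent.L7h97.TP.t_HEN Pool.Agent.L7h97.TP.t_SGN Pool.Agent.L7h97.TP.t_LAGB
      Pool.Agent.L7h97.TP.t_LAGC Pool.Agent.L7h97.TP.t_NRMB Pool.Agent.L7h76.TP.t_ins)
    Pool.Agent.L7h76.TP.s_SPZ K₀ L₀ B ((e₀.symm : H →* (L₀ ≃ₐ[K₀] L₀)).comp a)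
    (e₀.symm.surjective.comp ha) (by rw [hk]; exact hperf)
    (weak_of_split K₀ L₀ B _ (s.comp (e₀ : (L₀ ≃ₐ[K₀] L₀) →* H)) (fun ρ => by
      change e₀.symm (a (s (e₀ ρ))) = ρ
      rw [hs, e₀.symm_apply_apply])) r hr (by rw [hk]; exact hr2)
  exact ⟨n₀, fun n hn hd χ => rsk_twP 2 a χ _ e₀ h (hn₀ n hn hd _)⟩

theorem fibP8_main (B W : Type) [Group B] [Finite B] [Group W]
    [Finite W] (α : B →* W) (hperf : commutator α.ker = ⊤) (r : ℕ) (hr : Odd r)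
    (hr2 : ((72 * Nat.card α.ker + 2).factorial) ^ 3 ≤ r) :
    ∃ n₀ : ℕ, ∀ n ≥ n₀, Deg8 (6 * r) n → ∀ (χ : W →* ℤˣ) (D : Subgroup B),
      Function.Surjective (aD α D) → RSK (ZMod 2) (twProj (prFP α (aD α D)) (χ.comp (aD α D)) n) := by
  have h1 : ∀ D : Subgroup B, ∃ n₀ : ℕ, ∀ n ≥ n₀, Deg8 (6 * r) n → ∀ χ : D →* ℤˣ,
      RSK (ZMod 2) (twProj (prFP α (aD α D)) χ n) := by
    intro D
    obtain ⟨e⟩ := kerD α D
    have hfD : Finite D := inferInstance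
    have hfF : Finite (FP α (aD α D)) := inferInstance
    refine main8Bu D (FP α (aD α D)) (prFP α (aD α D))
      { toFun := fun d => ⟨((d : B), d), rfl⟩
        map_one' := rfl
        map_mul' := fun _ _ => rfl } (fun d => rfl) (Y793.perf_congr e hperf) r hr ?_
    rw [← Nat.card_congr e.toEquiv]
    exact hr2
  choose κ hκ using h1
  have hfS : Finite (Subgroup B) := inferInstance
  obtain ⟨k₀, hk₀⟩ : ∃ k₀, ∀ D, κ D ≤ k₀ := by
    obtain ⟨k₀, hk₀⟩ := (Set.finite_range κ).bddAbove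
    exact ⟨k₀, fun D => hk₀ ⟨D, rfl⟩⟩
  exact ⟨k₀, fun n hn hd χ D _ => hκ D n ((hk₀ D).trans hn) hd _⟩

theorem deg8_of {r q : ℕ} (hr : Odd r) (hq : q.Prime) (hd : 48 * r ∣ q + 1) :
    Deg8 (6 * r) (q + 6 * r + 1) := by
  refine ⟨q, hq, by omega, ?_⟩
  obtain ⟨c, hc⟩ := hd
  have h1 : q + 6 * r + 1 = 6 * r + (8 * (6 * r)) * c := by
    have h2 : 48 * r * c = (8 * (6 * r)) * c := by ring
    omega
  rw [h1, Nat.add_mul_mod_self_left, Nat.mod_eq_of_lt]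
  have hr0 : 0 < r := by
    obtain ⟨r', hr'⟩ := hr
    omega
  omega

section main

variable {B W : Type} [Group B] [Finite B] [Group W]
  [Finite W] (α : B →* W) (hα : Function.Surjective α) (hperf : commutator α.ker = ⊤)

include hα hperf

/-- The characters. -/
theorem fib_all8 (r : ℕ) (hr : Odd r) (hr2 : ((72 * Nat.card α.ker + 2).factorial) ^ 3 ≤ r) :
    ∃ q₀ : ℕ, ∀ q ≥ q₀, q.Prime → 48 * r ∣ q + 1 → ∀ χ : W →* ℤˣ,
      (∀ D : Subgroup B, (∀ w : W, ∃ d ∈ D, α d = w) →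
        OccursIf 2 (TwPow α χ (q + 6 * r + 1)) D) ∧
      (∀ (K L : Type) [Field K] [CharP K 2] [Field L] [Algebra K L] [FiniteDimensional K L]
        [IsGalois K L] (ε : (L ≃ₐ[K] L) ≃* W),
        WeakSolutionOver (ε.symm.toMonoidHom.comp α) K →
        Solvable (ε.symm.toMonoidHom.comp (twPr α χ (q + 6 * r + 1)))) ∧
      ((∃ s : W →* B, ∀ w, α (s w) = w) →
        OccursIff 2 (TwPow α χ (q + 6 * r + 1)) W ∧
        SolvableAll 2 (twPr α χ (q + 6 * r + 1))) := by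
  have : Fact (Nat.Prime 2) := ⟨Nat.prime_two⟩
  obtain ⟨n₀, hn₀⟩ := fibP8_main B W α hperf r hr hr2
  refine ⟨n₀ + 2, fun q hq hqp hd χ => ?_⟩
  obtain ⟨n, hn⟩ : ∃ n, n = q + 6 * r + 1 := ⟨_, rfl⟩
  rw [← hn]
  have hdeg : Deg8 (6 * r) n := by
    rw [hn]
    exact deg8_of hr hqp hd
  have hF : FibP 2 α n := hn₀ n (by omega) hdeg
  have hf : Finite (Wr B n) := finite_wr B n
  have hf2 : Finite (TwPow α χ n) := Finite.of_injective Subtype.val Subtype.val_injective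
  have hf3 : Finite (AltTw α χ n) := inferInstance
  have hredE : ReducesP 2 (AltTw α χ n) (TwPow α χ n) :=
    reducesP_quot (twE α χ n).symm.toMonoidHom (twE α χ n).symm.surjective
  have h1 : ∀ D : Subgroup B, (∀ w : W, ∃ d ∈ D, α d = w) → ReducesP 2 D (TwPow α χ n) := by
    intro D hD
    have h2 := hF.red χ D (fun w => by
      obtain ⟨d, hd, hw⟩ := hD w
      exact ⟨⟨d, hd⟩, hw⟩)
    exact ⟨fun κ _ _ _ h => hredE.1 κ (h2.1 κ h), fun K _ _ hK h => hredE.2.1 K hK (h2.2.1 K hK h),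
      fun K _ _ h => hredE.2.2 K (h2.2.2 K h)⟩
  have h2 : ∀ (K L : Type) [Field K] [CharP K 2] [Field L] [Algebra K L] [FiniteDimensional K L]
        [IsGalois K L] (ε : (L ≃ₐ[K] L) ≃* W),
        WeakSol K L B (ε.symm.toMonoidHom.comp α) →
        Solvable (ε.symm.toMonoidHom.comp (twPr α χ n)) := by
    intro K L _ _ _ _ _ _ ε hw
    have h3 := hF.weak χ K L ε hw
    exact solvable_of_regSol (regSol_iso K L _ _ _ _ (twE α χ n).symm (fun z => rfl) h3)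
  refine ⟨fun D hD => occursIf_of (h1 D hD), fun K L _ _ _ _ _ _ ε hw =>
    h2 K L ε (weak_of_over _ hw), ?_⟩
  rintro ⟨s, hs⟩
  constructor
  · apply occursIff_of
    refine sameP_of (reducesP_quot (twPr α χ n) (twPr_surj' α χ n hα (by omega))) ?_
    have h3 : ReducesP 2 W s.range := reducesP_quot s.rangeRestrict
      (MonoidHom.rangeRestrict_surjective s)
    have h4 := h1 s.range (fun w => ⟨s w, ⟨w, rfl⟩, hs w⟩)
    exact ⟨fun κ _ _ _ h => h4.1 κ (h3.1 κ h), fun K _ _ hK h => h4.2.1 K hK (h3.2.1 K hK h),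
      fun K _ _ h => h4.2.2 K (h3.2.2 K h)⟩
  · intro K L _ _ _ _ _ _ ε
    refine h2 K L ε ?_
    refine weak_of_split K L B _ (s.comp (ε : (L ≃ₐ[K] L) →* W)) (fun ρ => ?_)
    change ε.symm (α (s (ε ρ))) = ρ
    rw [hs, ε.symm_apply_apply]

end main

end Pool.Agent.L7h25.TP
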