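import Mathlib
import Pool.Agent.N70.PP.VocKB
import Pool.Agent.L7h25.TP.FinB

/-!
Kernels `G ≀ A_n` in characteristic 2 (project TP). Adapted from `Pool.Agent.N70.PP.Ka` (helper70).
-/

set_option autoImplicit false
set_option linter.unusedSectionVars false

namespace Pool.Agent.L7h25.TP

open Pool.Agent.H391R2 (Wr)
open Pool.Agent.H391R2.T4 (RegSol WeakSol finite_wr)
open Pool.Agent.Y793 (AWr AltTw twProj regSol_iso)
open Pool.Agent.TH444.TW (RSK)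
open Pool.Agent.N70.EP (pB FB exists_sec exists_kerEquiv exists_pull)
open Pool.Agent.N600.UK (Out cls cls_eq_one conj_inj cl_of_center)
open Pool.Agent.N70.EP.Voc Pool.Agent.N70.PP.Voc
open Pool.Agent.N70.PP (GoodP sec_of_lift)

theorem rsk_kerA8 (G : Type) [Group G] [Finite G]
    (hZ : ∀ z : G, (∀ g : G, z * g = g * z) → z = 1) (hperf : commutator G = ⊤)
    (r : ℕ) (hr : Odd r) (hr2 : ((72 * Nat.card G + 2).factorial) ^ 3 ≤ r) :
    ∃ n₀ : ℕ, ∀ n ≥ n₀, Deg8 (6 * r) n → ∀ (Γ : Type) [Group Γ] [Finite Γ]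
      (a : Γ →* MulAut G) (χ : Γ →* ℤˣ), RSK (ZMod 2) (twProj (pB ((cls G).comp a)) χ n) := by
  have hfin : Finite (MulAut G) := Finite.of_injective (fun a : MulAut G => (a : G → G))
    DFunLike.coe_injective
  have h1 : ∀ W : Subgroup (MulAut G × ℤˣ), ∃ n₀ : ℕ, ∀ n ≥ n₀, Deg8 (6 * r) n →
      RSK (ZMod 2) (twProj (pB ((cls G).comp ((MonoidHom.fst (MulAut G) ℤˣ).comp W.subtype)))
        ((MonoidHom.snd (MulAut G) ℤˣ).comp W.subtype) n) := by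
    intro W
    obtain ⟨s, hs⟩ := sec_of_lift ((MonoidHom.fst (MulAut G) ℤˣ).comp W.subtype)
    obtain ⟨e⟩ := exists_kerEquiv ((cls G).comp ((MonoidHom.fst (MulAut G) ℤˣ).comp W.subtype)) hZ
    have hfW : Finite W := inferInstance
    obtain ⟨n₀, hn₀⟩ := main8Bu W _
      (pB ((cls G).comp ((MonoidHom.fst (MulAut G) ℤˣ).comp W.subtype))) s hs
      (Y793.perf_congr e hperf) r hr (by
        rw [← Nat.card_congr e.toEquiv]
        exact hr2)
    exact ⟨n₀, fun n hn hd => hn₀ n hn hd _⟩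
  choose κ hκ using h1
  have hfS : Finite (Subgroup (MulAut G × ℤˣ)) := inferInstance
  obtain ⟨k₀, hk₀⟩ : ∃ k₀, ∀ W, κ W ≤ k₀ := by
    obtain ⟨k₀, hk₀⟩ := (Set.finite_range κ).bddAbove
    exact ⟨k₀, fun W => hk₀ ⟨W, rfl⟩⟩
  refine ⟨k₀, fun n hn hd Γ _ _ a χ => ?_⟩
  let W : Subgroup (MulAut G × ℤˣ) := (a.prod χ).range
  let ρ : Γ →* W := (a.prod χ).rangeRestrict
  have h2 := hκ W n ((hk₀ W).trans hn) hd
  have hW : Finite (Wr (FB ((cls G).comp ((MonoidHom.fst (MulAut G) ℤˣ).comp W.subtype))) n) :=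
    finite_wr _ _
  have h3 := Pool.Agent.N75.EP.t_pul (ZMod 2) W _ Γ
        (twProj (pB ((cls G).comp ((MonoidHom.fst (MulAut G) ℤˣ).comp W.subtype)))
        ((MonoidHom.snd (MulAut G) ℤˣ).comp W.subtype) n) ρ
        (MonoidHom.rangeRestrict_surjective _) h2
  obtain ⟨e, he⟩ := exists_pull ((cls G).comp ((MonoidHom.fst (MulAut G) ℤˣ).comp W.subtype)) ρ
    ((MonoidHom.snd (MulAut G) ℤˣ).comp W.subtype) n
  exact RSK.congr h3 e he

theorem bound8 {g r q : ℕ} (hr : ((72 * g + 2).factorial) ^ 3 ≤ r) :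
    2 * (g + 4) ≤ q + 6 * r + 1 := by
  have h1 : 72 * g + 2 ≤ (72 * g + 2).factorial := Nat.self_le_factorial _
  have h2 : (72 * g + 2).factorial ^ 1 ≤ (72 * g + 2).factorial ^ 3 :=
    Nat.pow_le_pow_right (Nat.factorial_pos _) (by omega)
  rw [pow_one] at h2
  omega

/-- The numbers in characteristic 2. -/
def Numbers8 (κ : ∀ (G : Type) [Group G], ℕ → ℕ) (G : Type) [Group G] : Set ℕ :=
  {n | ∃ r q : ℕ, Odd r ∧ ((72 * Nat.card G + 2).factorial) ^ 3 ≤ r ∧ κ G r ≤ q ∧ q.Prime ∧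
    48 * r ∣ q + 1 ∧ n = q + 6 * r + 1}

/-- The bounds. -/
theorem exists_kappa8 [Fact (Nat.Prime 2)] :
    ∃ κ : (∀ (G : Type) [Group G], ℕ → ℕ), ∀ (G : Type) [Group G],
    Centreless G → commutator G = ⊤ → ∀ n ∈ Numbers8 κ G, GoodP 2 G n := by
  have h1 : ∀ (G : Type) [Group G] (r : ℕ), ∃ k₀ : ℕ, Centreless G → commutator G = ⊤ → Odd r →
      ((72 * Nat.card G + 2).factorial) ^ 3 ≤ r → ∀ n ≥ k₀, Deg8 (6 * r) n →
      ∀ (Γ : Type) [Group Γ] [Finite Γ] (a : Γ →* MulAut G) (χ : Γ →* ℤˣ),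
        RSK (ZMod 2) (twProj (N70.EP.pB ((Pool.Agent.N600.UK.cls G).comp a)) χ n) := by
    intro G _ r
    by_cases h : Centreless G ∧ commutator G = ⊤ ∧ Odd r ∧
        ((72 * Nat.card G + 2).factorial) ^ 3 ≤ r
    · obtain ⟨hG, hP, hr, hr'⟩ := h
      have h2 := hG.finite
      obtain ⟨k₀, hk₀⟩ := rsk_kerA8 G (cl_of_center hG.center) hP r hr hr'
      exact ⟨k₀, fun _ _ _ _ => hk₀⟩
    · exact ⟨0, fun a b c d => absurd ⟨a, b, c, d⟩ h⟩
  choose κ hκ using h1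
  refine ⟨κ, fun G _ hG hP n hn => ?_⟩
  obtain ⟨r, q, hr, hr', hq, hqp, hd, rfl⟩ := hn
  have h2 := hG.finite
  exact ⟨bound8 hr', hκ G r hG hP hr hr' _ (by omega) (deg8_of hr hqp hd)⟩

end Pool.Agent.L7h25.TP
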