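import Mathlib
import Pool.Agent.N70.PP.VocK
import Pool.Agent.L7h25.LG.VocB

/-!
# A class of kernels in characteristic `p`, all primes `p`

`Pool.Agent.N70.EP.VocC` has the definitions `AltWreath` (the wreath product `G ≀ A_n`), `InnerAut`
(the group `Inn G`) and `Centreless` (nontrivial, finite, trivial centre),
`Pool.Agent.L7h25.LG.VocB` the definition of `FactorC`.
-/

set_option autoImplicit false

namespace Pool.Agent.L7h25.TP

open Pool.Agent.N70.EP.Voc Pool.Agent.N70.PP.Voc
open Pool.Agent.L7h25.LG (FactorC)

/-- The numbers `n = q + 6 r p + 1` with `q ≡ -1` modulo `12 r p` if `p` is odd, and the numbers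
`n = q + 6 r + 1` with `q ≡ -1` modulo `48 r` if `p = 2`; `r` is odd, `r ≥ ((72 |G| + 2)!) ^ 3`,
`q ≥ κ G r` is a prime. -/
def NumbersM (κ : ∀ (G : Type) [Group G], ℕ → ℕ) (p : ℕ) (G : Type) [Group G] : Set ℕ :=
  {n | ∃ r q : ℕ, Odd r ∧ ((72 * Nat.card G + 2).factorial) ^ 3 ≤ r ∧ κ G r ≤ q ∧ q.Prime ∧
    ((p ≠ 2 ∧ 12 * r * p ∣ q + 1 ∧ n = q + 6 * r * p + 1) ∨
      (p = 2 ∧ 48 * r ∣ q + 1 ∧ n = q + 6 * r + 1))}

/-- The smallest class of groups which
* contains `G ≀ A_n` for every nontrivial finite perfect group `G` with trivial centre such that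
  `Inn G` has a complement in `Aut G` and every `n` in `NumbersM κ p G`,
* contains `G ≀ S_n` for every nontrivial finite group `G` with trivial centre such that `Inn G` has a
  complement in `Aut G` and every `n ≥ ((3 |G| + 2)!) ^ 3`,
* contains the nonabelian simple groups with `FactorC p T` (the alternating groups `A_n`, `n ≥ 5`,
  `n ≠ 6`, the classical groups and groups of Lie type in characteristic `p` described there, and
  the simple groups without outer automorphisms which occur regularly over `F_p`),
* contains the finite groups with trivial centre all of whose automorphisms are inner which occur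
  regularly over `F_p`,
* contains `T ≀ S_n` if it contains the nontrivial group `T` and `n ≥ 2 (|T| + 2)`,
* is closed under finite direct products, direct factors, isomorphisms and characteristic extensions
  (it contains `T` if it contains `C` and `T / C` for a characteristic subgroup `C` of `T`). -/
inductive KernelsM (κ : ∀ (G : Type) [Group G], ℕ → ℕ) (p : ℕ) [Fact p.Prime] :
    ∀ (T : Type) [Group T], Prop
  | alternating (G : Type) [Group G] (hG : Centreless G) (hP : commutator G = ⊤)
      (hC : ∃ C : Subgroup (MulAut G), IsCompl C (InnerAut G)) (n : ℕ) (hn : n ∈ NumbersM κ p G) :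
      KernelsM κ p (AltWreath G n)
  | symmetric (G : Type) [Group G] (hG : Centreless G)
      (hC : ∃ C : Subgroup (MulAut G), IsCompl C (InnerAut G)) (n : ℕ)
      (hn : ((3 * Nat.card G + 2).factorial) ^ 3 ≤ n) : KernelsM κ p (Wreath G n)
  | simple (T : Type) [Group T] (hS : IsSimpleGroup T) (hN : ∃ a b : T, a * b ≠ b * a)
      (hF : FactorC p T) : KernelsM κ p T
  | complete (T : Type) [Group T] [Finite T] (hZ : Subgroup.center T = ⊥)
      (hI : ∀ a : MulAut T, ∃ g : T, a = MulAut.conj g) (hR : OccursRegularly (ZMod p) T) :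
      KernelsM κ p T
  | power (T : Type) [Group T] [Nontrivial T] (h : KernelsM κ p T) (n : ℕ)
      (hn : 2 * (Nat.card T + 2) ≤ n) : KernelsM κ p (Wreath T n)
  | prod (I : Type) [Finite I] (T : I → Type) [∀ i, Group (T i)] (h : ∀ i, KernelsM κ p (T i)) :
      KernelsM κ p (∀ i, T i)
  | factor (S T : Type) [Group S] [Group T] (h : KernelsM κ p (S × T)) : KernelsM κ p S
  | extension (T : Type) [Group T] (C : Subgroup T) [C.Characteristic] (h : KernelsM κ p C)
      (h' : KernelsM κ p (T ⧸ C)) : KernelsM κ p T
  | iso (T T' : Type) [Group T] [Group T'] (e : T ≃* T') (h : KernelsM κ p T) : KernelsM κ p T'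

end Pool.Agent.L7h25.TP
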