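import Mathlib
import Pool.Agent.L7h25.TP.VocM
import Pool.Agent.L7h25.TP.Ker
import Pool.Agent.L7h25.LG.Main

/-!
Kernels in characteristic `p`, all primes `p` (project TP). Adapted from `Pool.Agent.N70.PP.VocKB`
(helper70).
-/

set_option autoImplicit false
set_option linter.unusedSectionVars false

namespace Pool.Agent.L7h25.TP

open Pool.Agent.H391R2 (Wr)
open Pool.Agent.H391R2.T4 (RegSol WeakSol finite_wr)
open Pool.Agent.TH59.WX (finite_of_kernel)
open Pool.Agent.TH444.TW (RSK)
open Pool.Agent.N600.UK (CL cl_of_center cl_iso)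
open Pool.Agent.N70.EP.Voc Pool.Agent.N70.PP.Voc
open Pool.Agent.Y60.DC (GoodKerP)
open Pool.Agent.N70.PP (GoodP GoodP.compl exists_kappa reg_all good_completeP)
open Pool.Agent.L7h25.LG (FactorC FactorC.old FacL.good)

theorem exists_kappaM (p : ℕ) [Fact p.Prime] :
    ∃ κ : (∀ (G : Type) [Group G], ℕ → ℕ), ∀ (G : Type) [Group G],
    Centreless G → commutator G = ⊤ → ∀ n ∈ NumbersM κ p G, GoodP p G n := by
  by_cases hp : p = 2
  · subst hp
    obtain ⟨κ, hκ⟩ := exists_kappa8
    refine ⟨κ, fun G _ hG hP n hn => hκ G hG hP n ?_⟩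
    obtain ⟨r, q, h1, h2, h3, h4, h5 | h5⟩ := hn
    · exact absurd rfl h5.1
    · exact ⟨r, q, h1, h2, h3, h4, h5.2.1, h5.2.2⟩
  · obtain ⟨κ, hκ⟩ := exists_kappa p hp
    refine ⟨κ, fun G _ hG hP n hn => hκ G hG hP n ?_⟩
    obtain ⟨r, q, h1, h2, h3, h4, h5 | h5⟩ := hn
    · exact ⟨r, q, h1, h2, h3, h4, h5.2.1, h5.2.2⟩
    · exact absurd h5.1 hp

variable {p : ℕ} [Fact p.Prime]

/-- The groups of the class. -/
theorem kernelsM_main (κ : ∀ (G : Type) [Group G], ℕ → ℕ)
    (hκ : ∀ (G : Type) [Group G], Centreless G → commutator G = ⊤ →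
      ∀ n ∈ NumbersM κ p G, GoodP p G n) (T : Type) [Group T]
    (hT : KernelsM κ p T) : Finite T ∧ CL T ∧ GoodKerP p T := by
  have gd : N70.PP.St_gdp p := N555.PP.t_gdp p
  induction hT with
  | alternating G hG hP hC n hn =>
    have h2 := hG.finite
    have h3 := hG.nontrivial
    have h4 : Finite (Wr G n) := finite_wr G n
    refine ⟨Finite.of_injective Subtype.val Subtype.val_injective, ?_, ?_⟩
    · have hn1 := (hκ G hG hP n hn).1
      intro z hz
      exact N478.EP.triv_of_comm (cl_of_center hG.center) z (fun k g => hz (N891.EP.sg k g))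
    · intro K L X _ _ _ _ _ _ _ _ α hα hι
      have hf4 : Finite (AltWreath G n) := Finite.of_injective Subtype.val Subtype.val_injective
      have hfX : Finite X := finite_of_kernel α hι.some.symm
      have h5 := GoodP.compl (cl_of_center hG.center) hC (hκ G hG hP n hn) α hα hι
      exact reg_all h5 K L (MulEquiv.refl _)
  | symmetric G hG hC n hn =>
    have h2 := hG.finite
    have h3 := hG.nontrivial
    obtain ⟨h4, h5, h6⟩ := (N600.UK.Univ.wreath G hG.center hC n hn).main
    refine ⟨h4, h5, ?_⟩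
    intro K L X _ _ _ _ _ _ _ _ α hα hι
    exact h6 K L X α hα hι
  | simple T hS hN hF =>
    rcases FacL.good T (FactorC.old hF) with h | ⟨h1, h2, h3⟩
    · exfalso
      obtain ⟨a, b, hab⟩ := hN
      have hfin : Finite T := Nat.finite_of_card_ne_zero (by
        rw [h]
        exact (Fact.out : p.Prime).ne_zero)
      have : IsCyclic T := isCyclic_of_prime_card h
      exact hab (IsCyclic.commGroup.mul_comm a b)
    · exact ⟨h1, cl_of_center h2, h3⟩
  | complete T hZ hI hR =>
    exact ⟨inferInstance, cl_of_center hZ, good_completeP (cl_of_center hZ) hI hR⟩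
  | power T h n hn ih =>
    obtain ⟨h1, h2, h3⟩ := ih
    exact ⟨finite_wr T n, fun x hx => N600.UK.center_wr h2 x hx, gd.wr T h2 h3 n hn⟩
  | prod I T h ih =>
    have h1 : ∀ i, Finite (T i) := fun i => (ih i).1
    refine ⟨inferInstance, ?_, gd.pi I T (fun i => (ih i).2.1) (fun i => (ih i).2.2)⟩
    intro z hz
    classical
    funext i
    refine (ih i).2.1 _ fun g => ?_
    have h2 := congrFun (hz (Pi.mulSingle i g)) i
    rw [Pi.mul_apply, Pi.mul_apply, Pi.mulSingle_eq_same] at h2
    exact h2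
  | factor A B h ih =>
    obtain ⟨h1, h2, h3⟩ := ih
    refine ⟨Finite.of_injective (fun a : A => (a, (1 : B))) (fun a b hab => congrArg Prod.fst hab),
      ?_, gd.factor A B h3⟩
    intro z hz
    have h4 : ((z, 1) : A × B) = 1 := by
      apply h2
      rintro ⟨a, b⟩
      refine Prod.ext (hz a) ?_
      change 1 * b = b * 1
      rw [one_mul, mul_one]
    exact congrArg Prod.fst h4
  | extension T C h h' ih ih' =>
    obtain ⟨h1, h2, h3⟩ := ih
    obtain ⟨h4, h5, h6⟩ := ih'
    have hfin : Finite T := Finite.of_subgroup_quotient C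
    refine ⟨hfin, ?_, gd.char T C h3 h6⟩
    intro z hz
    have h7 : (QuotientGroup.mk' C z) = 1 := by
      apply h5
      intro g
      obtain ⟨g, rfl⟩ := QuotientGroup.mk'_surjective C g
      rw [← map_mul, hz g, map_mul]
    rw [QuotientGroup.mk'_apply, QuotientGroup.eq_one_iff] at h7
    have h8 : (⟨z, h7⟩ : C) = 1 := by
      apply h2
      intro g
      exact Subtype.ext (hz g)
    exact congrArg Subtype.val h8
  | iso T T' e h ih =>
    obtain ⟨h1, h2, h3⟩ := ih
    exact ⟨Finite.of_equiv _ e.toEquiv, cl_iso e h2, gd.iso T T' e h3⟩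

end Pool.Agent.L7h25.TP
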